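import Pool.Agent.LUB2.AnaE3

/-!
# The analysis for even `s`
-/

namespace LUB

open Finset

/-- the logarithm is bounded by a power -/
theorem log_le_pow (δ : ℝ) (hδ : 0 < δ) : ∃ c : ℝ, 0 ≤ c ∧ ∀ n : ℕ, 1 ≤ n →
    ((Nat.log 2 n : ℕ) : ℝ) + 1 ≤ c * (n : ℝ) ^ δ := by
  have hl2 : 0 < Real.log 2 := Real.log_pos (by norm_num)
  refine ⟨1 / (δ * Real.log 2) + 1, by positivity, fun n hn => ?_⟩
  have hn' : (1 : ℝ) ≤ n := by exact_mod_cast hn
  have h1 : ((Nat.log 2 n : ℕ) : ℝ) ≤ Real.logb 2 n := by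
    have := Real.natLog_le_logb n 2
    exact_mod_cast this
  have h2 : Real.log n ≤ (n : ℝ) ^ δ / δ := Real.log_le_rpow_div (by linarith) hδ
  have h3 : Real.logb 2 n ≤ 1 / (δ * Real.log 2) * (n : ℝ) ^ δ := by
    rw [Real.logb, div_le_iff₀ hl2]
    refine h2.trans (le_of_eq ?_)
    field_simp
  have h4 : (1 : ℝ) ≤ (n : ℝ) ^ δ := Real.one_le_rpow hn' hδ.le
  nlinarith

/-- the recurrences for all outer bands give the exponent `2 - 1 / (2 s - 3) + ε` -/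
theorem ana_e (s : ℕ) (h4 : 4 ≤ s) (A : ℝ) (hA : 0 ≤ A) (ε : ℝ) (hε : 0 < ε) :
    ∃ C : ℝ, 0 ≤ C ∧ ∀ n : ℕ, 1 ≤ n → ∀ N E : ℕ → ℝ,
      (∀ h, 0 ≤ N h ∧ N h ≤ N (h + 1) ∧ N h ≤ A * (n : ℝ) ^ 2) →
      (∀ G q K : ℕ, 1 ≤ G → 1 ≤ q → 1 ≤ K → E G ≤
        3 ^ K * A * ((n : ℝ) ^ 2 / q + (q : ℝ) ^ s * (G + 1) * n * (Nat.log 2 n + 1)) +
          4 / K * N G) →
      (∀ G, ∃ X : ℕ → ℝ, (∀ h, 1 ≤ h → 0 ≤ X h ∧ X h ≤ N (h + 1) - N h) ∧
        ∀ h, 1 ≤ h → h < G → N h + ∑ g ∈ (Ico 1 h).filter (fun g => h ≤ 8 * g), X g ≤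
          h * ((2 * s - 3) * (N (h + 1) - N h) + X h) +
            A * (n * h + (h : ℝ) ^ 2 + h * (N (G + 1) - N G) + E G)) →
      N 2 ≤ C * (n : ℝ) ^ (2 - 1 / (2 * (s : ℝ) - 3) + ε) := by
  have hs : (4 : ℝ) ≤ s := by exact_mod_cast h4
  set lam : ℝ := 2 * (s : ℝ) - 3 with hlam
  have hl5 : 5 ≤ lam := by rw [hlam]; linarith
  have hl0 : 0 < lam := by linarith
  have hx : 1 / lam ≤ 1 / 5 := one_div_le_one_div_of_le (by norm_num) hl5
  have hx0 : 0 < 1 / lam := by positivity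
  -- the small exponent
  set δ : ℝ := min (ε / 2) (1 / lam) with hδ
  have hδ0 : 0 < δ := lt_min (by positivity) hx0
  have hδ1 : δ ≤ 1 / lam := min_le_right _ _
  have hδ2 : δ ≤ ε / 2 := min_le_left _ _
  set x : ℝ := 1 / lam - δ with hxd
  have hxx0 : 0 ≤ x := by rw [hxd]; linarith
  have hxx1 : x ≤ 1 / 5 := by rw [hxd]; linarith
  -- the block length
  obtain ⟨L, hL1, hL⟩ : ∃ L : ℕ, 2 ≤ L ∧ 2 * (L : ℝ) ^ (-δ) ≤ 1 / 4 := by
    have ht : Filter.Tendsto (fun n : ℕ => (n : ℝ) ^ (-δ)) Filter.atTop (nhds 0) :=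
      (tendsto_rpow_neg_atTop hδ0).comp tendsto_natCast_atTop_atTop
    have h1 := ht.eventually (gt_mem_nhds (show (0 : ℝ) < 1 / 8 by norm_num))
    obtain ⟨L, hL, hL2⟩ := (h1.and (Filter.eventually_ge_atTop 2)).exists
    exact ⟨L, hL2, by linarith⟩
  have hL0 : (0 : ℝ) < L := by exact_mod_cast (by omega : 0 < L)
  have hLr : (2 : ℝ) ≤ L := by exact_mod_cast hL1
  -- the outer factor
  obtain ⟨K, hK⟩ := exists_nat_ge (32 * A * L + 1)
  have hK1 : (1 : ℝ) ≤ K := by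
    have : 0 ≤ 32 * A * L := by positivity
    linarith
  have hK1' : 1 ≤ K := by exact_mod_cast hK1
  have hK0 : (0 : ℝ) < K := by linarith
  have hHH : 4 * A / ((K ^ 2 : ℕ) : ℝ) * (((2 * K ^ 2 * L : ℕ) : ℝ)) ^ x ≤ 1 / 4 := by
    have h1 : (((2 * K ^ 2 * L : ℕ) : ℝ)) ^ x ≤ 2 * L * K := by
      have e1 : (((2 * K ^ 2 * L : ℕ) : ℝ)) = (2 * L) * (K : ℝ) ^ 2 := by push_cast; ring
      rw [e1, Real.mul_rpow (by positivity) (by positivity)]
      have h2 : (2 * (L : ℝ)) ^ x ≤ 2 * L := by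
        calc (2 * (L : ℝ)) ^ x ≤ (2 * (L : ℝ)) ^ (1 : ℝ) :=
              Real.rpow_le_rpow_of_exponent_le (by linarith) (by linarith)
          _ = 2 * L := Real.rpow_one _
      have h3 : ((K : ℝ) ^ 2) ^ x ≤ K := by
        calc ((K : ℝ) ^ 2) ^ x = (K : ℝ) ^ (2 * x) := by
              rw [Real.rpow_mul hK0.le, Real.rpow_two]
          _ ≤ (K : ℝ) ^ (1 : ℝ) := Real.rpow_le_rpow_of_exponent_le hK1 (by linarith)
          _ = K := Real.rpow_one _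
      calc (2 * (L : ℝ)) ^ x * ((K : ℝ) ^ 2) ^ x ≤ (2 * L) * K := by gcongr
        _ = 2 * L * K := by ring
    have h2 : 0 ≤ 4 * A / ((K ^ 2 : ℕ) : ℝ) := by positivity
    calc 4 * A / ((K ^ 2 : ℕ) : ℝ) * (((2 * K ^ 2 * L : ℕ) : ℝ)) ^ x
        ≤ 4 * A / ((K ^ 2 : ℕ) : ℝ) * (2 * L * K) := mul_le_mul_of_nonneg_left h1 h2
      _ = 8 * A * L / K := by
          push_cast
          field_simp
          ring
      _ ≤ 1 / 4 := by
          rw [div_le_iff₀ hK0]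
          linarith
  obtain ⟨B, hB0, hB⟩ := blk3 s h4 A hA (K ^ 2) L (Nat.one_le_pow _ _ hK1') (by omega)
  obtain ⟨c, hc0, hc⟩ := log_le_pow δ hδ0
  set C1 : ℝ := max A (2 * (B * c)) with hC1
  have hC1A : A ≤ C1 := le_max_left _ _
  have hC1B : 2 * (B * c) ≤ C1 := le_max_right _ _
  have hC10 : 0 ≤ C1 := hA.trans hC1A
  refine ⟨2 * C1, by positivity, ?_⟩
  intro n hn N E hN hE hrec
  have hn' : (1 : ℝ) ≤ n := by exact_mod_cast hn
  have hn0 : (0 : ℝ) < n := by linarith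
  have key := hB n hn N E hN hE hrec
  set F : ℕ → ℝ := fun h => (n : ℝ) ^ (2 + δ) * ((h : ℝ) / n) ^ x with hF
  have hF0 : ∀ h, 0 ≤ F h := fun h => by
    simp only [hF]
    positivity
  have hn2 : (n : ℝ) ^ 2 ≤ (n : ℝ) ^ (2 + δ) := by
    rw [← Real.rpow_two]
    exact Real.rpow_le_rpow_of_exponent_le hn' (by linarith)
  -- beyond `n`
  have hbig : ∀ h : ℕ, n ≤ h → N h ≤ C1 * F h := by
    intro h hh
    have h1 : (1 : ℝ) ≤ ((h : ℝ) / n) ^ x := by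
      apply Real.one_le_rpow _ hxx0
      rw [le_div_iff₀ hn0, one_mul]
      exact_mod_cast hh
    have h2 : (n : ℝ) ^ 2 ≤ F h := by
      simp only [hF]
      calc (n : ℝ) ^ 2 ≤ (n : ℝ) ^ (2 + δ) := hn2
        _ = (n : ℝ) ^ (2 + δ) * 1 := (mul_one _).symm
        _ ≤ _ := mul_le_mul_of_nonneg_left h1 (by positivity)
    calc N h ≤ A * (n : ℝ) ^ 2 := (hN h).2.2
      _ ≤ C1 * F h := mul_le_mul hC1A h2 (by positivity) hC10
  have hscale : ∀ a h : ℕ, F (a * h) = (a : ℝ) ^ x * F h := by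
    intro a h
    simp only [hF]
    have e : (((a * h : ℕ) : ℝ)) / n = (a : ℝ) * ((h : ℝ) / n) := by
      push_cast
      ring
    rw [e, Real.mul_rpow (by positivity) (by positivity)]
    ring
  have hlog : ∀ h : ℕ, 1 ≤ h → h ≤ n →
      (n : ℝ) ^ 2 * ((h : ℝ) / n) ^ (1 / lam) * (Nat.log 2 n + 1) ≤ c * F h := by
    intro h h1 h2
    have hq0 : 0 < (h : ℝ) / n := by
      have : (0 : ℝ) < h := by exact_mod_cast h1
      positivity
    have hq1 : (h : ℝ) / n ≤ 1 := by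
      rw [div_le_one hn0]
      exact_mod_cast h2
    have e1 : ((h : ℝ) / n) ^ (1 / lam) ≤ ((h : ℝ) / n) ^ x :=
      Real.rpow_le_rpow_of_exponent_ge hq0 hq1 (by rw [hxd]; linarith)
    have e2 := hc n hn
    have e3 : (n : ℝ) ^ (2 + δ) = (n : ℝ) ^ 2 * (n : ℝ) ^ δ := by
      rw [Real.rpow_add hn0, Real.rpow_two]
    have e0 : 0 ≤ ((h : ℝ) / n) ^ (1 / lam) := by positivity
    have e4 : (0 : ℝ) ≤ (Nat.log 2 n : ℝ) + 1 := by positivity
    simp only [hF]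
    rw [e3]
    calc (n : ℝ) ^ 2 * ((h : ℝ) / n) ^ (1 / lam) * (Nat.log 2 n + 1)
        ≤ (n : ℝ) ^ 2 * ((h : ℝ) / n) ^ x * (c * (n : ℝ) ^ δ) := by gcongr
      _ = c * ((n : ℝ) ^ 2 * (n : ℝ) ^ δ * ((h : ℝ) / n) ^ x) := by ring
  -- the down induction
  have main : ∀ d h : ℕ, 1 ≤ h → n ≤ h + d → N h ≤ C1 * F h := by
    intro d
    induction d with
    | zero =>
      intro h _ hd
      exact hbig h (by omega)
    | succ d ih =>
      intro h h1 hd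
      rcases le_total n h with hnh | hnh
      · exact hbig h hnh
      have k := key h h1 hnh
      have hKK : 1 ≤ K ^ 2 := Nat.one_le_pow _ _ hK1'
      have hLh : h + 1 ≤ L * h := by nlinarith
      have hHh : h + 1 ≤ 2 * K ^ 2 * L * h := by
        have : L * h ≤ 2 * K ^ 2 * L * h := by
          apply Nat.mul_le_mul_right
          nlinarith
        omega
      have i1 := ih (2 * K ^ 2 * L * h) (by omega) (by omega)
      have i2 := ih (L * h) (by omega) (by omega)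
      rw [hscale] at i1 i2
      have f0 := hF0 h
      have j1 : 4 * A / ((K ^ 2 : ℕ) : ℝ) * N (2 * K ^ 2 * L * h) ≤ 1 / 4 * (C1 * F h) := by
        calc 4 * A / ((K ^ 2 : ℕ) : ℝ) * N (2 * K ^ 2 * L * h)
            ≤ 4 * A / ((K ^ 2 : ℕ) : ℝ) * (C1 * ((((2 * K ^ 2 * L : ℕ) : ℝ)) ^ x * F h)) :=
              mul_le_mul_of_nonneg_left i1 (by positivity)
          _ = (4 * A / ((K ^ 2 : ℕ) : ℝ) * (((2 * K ^ 2 * L : ℕ) : ℝ)) ^ x) * (C1 * F h) := by ring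
          _ ≤ 1 / 4 * (C1 * F h) := mul_le_mul_of_nonneg_right hHH (by positivity)
      have j2 : 2 * (L : ℝ) ^ (-(1 / lam)) * N (L * h) ≤ 1 / 4 * (C1 * F h) := by
        have e : (L : ℝ) ^ (-(1 / lam)) * (L : ℝ) ^ x = (L : ℝ) ^ (-δ) := by
          rw [← Real.rpow_add hL0]
          congr 1
          rw [hxd]
          ring
        calc 2 * (L : ℝ) ^ (-(1 / lam)) * N (L * h)
            ≤ 2 * (L : ℝ) ^ (-(1 / lam)) * (C1 * ((L : ℝ) ^ x * F h)) :=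
              mul_le_mul_of_nonneg_left i2 (by positivity)
          _ = (2 * ((L : ℝ) ^ (-(1 / lam)) * (L : ℝ) ^ x)) * (C1 * F h) := by ring
          _ = (2 * (L : ℝ) ^ (-δ)) * (C1 * F h) := by rw [e]
          _ ≤ 1 / 4 * (C1 * F h) := mul_le_mul_of_nonneg_right hL (by positivity)
      have j3 : B * ((n : ℝ) ^ 2 * ((h : ℝ) / n) ^ (1 / lam) * (Nat.log 2 n + 1)) ≤
          1 / 2 * (C1 * F h) := by
        calc B * ((n : ℝ) ^ 2 * ((h : ℝ) / n) ^ (1 / lam) * (Nat.log 2 n + 1))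
            ≤ B * (c * F h) := mul_le_mul_of_nonneg_left (hlog h h1 hnh) hB0
          _ = 1 / 2 * ((2 * (B * c)) * F h) := by ring
          _ ≤ 1 / 2 * (C1 * F h) := by
              apply mul_le_mul_of_nonneg_left _ (by norm_num)
              exact mul_le_mul_of_nonneg_right hC1B f0
      linarith
  have m := main n 2 (by norm_num) (by omega)
  refine m.trans ?_
  have e1 : F 2 ≤ 2 * (n : ℝ) ^ (2 - 1 / lam + ε) := by
    simp only [hF]
    have a1 : (((2 : ℕ) : ℝ) / n) ^ x = ((2 : ℕ) : ℝ) ^ x * (n : ℝ) ^ (-x) := by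
      rw [div_eq_mul_inv, Real.mul_rpow (by positivity) (by positivity), Real.inv_rpow hn0.le,
        Real.rpow_neg hn0.le]
    have a2 : ((2 : ℕ) : ℝ) ^ x ≤ 2 := by
      calc ((2 : ℕ) : ℝ) ^ x ≤ ((2 : ℕ) : ℝ) ^ (1 : ℝ) :=
            Real.rpow_le_rpow_of_exponent_le (by norm_num) (by linarith)
        _ = 2 := by norm_num
    have a3 : (n : ℝ) ^ (2 + δ) * (n : ℝ) ^ (-x) ≤ (n : ℝ) ^ (2 - 1 / lam + ε) := by
      rw [← Real.rpow_add hn0]
      apply Real.rpow_le_rpow_of_exponent_le hn'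
      rw [hxd]
      linarith
    rw [a1]
    calc (n : ℝ) ^ (2 + δ) * (((2 : ℕ) : ℝ) ^ x * (n : ℝ) ^ (-x))
        = ((2 : ℕ) : ℝ) ^ x * ((n : ℝ) ^ (2 + δ) * (n : ℝ) ^ (-x)) := by ring
      _ ≤ 2 * (n : ℝ) ^ (2 - 1 / lam + ε) := by gcongr
  calc C1 * F 2 ≤ C1 * (2 * (n : ℝ) ^ (2 - 1 / lam + ε)) := mul_le_mul_of_nonneg_left e1 hC10
    _ = 2 * C1 * (n : ℝ) ^ (2 - 1 / lam + ε) := by ring

end LUB
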