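import Pool.Agent.LUB.Ana

/-!
# The analysis for even `s`: one block
-/

namespace LUB

open Finset Ana

/-- one step with an error `R` -/
theorem step_e {lam : ℝ} (hl : 5 ≤ lam) {N X : ℕ → ℝ}
    (hX : ∀ h, 1 ≤ h → 0 ≤ X h ∧ X h ≤ N (h + 1) - N h) {h : ℕ} (hh : 1 ≤ h) {R : ℝ}
    (hrec : N h + ∑ g ∈ (Ico 1 h).filter (fun g => h ≤ 8 * g), X g ≤
      h * (lam * (N (h + 1) - N h) + X h) + R) :
    (1 + 1 / (lam * h)) * ((N h + ∑ g ∈ Ico 1 h, wgt lam h g * X g) - R) ≤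
      (N (h + 1) + ∑ g ∈ Ico 1 (h + 1), wgt lam (h + 1) g * X g) - R := by
  have hh' : (0 : ℝ) < h := by exact_mod_cast hh
  have hlam : 0 < lam := by linarith
  have h1 := ana_step (A := R / (h : ℝ) ^ 2) hl (n := 0) hX hh (by
    have e : R / (h : ℝ) ^ 2 * (((0 : ℕ) : ℝ) * h + (h : ℝ) ^ 2) = R := by
      push_cast
      field_simp
      ring
    rw [e]
    exact hrec)
  have e2 : R / (h : ℝ) ^ 2 / lam * (((0 : ℕ) : ℝ) + h) = 1 / (lam * h) * R := by
    push_cast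
    field_simp
    ring
  rw [e2] at h1
  linarith [h1]

/-- one block -/
theorem blk {lam : ℝ} (hl : 5 ≤ lam) {N X : ℕ → ℝ} (hN : ∀ h, 0 ≤ N h)
    (hX : ∀ h, 1 ≤ h → 0 ≤ X h ∧ X h ≤ N (h + 1) - N h) {h L : ℕ} (hh : 1 ≤ h) (hL : 1 ≤ L)
    {R : ℝ} (hR : 0 ≤ R)
    (hrec : ∀ h', h ≤ h' → h' < L * h → N h' +
      ∑ g ∈ (Ico 1 h').filter (fun g => h' ≤ 8 * g), X g ≤
      h' * (lam * (N (h' + 1) - N h') + X h') + R) :
    N h ≤ R + 2 * (L : ℝ) ^ (-(1 / lam)) * N (L * h) := by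
  have hlam : 0 < lam := by linarith
  have hx0 : 0 < 1 / lam := by positivity
  have hh' : (0 : ℝ) < h := by exact_mod_cast hh
  have hL' : (1 : ℝ) ≤ L := by exact_mod_cast hL
  have hL0 : (0 : ℝ) < L := by linarith
  set Φ : ℕ → ℝ := fun h => N h + ∑ g ∈ Ico 1 h, wgt lam h g * X g with hΦ
  have hΦ1 : ∀ h', 1 ≤ h' → Φ h' ≤ 2 * N h' := by
    intro h' hh1
    have h1 : ∑ g ∈ Ico 1 h', wgt lam h' g * X g ≤ ∑ g ∈ Ico 1 h', (N (g + 1) - N g) := by
      apply Finset.sum_le_sum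
      intro g hg
      rw [Finset.mem_Ico] at hg
      have a1 := hX g hg.1
      have a2 := wgt_le_one (lam := lam) (by linarith) h' g
      have a3 := wgt_nonneg lam h' g
      nlinarith [mul_le_mul_of_nonneg_right a2 a1.1]
    have h2 : ∑ g ∈ Ico 1 h', (N (g + 1) - N g) = N h' - N 1 := by
      rw [Finset.sum_Ico_sub N hh1]
    have h4 := hN 1
    have h5 : Φ h' = N h' + ∑ g ∈ Ico 1 h', wgt lam h' g * X g := rfl
    rw [h5]
    rw [h2] at h1
    linarith
  have hΦ0 : ∀ h', N h' ≤ Φ h' := by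
    intro h'
    have : 0 ≤ ∑ g ∈ Ico 1 h', wgt lam h' g * X g := by
      apply Finset.sum_nonneg
      intro g hg
      rw [Finset.mem_Ico] at hg
      exact mul_nonneg (wgt_nonneg _ _ _) (hX g hg.1).1
    have h5 : Φ h' = N h' + ∑ g ∈ Ico 1 h', wgt lam h' g * X g := rfl
    rw [h5]
    linarith
  rcases le_or_gt (N h) R with hNR | hNR
  · have h1 : 0 ≤ 2 * (L : ℝ) ^ (-(1 / lam)) * N (L * h) := by
      have := hN (L * h)
      have h2 : 0 ≤ (L : ℝ) ^ (-(1 / lam)) := Real.rpow_nonneg hL0.le _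
      positivity
    linarith
  -- growth of the potential
  have main : ∀ d : ℕ, h + d ≤ L * h →
      (Φ h - R) * (((h + d : ℕ) : ℝ)) ^ (1 / lam) ≤ (Φ (h + d) - R) * (h : ℝ) ^ (1 / lam) := by
    intro d
    induction d with
    | zero =>
      intro _
      simp
    | succ d ih =>
      intro hd
      have i1 := ih (by omega)
      set h' : ℕ := h + d with hh'd
      have h1' : 1 ≤ h' := by omega
      have h'0 : (0 : ℝ) < h' := by exact_mod_cast h1'
      have st := step_e hl hX h1' (hrec h' (by omega) (by omega))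
      have st' : (1 + 1 / (lam * h')) * (Φ h' - R) ≤ Φ (h' + 1) - R := st
      have hB : (((h' + 1 : ℕ) : ℝ)) ^ (1 / lam) ≤ (h' : ℝ) ^ (1 / lam) * (1 + 1 / (lam * h')) := by
        have e1 : (((h' + 1 : ℕ) : ℝ)) = (h' : ℝ) * (1 + 1 / (h' : ℝ)) := by
          push_cast
          field_simp
        rw [e1, Real.mul_rpow (by positivity) (by positivity)]
        apply mul_le_mul_of_nonneg_left _ (Real.rpow_nonneg h'0.le _)
        have e3 : (1 + 1 / (h' : ℝ)) ^ (1 / lam) ≤ 1 + 1 / lam * (1 / (h' : ℝ)) := by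
          apply rpow_one_add_le_one_add_mul_self
          · have : (0 : ℝ) ≤ 1 / h' := by positivity
            linarith
          · positivity
          · rw [div_le_one hlam]
            linarith
        refine e3.trans (le_of_eq ?_)
        field_simp
      have hpos : 0 ≤ Φ h - R := by
        have := hΦ0 h
        linarith
      have hfac : 0 ≤ 1 + 1 / (lam * h') := by positivity
      have hhp : 0 ≤ (h : ℝ) ^ (1 / lam) := Real.rpow_nonneg hh'.le _
      calc (Φ h - R) * (((h + (d + 1) : ℕ) : ℝ)) ^ (1 / lam)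
          = (Φ h - R) * (((h' + 1 : ℕ) : ℝ)) ^ (1 / lam) := by rw [hh'd]; rfl
        _ ≤ (Φ h - R) * ((h' : ℝ) ^ (1 / lam) * (1 + 1 / (lam * h'))) :=
            mul_le_mul_of_nonneg_left hB hpos
        _ = ((Φ h - R) * (h' : ℝ) ^ (1 / lam)) * (1 + 1 / (lam * h')) := by ring
        _ ≤ ((Φ h' - R) * (h : ℝ) ^ (1 / lam)) * (1 + 1 / (lam * h')) :=
            mul_le_mul_of_nonneg_right i1 hfac
        _ = ((1 + 1 / (lam * h')) * (Φ h' - R)) * (h : ℝ) ^ (1 / lam) := by ring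
        _ ≤ (Φ (h' + 1) - R) * (h : ℝ) ^ (1 / lam) := mul_le_mul_of_nonneg_right st' hhp
  have hLh : h ≤ L * h := by nlinarith
  have m := main (L * h - h) (by omega)
  rw [show h + (L * h - h) = L * h by omega] at m
  push_cast at m
  rw [Real.mul_rpow hL0.le hh'.le] at m
  have hhp : 0 < (h : ℝ) ^ (1 / lam) := Real.rpow_pos_of_pos hh' _
  have m2 : (Φ h - R) * (L : ℝ) ^ (1 / lam) ≤ Φ (L * h) - R := by
    refine le_of_mul_le_mul_right ?_ hhp
    calc (Φ h - R) * (L : ℝ) ^ (1 / lam) * (h : ℝ) ^ (1 / lam) =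
        (Φ h - R) * ((L : ℝ) ^ (1 / lam) * (h : ℝ) ^ (1 / lam)) := by ring
      _ ≤ _ := m
  have hLp : 0 < (L : ℝ) ^ (1 / lam) := Real.rpow_pos_of_pos hL0 _
  have m3 : (N h - R) * (L : ℝ) ^ (1 / lam) ≤ 2 * N (L * h) := by
    have a1 := hΦ0 h
    have a2 := hΦ1 (L * h) (by nlinarith)
    have a3 : (N h - R) * (L : ℝ) ^ (1 / lam) ≤ (Φ h - R) * (L : ℝ) ^ (1 / lam) :=
      mul_le_mul_of_nonneg_right (by linarith) hLp.le
    linarith
  rw [Real.rpow_neg hL0.le]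
  have m4 : N h - R ≤ 2 * N (L * h) / (L : ℝ) ^ (1 / lam) := by
    rw [le_div_iff₀ hLp]
    exact m3
  have e : 2 * ((L : ℝ) ^ (1 / lam))⁻¹ * N (L * h) = 2 * N (L * h) / (L : ℝ) ^ (1 / lam) := by
    rw [div_eq_mul_inv]
    ring
  rw [e]
  linarith

end LUB
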