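import Pool.Agent.LUB2.AnaE1

/-!
# The analysis for even `s`: the block inequality with the error terms
-/

namespace LUB

open Finset Ana

/-- pigeonhole: a boundary with few exchanges -/
theorem pick_G {N : ℕ → ℝ} (hN : ∀ h, 0 ≤ N h) {a : ℕ} (ha : 1 ≤ a) :
    ∃ G, a ≤ G ∧ G < 2 * a ∧ a * (N (G + 1) - N G) ≤ N (2 * a) := by
  by_contra hcon
  push Not at hcon
  have ha' : (0 : ℝ) < a := by exact_mod_cast ha
  have h1 : ∑ G ∈ Ico a (2 * a), N (2 * a) < ∑ G ∈ Ico a (2 * a), a * (N (G + 1) - N G) := by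
    apply Finset.sum_lt_sum_of_nonempty
    · rw [Finset.nonempty_Ico]
      omega
    · intro G hG
      rw [Finset.mem_Ico] at hG
      exact hcon G hG.1 hG.2
  rw [Finset.sum_const, Nat.card_Ico, ← Finset.mul_sum, Finset.sum_Ico_sub N (by omega : a ≤ 2 * a),
    nsmul_eq_mul, show 2 * a - a = a by omega] at h1
  have h2 := hN a
  have h3 := lt_of_mul_lt_mul_left h1 ha'.le
  linarith

/-- the block inequality -/
theorem blk2 (s : ℕ) (h4 : 4 ≤ s) (A : ℝ) (hA : 0 ≤ A) (H L : ℕ) (hH : 1 ≤ H) (hL : 1 ≤ L)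
    (n : ℕ) (N E : ℕ → ℝ)
    (h1 : ∀ h, 0 ≤ N h ∧ N h ≤ N (h + 1) ∧ N h ≤ A * (n : ℝ) ^ 2)
    (h2 : ∀ G q K : ℕ, 1 ≤ G → 1 ≤ q → 1 ≤ K → E G ≤
        3 ^ K * A * ((n : ℝ) ^ 2 / q + (q : ℝ) ^ s * (G + 1) * n * (Nat.log 2 n + 1)) +
          4 / K * N G)
    (h3 : ∀ G, ∃ X : ℕ → ℝ, (∀ h, 1 ≤ h → 0 ≤ X h ∧ X h ≤ N (h + 1) - N h) ∧
        ∀ h, 1 ≤ h → h < G → N h + ∑ g ∈ (Ico 1 h).filter (fun g => h ≤ 8 * g), X g ≤
          h * ((2 * s - 3) * (N (h + 1) - N h) + X h) +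
            A * (n * h + (h : ℝ) ^ 2 + h * (N (G + 1) - N G) + E G))
    (h : ℕ) (hh : 1 ≤ h) (hn : h ≤ n) :
    N h ≤ 2 * A / H * N (2 * (H * L * h)) +
      2 * (L : ℝ) ^ (-(1 / (2 * (s : ℝ) - 3))) * N (L * h) +
      (A * (L + (L : ℝ) ^ 2) + 3 ^ (4 * H) * A ^ 2 * (1 + 2 * H * L * 2 ^ s)) *
        ((n : ℝ) ^ 2 * ((h : ℝ) / n) ^ (1 / (2 * (s : ℝ) - 3))) * (Nat.log 2 n + 1) := by
  have hs4 : (4 : ℝ) ≤ s := by exact_mod_cast h4
  set lam : ℝ := 2 * (s : ℝ) - 3 with hlam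
  have hl : 5 ≤ lam := by rw [hlam]; linarith
  have hlam0 : 0 < lam := by linarith
  have hH' : (1 : ℝ) ≤ H := by exact_mod_cast hH
  have hL' : (1 : ℝ) ≤ L := by exact_mod_cast hL
  have hh' : (1 : ℝ) ≤ h := by exact_mod_cast hh
  have hn' : (h : ℝ) ≤ n := by exact_mod_cast hn
  have hn0 : (0 : ℝ) < n := by linarith
  have hN0 : ∀ h, 0 ≤ N h := fun h => (h1 h).1
  have hmono : Monotone N := monotone_nat_of_le_succ fun h => (h1 h).2.1
  have ha1 : 1 ≤ H * L * h := Nat.mul_pos (Nat.mul_pos hH hL) hh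
  obtain ⟨G, hG1, hG2, hG3⟩ := pick_G hN0 ha1
  obtain ⟨X, hX, hrec⟩ := h3 G
  set T : ℝ := N (2 * (H * L * h)) with hT
  have hT0 : 0 ≤ T := hN0 _
  have hD0 : 0 ≤ N (G + 1) - N G := by
    have := (h1 G).2.1
    linarith
  -- the number `x`
  set x : ℝ := (h : ℝ) / n with hx
  have hx0 : 0 < x := by positivity
  have hx1 : x ≤ 1 := by
    rw [hx, div_le_one hn0]
    exact hn'
  have hnx : (n : ℝ) * x = h := by
    rw [hx]
    field_simp
  set P : ℝ := (n : ℝ) ^ 2 * x ^ (1 / lam) with hP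
  have hP0 : 0 ≤ P := by positivity
  have hxl : x ≤ x ^ (1 / lam) := by
    calc x = x ^ (1 : ℝ) := (Real.rpow_one x).symm
      _ ≤ x ^ (1 / lam) := by
        apply Real.rpow_le_rpow_of_exponent_ge hx0 hx1
        rw [div_le_one hlam0]
        linarith
  have hsl : x ^ (1 / ((s : ℝ) + 1)) ≤ x ^ (1 / lam) := by
    apply Real.rpow_le_rpow_of_exponent_ge hx0 hx1
    apply one_div_le_one_div_of_le
    · linarith
    · rw [hlam]; linarith
  -- the choice of `q`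
  set u : ℝ := (1 / x) ^ (1 / ((s : ℝ) + 1)) with hu
  have hu1 : 1 ≤ u := by
    apply Real.one_le_rpow
    · rw [le_div_iff₀ hx0]
      linarith
    · positivity
  have hu0 : 0 < u := by linarith
  have hux : u⁻¹ = x ^ (1 / ((s : ℝ) + 1)) := by
    rw [hu, one_div, Real.inv_rpow hx0.le, inv_inv]
  set q : ℕ := ⌈u⌉₊ with hq
  have hqu : u ≤ q := Nat.le_ceil u
  have hq2 : (q : ℝ) ≤ 2 * u := by
    have := (Nat.ceil_lt_add_one hu0.le).le
    linarith
  have hq1 : 1 ≤ q := by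
    have : (1 : ℝ) ≤ q := hu1.trans hqu
    exact_mod_cast this
  have hq0 : (0 : ℝ) < q := by linarith
  have husx : u ^ s * x = x ^ (1 / ((s : ℝ) + 1)) := by
    rw [hu, one_div x, Real.inv_rpow hx0.le, ← Real.rpow_neg hx0.le, ← Real.rpow_natCast,
      ← Real.rpow_mul hx0.le]
    nth_rewrite 2 [← Real.rpow_one x]
    rw [← Real.rpow_add hx0]
    congr 1
    field_simp
    ring
  have hnq : (n : ℝ) ^ 2 / q ≤ P := by
    calc (n : ℝ) ^ 2 / q ≤ (n : ℝ) ^ 2 / u := div_le_div_of_nonneg_left (by positivity) hu0 hqu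
      _ = (n : ℝ) ^ 2 * x ^ (1 / ((s : ℝ) + 1)) := by rw [div_eq_mul_inv, hux]
      _ ≤ P := mul_le_mul_of_nonneg_left hsl (by positivity)
  have hqs : (q : ℝ) ^ s * h * n ≤ 2 ^ s * P := by
    calc (q : ℝ) ^ s * h * n ≤ (2 * u) ^ s * h * n := by
          have := pow_le_pow_left₀ hq0.le hq2 s
          have h5 : (0 : ℝ) ≤ h * n := by positivity
          calc (q : ℝ) ^ s * h * n = (q : ℝ) ^ s * (h * n) := by ring
            _ ≤ (2 * u) ^ s * (h * n) := mul_le_mul_of_nonneg_right this h5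
            _ = _ := by ring
      _ = 2 ^ s * ((n : ℝ) ^ 2 * (u ^ s * x)) := by
          rw [mul_pow, ← hnx]
          ring
      _ = 2 ^ s * ((n : ℝ) ^ 2 * x ^ (1 / ((s : ℝ) + 1))) := by rw [husx]
      _ ≤ 2 ^ s * P :=
          mul_le_mul_of_nonneg_left (mul_le_mul_of_nonneg_left hsl (by positivity)) (by positivity)
  have hnLh : (n : ℝ) * (L * h) ≤ L * P := by
    rw [← hnx]
    calc (n : ℝ) * (L * (n * x)) = L * ((n : ℝ) ^ 2 * x) := by ring
      _ ≤ L * P := mul_le_mul_of_nonneg_left (mul_le_mul_of_nonneg_left hxl (by positivity))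
          (by positivity)
  have hLh2 : ((L : ℝ) * h) ^ 2 ≤ (L : ℝ) ^ 2 * P := by
    rw [← hnx]
    have hxx : x ^ 2 ≤ x ^ (1 / lam) := by nlinarith
    calc ((L : ℝ) * (n * x)) ^ 2 = (L : ℝ) ^ 2 * ((n : ℝ) ^ 2 * x ^ 2) := by ring
      _ ≤ (L : ℝ) ^ 2 * P := mul_le_mul_of_nonneg_left
          (mul_le_mul_of_nonneg_left hxx (by positivity)) (by positivity)
  set ℓ : ℝ := (Nat.log 2 n : ℝ) + 1 with hℓ
  have hℓ1 : 1 ≤ ℓ := by
    have : (0 : ℝ) ≤ (Nat.log 2 n : ℝ) := by positivity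
    linarith
  -- the bound of the error
  have hE : E G ≤ 3 ^ (4 * H) * A * (P + 2 * H * L * 2 ^ s * P * ℓ) + 1 / H * T := by
    have e1 := h2 G q (4 * H) (by omega) hq1 (by omega)
    have e2 : (4 : ℝ) / ((4 * H : ℕ) : ℝ) * N G ≤ 1 / H * T := by
      have e3 : (4 : ℝ) / ((4 * H : ℕ) : ℝ) = 1 / H := by
        push_cast
        field_simp
      rw [e3]
      exact mul_le_mul_of_nonneg_left (hmono (by omega)) (by positivity)
    have e4 : ((G : ℝ) + 1) ≤ 2 * H * L * h := by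
      have : G + 1 ≤ 2 * (H * L * h) := by omega
      have h6 : ((G + 1 : ℕ) : ℝ) ≤ ((2 * (H * L * h) : ℕ) : ℝ) := by exact_mod_cast this
      push_cast at h6
      linarith
    have e5 : (q : ℝ) ^ s * (G + 1) * n * ℓ ≤ 2 * H * L * 2 ^ s * P * ℓ := by
      have e6 : (q : ℝ) ^ s * (G + 1) * n ≤ 2 * H * L * (2 ^ s * P) := by
        calc (q : ℝ) ^ s * (G + 1) * n = (q : ℝ) ^ s * n * (G + 1) := by ring
          _ ≤ (q : ℝ) ^ s * n * (2 * H * L * h) := mul_le_mul_of_nonneg_left e4 (by positivity)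
          _ = 2 * H * L * ((q : ℝ) ^ s * h * n) := by ring
          _ ≤ 2 * H * L * (2 ^ s * P) := mul_le_mul_of_nonneg_left hqs (by positivity)
      calc (q : ℝ) ^ s * (G + 1) * n * ℓ ≤ 2 * H * L * (2 ^ s * P) * ℓ :=
            mul_le_mul_of_nonneg_right e6 (by linarith)
        _ = _ := by ring
    have e7 : 3 ^ (4 * H) * A * ((n : ℝ) ^ 2 / q + (q : ℝ) ^ s * (G + 1) * n * ℓ) ≤
        3 ^ (4 * H) * A * (P + 2 * H * L * 2 ^ s * P * ℓ) :=
      mul_le_mul_of_nonneg_left (add_le_add hnq e5) (by positivity)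
    linarith
  set R : ℝ := A * (L * P + (L : ℝ) ^ 2 * P + 1 / H * T +
    (3 ^ (4 * H) * A * (P + 2 * H * L * 2 ^ s * P * ℓ) + 1 / H * T)) with hR
  have hR0 : 0 ≤ R := by positivity
  have hb := blk hl hN0 hX hh hL hR0 (by
    intro h' h'1 h'2
    have g1 : h' < G := by
      have : L * h ≤ H * L * h := by
        rw [mul_assoc]
        exact Nat.le_mul_of_pos_left _ hH
      omega
    have r1 := hrec h' (by omega) g1
    refine r1.trans ?_
    have h'3 : (h' : ℝ) ≤ L * h := by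
      have : ((h' : ℕ) : ℝ) ≤ ((L * h : ℕ) : ℝ) := by exact_mod_cast h'2.le
      push_cast at this
      exact this
    have h'0 : (0 : ℝ) ≤ h' := by positivity
    have d1 : (n : ℝ) * h' ≤ L * P := (mul_le_mul_of_nonneg_left h'3 hn0.le).trans hnLh
    have d2 : (h' : ℝ) ^ 2 ≤ (L : ℝ) ^ 2 * P := (pow_le_pow_left₀ h'0 h'3 2).trans hLh2
    have d3 : (h' : ℝ) * (N (G + 1) - N G) ≤ 1 / H * T := by
      have e1 : (h' : ℝ) * (N (G + 1) - N G) ≤ (L * h) * (N (G + 1) - N G) :=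
        mul_le_mul_of_nonneg_right h'3 hD0
      have e2 : ((L : ℝ) * h) * (N (G + 1) - N G) ≤ 1 / H * T := by
        push_cast at hG3
        rw [one_div, inv_mul_eq_div, le_div_iff₀ (by linarith)]
        calc (L : ℝ) * h * (N (G + 1) - N G) * H = H * L * h * (N (G + 1) - N G) := by ring
          _ ≤ T := hG3
      linarith
    have d4 : A * (n * h' + (h' : ℝ) ^ 2 + h' * (N (G + 1) - N G) + E G) ≤ R := by
      rw [hR]
      apply mul_le_mul_of_nonneg_left _ hA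
      linarith
    rw [hlam]
    linarith)
  refine hb.trans ?_
  have hfin : R ≤ 2 * A / H * T +
      (A * (L + (L : ℝ) ^ 2) + 3 ^ (4 * H) * A ^ 2 * (1 + 2 * H * L * 2 ^ s)) * P * ℓ := by
    have f1 : R = 2 * A / H * T + (A * (L + (L : ℝ) ^ 2) * P + 3 ^ (4 * H) * A ^ 2 * P +
        3 ^ (4 * H) * A ^ 2 * (2 * H * L * 2 ^ s) * P * ℓ) := by
      rw [hR]
      field_simp
      ring
    rw [f1]
    have f2 : A * (L + (L : ℝ) ^ 2) * P ≤ A * (L + (L : ℝ) ^ 2) * P * ℓ :=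
      le_mul_of_one_le_right (by positivity) hℓ1
    have f3 : 3 ^ (4 * H) * A ^ 2 * P ≤ 3 ^ (4 * H) * A ^ 2 * P * ℓ :=
      le_mul_of_one_le_right (by positivity) hℓ1
    nlinarith
  linarith

end LUB
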