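import Pool.Agent.LUB2.AnaE2

/-!
# The analysis for even `s`: the block inequality, short form
-/

namespace LUB

open Finset Ana

/-- the block inequality with an unnamed constant -/
theorem blk3 (s : ℕ) (h4 : 4 ≤ s) (A : ℝ) (hA : 0 ≤ A) (H L : ℕ) (hH : 1 ≤ H) (hL : 1 ≤ L) :
    ∃ B : ℝ, 0 ≤ B ∧ ∀ n : ℕ, 1 ≤ n → ∀ N E : ℕ → ℝ,
      (∀ h, 0 ≤ N h ∧ N h ≤ N (h + 1) ∧ N h ≤ A * (n : ℝ) ^ 2) →
      (∀ G q K : ℕ, 1 ≤ G → 1 ≤ q → 1 ≤ K → E G ≤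
        3 ^ K * A * ((n : ℝ) ^ 2 / q + (q : ℝ) ^ s * (G + 1) * n * (Nat.log 2 n + 1)) +
          4 / K * N G) →
      (∀ G, ∃ X : ℕ → ℝ, (∀ h, 1 ≤ h → 0 ≤ X h ∧ X h ≤ N (h + 1) - N h) ∧
        ∀ h, 1 ≤ h → h < G → N h + ∑ g ∈ (Ico 1 h).filter (fun g => h ≤ 8 * g), X g ≤
          h * ((2 * s - 3) * (N (h + 1) - N h) + X h) +
            A * (n * h + (h : ℝ) ^ 2 + h * (N (G + 1) - N G) + E G)) →
      ∀ h : ℕ, 1 ≤ h → h ≤ n → N h ≤ 4 * A / H * N (2 * H * L * h) +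
        2 * (L : ℝ) ^ (-(1 / (2 * (s : ℝ) - 3))) * N (L * h) +
        B * ((n : ℝ) ^ 2 * ((h : ℝ) / n) ^ (1 / (2 * (s : ℝ) - 3)) * (Nat.log 2 n + 1)) := by
  refine ⟨A * (L + (L : ℝ) ^ 2) + 3 ^ (4 * H) * A ^ 2 * (1 + 2 * H * L * 2 ^ s), by positivity,
    ?_⟩
  intro n _ N E h1 h2 h3 h hh hn
  have h0 := blk2 s h4 A hA H L hH hL n N E h1 h2 h3 h hh hn
  have hH' : (0 : ℝ) < H := by exact_mod_cast hH
  rw [show 2 * (H * L * h) = 2 * H * L * h by ring] at h0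
  have e1 : 2 * A / H * N (2 * H * L * h) ≤ 4 * A / H * N (2 * H * L * h) := by
    apply mul_le_mul_of_nonneg_right _ (h1 _).1
    apply div_le_div_of_nonneg_right _ hH'.le
    linarith
  have e2 : (A * (L + (L : ℝ) ^ 2) + 3 ^ (4 * H) * A ^ 2 * (1 + 2 * H * L * 2 ^ s)) *
        ((n : ℝ) ^ 2 * ((h : ℝ) / n) ^ (1 / (2 * (s : ℝ) - 3))) * (Nat.log 2 n + 1) =
      (A * (L + (L : ℝ) ^ 2) + 3 ^ (4 * H) * A ^ 2 * (1 + 2 * H * L * 2 ^ s)) *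
        ((n : ℝ) ^ 2 * ((h : ℝ) / n) ^ (1 / (2 * (s : ℝ) - 3)) * (Nat.log 2 n + 1)) := by
    ring
  rw [e2] at h0
  linarith

end LUB
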