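import Pool.Agent.LUB2.EDefs

/-!
# Chains: no complete bipartite graph
-/

open scoped Classical

namespace LUB

variable {V : Type} [DecidableEq V] [Fintype V] {s : ℕ}

/-- the curves of an exchange are alive -/
theorem Sweep.sw_mem (S : Sweep V s) {t : ℕ} {u v : V} (h : S.Sw t s(u, v)) :
    u ∈ S.L t ∧ v ∈ S.L t := by
  obtain ⟨ht, hg, hp⟩ := h
  obtain ⟨-, hx, hy, -, -⟩ := S.xy ht hg
  rcases Sym2.eq_iff.1 hp with ⟨e1, e2⟩ | ⟨e1, e2⟩
  · subst e1 e2; exact ⟨hx, hy⟩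
  · subst e1 e2; exact ⟨hy, hx⟩

/-- only one pair is exchanged at each step -/
theorem Sweep.sw_unique (S : Sweep V s) {t : ℕ} {p q : Sym2 V} (h : S.Sw t p) (h' : S.Sw t q) :
    p = q := h.2.2.symm.trans h'.2.2

theorem Sweep.cnt_mono (S : Sweep V s) {t t' : ℕ} (h : t ≤ t') (p : Sym2 V) :
    S.cnt t p ≤ S.cnt t' p := by
  unfold Sweep.cnt
  exact Finset.card_le_card (Finset.filter_subset_filter _ (Finset.range_mono h))

/-- without exchanges of the pair the number of exchanges does not change -/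
theorem Sweep.cnt_const (S : Sweep V s) {t t' : ℕ} (h : t ≤ t') {p : Sym2 V}
    (hn : ∀ e, t ≤ e → e < t' → ¬ S.Sw e p) : S.cnt t' p = S.cnt t p := by
  refine le_antisymm ?_ (S.cnt_mono h p)
  unfold Sweep.cnt
  refine Finset.card_le_card fun e he => ?_
  rw [Finset.mem_filter, Finset.mem_range] at he ⊢
  refine ⟨?_, he.2⟩
  by_contra h'
  exact hn e (not_lt.1 h') he.1 he.2

/-- chains with a common curve have disjoint intervals, so at most one chain of a curve contains a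
given moment: the number of chains of the window which are cut at `c` -/
theorem Sweep.ch_cut (hs : Even s) (S : Sweep V s) (R : Finset V) {a c b : ℕ} (hac : a ≤ c)
    (hcb : c ≤ b) (hb : b ≤ S.M) :
    (S.ChP R a b).card ≤ R.card + (S.ChP R a c).card + (S.ChP R c b).card := by
  set Z : Finset (V × V) := (S.ChP R a b).filter fun x => ¬ S.Ch R a c x.1 x.2 ∧
    ¬ S.Ch R c b x.1 x.2 with hZ
  have h1 : S.ChP R a b ⊆ Z ∪ (S.ChP R a c ∪ S.ChP R c b) := by
    intro x hx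
    have hx' := hx
    unfold Sweep.ChP at hx'
    rw [Finset.mem_filter] at hx'
    by_cases h2 : S.Ch R a c x.1 x.2
    · refine Finset.mem_union_right _ (Finset.mem_union_left _ ?_)
      exact Finset.mem_filter.2 ⟨hx'.1, h2⟩
    by_cases h3 : S.Ch R c b x.1 x.2
    · refine Finset.mem_union_right _ (Finset.mem_union_right _ ?_)
      exact Finset.mem_filter.2 ⟨hx'.1, h3⟩
    exact Finset.mem_union_left _ (Finset.mem_filter.2 ⟨hx, h2, h3⟩)
  -- the chains which are cut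
  have hcut : ∀ x ∈ Z, x.1 ∈ R ∧ x.2 ∈ R ∧ ∃ α β, α < c ∧ c < β ∧ S.Sw α s(x.1, x.2) ∧
      ∀ t, α ≤ t → t < β → ∀ w ∈ R, w ≠ x.1 → w ≠ x.2 → ¬ S.Sw t s(x.1, w) := by
    intro x hx
    rw [hZ, Finset.mem_filter] at hx
    obtain ⟨hx1, hx2, hx3⟩ := hx
    unfold Sweep.ChP at hx1
    rw [Finset.mem_filter, Finset.mem_product] at hx1
    obtain ⟨⟨hR1, hR2⟩, hne, α, β, e1, e2, e3, e4, e5, e6, e7, e8, e9, e10⟩ := hx1
    refine ⟨hR1, hR2, α, β, ?_, ?_, e6, fun t h4 h5 w hw h6 h7 => (e10 t h4 h5 w hw h6 h7).1⟩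
    · by_contra h
      exact hx3 ⟨hne, α, β, not_lt.1 h, e2, e3, e4, e5, e6, e7, e8, e9, e10⟩
    · by_contra h
      exact hx2 ⟨hne, α, β, e1, e2, not_lt.1 h, hcb.trans hb, e5, e6, e7, e8, e9, e10⟩
  have h2 : Z.card ≤ R.card := by
    refine Finset.card_le_card_of_injOn (fun x => x.1) (fun x hx => (hcut x hx).1) ?_
    intro x hx x' hx' (he : x.1 = x'.1)
    obtain ⟨-, hR2, α, β, e1, e2, e3, e4⟩ := hcut x hx
    obtain ⟨-, hR2', α', β', f1, f2, f3, f4⟩ := hcut x' hx'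
    by_contra hne
    have hne2 : x.2 ≠ x'.2 := fun h => hne (Prod.ext he h)
    have hx12 : x.1 ≠ x.2 := by
      obtain ⟨a', b', h⟩ : x.1 ≠ x.2 ∧ True ∧ True := by
        have := (Finset.mem_filter.1 (Finset.mem_filter.1 hx).1).2.1
        exact ⟨this, trivial, trivial⟩
      exact a'
    have hx12' : x'.1 ≠ x'.2 := (Finset.mem_filter.1 (Finset.mem_filter.1 hx').1).2.1
    have g1 : ¬ (α' ≤ α) := by
      intro h
      refine f4 α h (e1.trans f2) x.2 hR2 ?_ hne2 ?_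
      · rw [← he]; exact hx12.symm
      · rw [← he]; exact e3
    have g2 : ¬ (α ≤ α') := by
      intro h
      refine e4 α' h (f1.trans e2) x'.2 hR2' ?_ hne2.symm ?_
      · rw [he]; exact hx12'.symm
      · rw [he]; exact f3
    omega
  calc (S.ChP R a b).card ≤ (Z ∪ (S.ChP R a c ∪ S.ChP R c b)).card := Finset.card_le_card h1
    _ ≤ Z.card + (S.ChP R a c ∪ S.ChP R c b).card := Finset.card_union_le _ _
    _ ≤ Z.card + ((S.ChP R a c).card + (S.ChP R c b).card) :=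
        Nat.add_le_add_left (Finset.card_union_le _ _) _
    _ ≤ R.card + (S.ChP R a c).card + (S.ChP R c b).card := by omega

/-- an order of the living curves at all times, compatible with the exchanges -/
private structure Ord (S : Sweep V s) (O : ℕ → V → V → Prop) : Prop where
  tot : ∀ t u v, t ≤ S.M → u ∈ S.L t → v ∈ S.L t → u ≠ v → (O t u v ↔ ¬ O t v u)
  same : ∀ a b, a ≤ b → b ≤ S.M → ∀ u v, u ≠ v → u ∈ S.L a → v ∈ S.L a → u ∈ S.L b →
    v ∈ S.L b → Even (S.cnt a s(u, v) + S.cnt b s(u, v)) → (O b u v ↔ O a u v)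
  adj : ∀ t u v c, S.Sw t s(u, v) → c ∈ S.L t → c ≠ u → c ≠ v → (O t c u ↔ O t c v)

private theorem lt_tot (S : Sweep V s) {t : ℕ} {u v : V} (hu : u ∈ S.L t) (huv : u ≠ v) :
    S.Lt t u v ↔ ¬ S.Lt t v u := by
  unfold Sweep.Lt
  have : (S.L t).idxOf u ≠ (S.L t).idxOf v := fun h => huv ((List.idxOf_inj hu).1 h)
  omega

private theorem ord_up (S : Sweep V s) : Ord S S.Lt where
  tot t u v _ hu _ huv := lt_tot S hu huv
  same a b hab hb u v huv h1 h2 h3 h4 he := (S.lt_iff hab hb huv h1 h2 h3 h4).2 he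
  adj t u v c h hc hu hv := (S.adj h hc hu hv).1

private theorem ord_down (S : Sweep V s) : Ord S fun t u v => S.Lt t v u where
  tot t u v _ _ hv huv := lt_tot S hv huv.symm
  same a b hab hb u v huv h1 h2 h3 h4 he := by
    refine (S.lt_iff hab hb huv.symm h2 h1 h4 h3).2 ?_
    rw [Sym2.eq_swap]
    exact he
  adj t u v c h hc hu hv := by
    obtain ⟨h1, h2⟩ := S.sw_mem h
    rw [lt_tot S h1 (Ne.symm hu), lt_tot S h2 (Ne.symm hv)]
    exact not_congr (S.adj h hc hu hv).1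

/-- a chain: the times `α` and `β` of the pair `(u, w)` -/
private def IsCh (S : Sweep V s) (O : ℕ → V → V → Prop) (R : Finset V) (a b : ℕ) (u w : V)
    (α β : ℕ) : Prop :=
  u ≠ w ∧ a ≤ α ∧ α < β ∧ β ≤ b ∧ O α u w ∧ S.Sw α s(u, w) ∧ S.cnt α s(u, w) = 0 ∧
    S.cnt β s(u, w) = s ∧ ∀ t, α ≤ t → t < β → ∀ z ∈ R, z ≠ u → z ≠ w →
      ¬ S.Sw t s(u, z) ∧ ¬ S.Sw t s(w, z)

/-- outside of its interval, the lower curve of the chain is below the upper one -/
private theorem ch_out (hs : Even s) {S : Sweep V s} {O : ℕ → V → V → Prop} (hO : Ord S O)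
    {R : Finset V} {a b α β t : ℕ} {u w : V} (hb : b ≤ S.M) (h : IsCh S O R a b u w α β)
    (ht : t ≤ S.M) (hout : ¬ (α ≤ t ∧ t < β)) (hu : u ∈ S.L t) (hw : w ∈ S.L t) : O t u w := by
  obtain ⟨h1, h2, h3, h4, h5, h6, h7, h8, -⟩ := h
  obtain ⟨h9, h10⟩ := S.sw_mem h6
  have hα : α ≤ S.M := by omega
  rcases lt_or_ge t α with h11 | h11
  · refine (hO.same t α h11.le hα u w h1 hu hw h9 h10 ?_).1 h5
    have := S.cnt_mono h11.le s(u, w)
    have e : S.cnt t s(u, w) = 0 := by omega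
    rw [e, h7]
    exact Even.zero
  · have h12 : β ≤ t := by omega
    refine (hO.same α t h11 ht u w h1 h9 h10 hu hw ?_).2 h5
    have e1 := S.cnt_mono h12 s(u, w)
    have e2 := S.cnt_le h1 t
    have e : S.cnt t s(u, w) = s := by omega
    rw [e, h7, zero_add]
    exact hs

/-- the state of a curve -/
private noncomputable def stt (S : Sweep V s) (t : ℕ) (v : V) : Fin 3 :=
  if v ∈ S.L t then 0 else if ∃ t' < t, v ∈ S.L t' then 1 else 2

/-- the same state at two moments around a moment of life -/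
private theorem stt_eq {S : Sweep V s} {v : V} {p r q : ℕ} (hpr : p ≤ r) (hrq : r < q)
    (hq : q ≤ S.M) (hr : v ∈ S.L r) (h : stt S p v = stt S q v) : v ∈ S.L p ∧ v ∈ S.L q := by
  by_cases h1 : v ∈ S.L q
  · by_cases h2 : v ∈ S.L p
    · exact ⟨h2, h1⟩
    · have e1 : stt S q v = 0 := if_pos h1
      have e2 : stt S p v = if ∃ t' < p, v ∈ S.L t' then 1 else 2 := if_neg h2
      rw [e1, e2] at h
      split_ifs at h <;> exact absurd h (by decide)
  · have h0 : ∃ t' < q, v ∈ S.L t' := ⟨r, hrq, hr⟩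
    have e1 : stt S q v = 1 := (if_neg h1).trans (if_pos h0)
    rw [e1] at h
    by_cases h2 : v ∈ S.L p
    · have e2 : stt S p v = 0 := if_pos h2
      rw [e2] at h
      exact absurd h (by decide)
    · by_cases h3 : ∃ t' < p, v ∈ S.L t'
      · obtain ⟨t', h4, h5⟩ := h3
        exact absurd (S.life v t' p r h4.le hpr (hrq.le.trans hq) h5 hr) h2
      · have e2 : stt S p v = 2 := (if_neg h2).trans (if_neg h3)
        rw [e2] at h
        exact absurd h (by decide)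

private theorem kab_aux (hs : Even s) (S : Sweep V s) {O : ℕ → V → V → Prop} (hO : Ord S O)
    (R : Finset V) {a b : ℕ} (hb : b ≤ S.M) (A W : Finset V) (hA : A ⊆ R)
    (hAc : A.card = s + 1) (hW : W ⊆ R) (hT : ∀ w ∈ W, S.Tot a b w) (T E : V → V → ℕ)
    (h : ∀ u ∈ A, ∀ w ∈ W, IsCh S O R a b u w (T u w) (E u w)) :
    W.card ≤ (3 * (s + 1)) ^ ((s + 1) ^ 2) := by
  have hle : ∀ u ∈ A, ∀ w ∈ W, T u w ≤ S.M := fun u hu w hw => by
    obtain ⟨-, -, h1, h2, -⟩ := h u hu w hw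
    omega
  have hal : ∀ u ∈ A, ∀ w ∈ W, u ∈ S.L (T u w) ∧ w ∈ S.L (T u w) := fun u hu w hw =>
    S.sw_mem (h u hu w hw).2.2.2.2.2.1
  have hsw : ∀ u ∈ A, ∀ w ∈ W, S.Sw (T u w) s(u, w) := fun u hu w hw =>
    (h u hu w hw).2.2.2.2.2.1
  have hne : ∀ u ∈ A, ∀ w ∈ W, u ≠ w := fun u hu w hw => (h u hu w hw).1
  have htot : ∀ u ∈ A, ∀ w ∈ W, ∀ w' ∈ W, w' ∈ S.L (T u w) := fun u hu w hw w' hw' => by
    obtain ⟨-, h1, h2, h3, -⟩ := h u hu w hw
    exact hT w' hw' _ h1 (by omega)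
  -- at the exchange, the other upper curves are above
  have L2 : ∀ u ∈ A, ∀ w ∈ W, ∀ w' ∈ W, w' ≠ w → O (T u w) w w' := by
    intro u hu w hw w' hw' hne'
    have h1 : ¬ (T u w' ≤ T u w ∧ T u w < E u w') := by
      rintro ⟨h2, h3⟩
      exact ((h u hu w' hw').2.2.2.2.2.2.2.2 _ h2 h3 w (hW hw) (hne u hu w hw).symm
        hne'.symm).1 (hsw u hu w hw)
    have h2 : O (T u w) u w' := ch_out hs hO hb (h u hu w' hw') (hle u hu w hw) h1
      (hal u hu w hw).1 (htot u hu w hw w' hw')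
    have h3 := hO.adj (T u w) u w w' (hsw u hu w hw) (htot u hu w hw w' hw')
      (hne u hu w' hw').symm hne'
    have h4 := hO.tot (T u w) u w' (hle u hu w hw) (hal u hu w hw).1 (htot u hu w hw w' hw')
      (hne u hu w' hw')
    have h5 := hO.tot (T u w) w w' (hle u hu w hw) (hal u hu w hw).2 (htot u hu w hw w' hw')
      hne'.symm
    tauto
  -- and the other lower curves are below
  have L3 : ∀ u ∈ A, ∀ w ∈ W, ∀ u' ∈ A, u' ≠ u → u' ∈ S.L (T u w) → O (T u w) u' u := by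
    intro u hu w hw u' hu' hne' hmem
    have h1 : ¬ (T u' w ≤ T u w ∧ T u w < E u' w) := by
      rintro ⟨h2, h3⟩
      have h4 := ((h u' hu' w hw).2.2.2.2.2.2.2.2 _ h2 h3 u (hA hu) hne'.symm
        (hne u hu w hw)).2
      rw [Sym2.eq_swap] at h4
      exact h4 (hsw u hu w hw)
    have h2 : O (T u w) u' w := ch_out hs hO hb (h u' hu' w hw) (hle u hu w hw) h1 hmem
      (hal u hu w hw).2
    exact (hO.adj (T u w) u w u' (hsw u hu w hw) hmem hne' (hne u' hu' w hw)).2 h2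
  -- the codes
  let code : V → ({x // x ∈ A} × {x // x ∈ A}) → Fin 3 × Fin (s + 1) := fun w p =>
    (stt S (T p.1 w) p.2, ⟨min (S.cnt (T p.1 w) s((p.1 : V), (p.2 : V))) s, by omega⟩)
  by_contra hcard
  push Not at hcard
  have hcode : (Finset.univ : Finset (({x // x ∈ A} × {x // x ∈ A}) → Fin 3 × Fin (s + 1))).card <
      W.card := by
    refine lt_of_eq_of_lt ?_ hcard
    rw [Finset.card_univ, Fintype.card_fun]
    simp only [Fintype.card_prod, Fintype.card_fin, Fintype.card_coe, hAc]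
    rw [← pow_two]
  obtain ⟨w, hw, w', hw', hww, heq⟩ := Finset.exists_ne_map_eq_of_card_lt_of_maps_to hcode
    (f := code) (fun _ _ => Finset.mem_coe.2 (Finset.mem_univ _))
  -- no moment `T u' w₃` between `T u w₁` and `T u w₂`
  have L5 : ∀ u ∈ A, ∀ u' ∈ A, u' ≠ u → ∀ w₁ ∈ W, ∀ w₂ ∈ W, ∀ w₃ ∈ W, code w₁ = code w₂ →
      T u w₁ < T u' w₃ → T u' w₃ < T u w₂ → False := by
    intro u hu u' hu' hne' w₁ h1 w₂ h2 w₃ h3 hc hlt hlt'
    have hc' := congrFun hc (⟨u, hu⟩, ⟨u', hu'⟩)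
    have hc1 : stt S (T u w₁) u' = stt S (T u w₂) u' := congrArg Prod.fst hc'
    have hc2 : min (S.cnt (T u w₁) s(u, u')) s = min (S.cnt (T u w₂) s(u, u')) s :=
      congrArg (fun x : Fin 3 × Fin (s + 1) => (x.2 : ℕ)) hc'
    rw [min_eq_left (S.cnt_le hne'.symm _), min_eq_left (S.cnt_le hne'.symm _)] at hc2
    obtain ⟨m1, m2⟩ := stt_eq hlt.le hlt' (hle u hu w₂ h2) (hal u' hu' w₃ h3).1 hc1
    have m3 : u ∈ S.L (T u' w₃) := S.life u _ _ _ hlt.le hlt'.le (hle u hu w₂ h2)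
      (hal u hu w₁ h1).1 (hal u hu w₂ h2).1
    have k1 := S.cnt_mono hlt.le s(u, u')
    have k2 := S.cnt_mono hlt'.le s(u, u')
    have k3 : S.cnt (T u' w₃) s(u, u') = S.cnt (T u w₁) s(u, u') := by omega
    have o1 : O (T u w₁) u' u := L3 u hu w₁ h1 u' hu' hne' m1
    have o2 : O (T u' w₃) u u' := L3 u' hu' w₃ h3 u hu hne'.symm m3
    have o3 := hO.same _ _ hlt.le (hle u' hu' w₃ h3) u' u hne' m1 (hal u hu w₁ h1).1
      (hal u' hu' w₃ h3).1 m3 (by
        rw [Sym2.eq_swap, k3]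
        exact Even.add_self _)
    have o4 := hO.tot _ u u' (hle u' hu' w₃ h3) m3 (hal u' hu' w₃ h3).1 hne'.symm
    exact (o4.1 o2) (o3.2 o1)
  -- an exchange of `w` and `w'` between `T u w` and `T u w'`
  have L6 : ∀ u ∈ A, ∃ e, min (T u w) (T u w') ≤ e ∧ e < max (T u w) (T u w') ∧
      S.Sw e s(w, w') := by
    intro u hu
    by_contra hno
    push Not at hno
    have o1 := L2 u hu w hw w' hw' hww.symm
    have o2 := L2 u hu w' hw' w hw hww
    have m1 := (hal u hu w hw).2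
    have m2 := htot u hu w hw w' hw'
    have m3 := htot u hu w' hw' w hw
    have m4 := (hal u hu w' hw').2
    rcases le_total (T u w) (T u w') with h1 | h1
    · rw [min_eq_left h1, max_eq_right h1] at hno
      have o3 := hO.same _ _ h1 (hle u hu w' hw') w w' hww m1 m2 m3 m4 (by
        rw [S.cnt_const h1 hno]
        exact Even.add_self _)
      have o4 := hO.tot _ w w' (hle u hu w' hw') m3 m4 hww
      exact o4.1 (o3.2 o1) o2
    · rw [min_eq_right h1, max_eq_left h1] at hno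
      have o3 := hO.same _ _ h1 (hle u hu w hw) w' w hww.symm m4 m3 m2 m1 (by
        rw [Sym2.eq_swap, S.cnt_const h1 hno]
        exact Even.add_self _)
      have o4 := hO.tot _ w w' (hle u hu w hw) m1 m2 hww
      exact o4.1 o1 (o3.2 o2)
  choose! e he1 he2 he3 using L6
  have hcard2 : A.card ≤ ((Finset.range S.M).filter fun t => S.gap t ≠ 0 ∧
      s(S.x t, S.y t) = s(w, w')).card := by
    refine Finset.card_le_card_of_injOn e (fun u hu => ?_) ?_
    · have h1 := he3 u hu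
      exact Finset.mem_coe.2 (Finset.mem_filter.2 ⟨Finset.mem_range.2 h1.1, h1.2⟩)
    · intro u hu u' hu' hee
      by_contra hne'
      have hu0 : u ∈ A := hu
      have hu0' : u' ∈ A := hu'
      -- different moments
      have hd : ∀ z ∈ W, ∀ z' ∈ W, T u z ≠ T u' z' := by
        intro z hz z' hz' hzz
        have k1 := hsw u hu0 z hz
        have k2 := hsw u' hu0' z' hz'
        rw [← hzz] at k2
        rcases Sym2.eq_iff.1 (S.sw_unique k1 k2) with ⟨k3, -⟩ | ⟨k3, -⟩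
        · exact hne' k3
        · exact hne u hu0 z' hz' k3
      have g1 := he1 u hu0
      have g2 := he2 u hu0
      have g3 := he1 u' hu0'
      have g4 := he2 u' hu0'
      rw [← hee] at g3 g4
      -- `P u` : the two moments in order
      have key : ∀ v ∈ A, ∃ z₁ ∈ W, ∃ z₂ ∈ W, code z₁ = code z₂ ∧
          T v z₁ = min (T v w) (T v w') ∧ T v z₂ = max (T v w) (T v w') := by
        intro v hv
        rcases le_total (T v w) (T v w') with h1 | h1
        · exact ⟨w, hw, w', hw', heq, (min_eq_left h1).symm, (max_eq_right h1).symm⟩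
        · exact ⟨w', hw', w, hw, heq.symm, (min_eq_right h1).symm, (max_eq_left h1).symm⟩
      obtain ⟨z₁, hz₁, z₂, hz₂, c1, t1, t2⟩ := key u hu0
      obtain ⟨z₃, hz₃, z₄, hz₄, c3, t3, t4⟩ := key u' hu0'
      rw [← t1] at g1
      rw [← t2] at g2
      rw [← t3] at g3
      rw [← t4] at g4
      have d1 := hd z₁ hz₁ z₃ hz₃
      rcases lt_or_gt_of_ne d1 with h1 | h1
      · exact L5 u hu0 u' hu0' (Ne.symm hne') z₁ hz₁ z₂ hz₂ z₃ hz₃ c1 h1 (lt_of_le_of_lt g3 g2)
      · exact L5 u' hu0' u hu0 hne' z₃ hz₃ z₄ hz₄ z₁ hz₁ c3 h1 (lt_of_le_of_lt g1 g4)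
  have := S.budget w w' hww
  omega

/-- the upper curves are alive in the whole window -/
theorem Sweep.kab_up (hs : Even s) (h2 : 2 ≤ s) (S : Sweep V s) (R : Finset V) {a b : ℕ}
    (hb : b ≤ S.M) (A W : Finset V) (hA : A ⊆ R) (hAc : A.card = s + 1) (hW : W ⊆ R)
    (hT : ∀ w ∈ W, S.Tot a b w) (h : ∀ w ∈ W, ∀ u ∈ A, S.Ch R a b u w) :
    W.card ≤ (3 * (s + 1)) ^ ((s + 1) ^ 2) := by
  have h1 : ∀ u w, ∃ α β, u ∈ A → w ∈ W → IsCh S S.Lt R a b u w α β := by
    intro u w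
    by_cases hu : u ∈ A
    · by_cases hw : w ∈ W
      · obtain ⟨k1, α, β, k2, k3, k4, k5, k6, k7, k8, k9, k10, k11⟩ := h w hw u hu
        exact ⟨α, β, fun _ _ => ⟨k1, k2, k3, k4, k6, k7, k8, k9, k11⟩⟩
      · exact ⟨0, 0, fun _ h => absurd h hw⟩
    · exact ⟨0, 0, fun h => absurd h hu⟩
  choose T E hTE using h1
  exact kab_aux hs S (ord_up S) R hb A W hA hAc hW hT T E fun u hu w hw => hTE u w hu hw

/-- the lower curves are alive in the whole window -/
theorem Sweep.kab_down (hs : Even s) (h2 : 2 ≤ s) (S : Sweep V s) (R : Finset V) {a b : ℕ}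
    (hb : b ≤ S.M) (A W : Finset V) (hA : A ⊆ R) (hAc : A.card = s + 1) (hW : W ⊆ R)
    (hT : ∀ w ∈ W, S.Tot a b w) (h : ∀ w ∈ W, ∀ u ∈ A, S.Ch R a b w u) :
    W.card ≤ (3 * (s + 1)) ^ ((s + 1) ^ 2) := by
  have h1 : ∀ u w, ∃ α β, u ∈ A → w ∈ W →
      IsCh S (fun t u v => S.Lt t v u) R a b u w α β := by
    intro u w
    by_cases hu : u ∈ A
    · by_cases hw : w ∈ W
      · obtain ⟨k1, α, β, k2, k3, k4, k5, k6, k7, k8, k9, k10, k11⟩ := h w hw u hu
        refine ⟨α, β, fun _ _ => ⟨k1.symm, k2, k3, k4, k6, ?_, ?_, ?_, fun t l1 l2 z hz l3 l4 =>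
          (k11 t l1 l2 z hz l4 l3).symm⟩⟩
        · rw [Sym2.eq_swap]; exact k7
        · rw [Sym2.eq_swap]; exact k8
        · rw [Sym2.eq_swap]; exact k9
      · exact ⟨0, 0, fun _ h => absurd h hw⟩
    · exact ⟨0, 0, fun h => absurd h hu⟩
  choose T E hTE using h1
  exact kab_aux hs S (ord_down S) R hb A W hA hAc hW hT T E fun u hu w hw => hTE u w hu hw

end LUB
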