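import Pool.Agent.LUB2.PcB

/-!
# Upper bounds for a level, even `s`: the backward part of the key lemma
-/

open scoped Classical

namespace LUB

variable {V : Type} [DecidableEq V] [Fintype V] {s : ℕ}

open KeyB in
theorem Sweep.key_be (hs : Even s) (_h4 : 4 ≤ s) (S : Sweep V s) {k G g : ℕ} (hg : 1 ≤ g)
    (hgG : g < G) {t : ℕ} {c : V} (hq : (t, c) ∈ S.NLe k G g)
    (hx : ∃ t', t' < t ∧ S.Sw t' s(S.x t, S.y t) ∧ S.Rn k G t' (t + 1) s(S.x t, S.y t) ∧
      ∀ u, t' ≤ u → u ≤ t → S.In k G u c) :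
    (∃ a, a ≤ t ∧ S.Rn k g a t s(S.ex k g t, c) ∧
      (a = 0 ∨ ¬ S.J k g (a - 1) s(S.ex k g t, c)) ∧ S.pc k G a s(S.ex k g t, c) + 1 < s ∧
      ¬ S.LBe k G g a s(S.ex k g t, c) ∧ ¬ S.LMse k G g a s(S.ex k g t, c)) ∨
    (∃ e, e < t ∧ (∀ u, e < u → u ≤ t → ¬ S.In k g u (S.en k g t)) ∧ S.In k g e c ∧
      S.In k g (e + 1) c ∧ S.In k g e (S.en k g t) ∧ S.pc k G e s(S.en k g t, c) = 0) := by
  simp only [Sweep.NLe, Finset.mem_filter, Sweep.Q, Finset.mem_product, Finset.mem_range,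
    Finset.mem_univ, and_true] at hq
  obtain ⟨⟨htM, hBd, hc0, hc1⟩, ⟨hfe, τ1, l1, l2, l3, l4⟩, ⟨hfx, τ0, r1, r2, r3, r4⟩⟩ := hq
  obtain ⟨b1, b2, b3, b4, b5, b6⟩ := S.bd hg htM hBd
  obtain ⟨t0, ht0, hsw0, hRn0, hct0⟩ := hx
  rw [← b6] at hsw0 hRn0
  generalize hen : S.en k g t = en at *
  generalize hex : S.ex k g t = ex at *
  have ht0M : t0 < S.M := hsw0.1
  have hgG' : g ≤ G := hgG.le
  -- the curves are different
  have hJ1 : S.J k g (t + 1) s(en, c) := l2 (t + 1) le_rfl (by omega)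
  have hJ0 : S.J k g t s(ex, c) := r2 t r1.le le_rfl
  have hcen : en ≠ c := fun h => hJ1.1 (by rw [h]; exact Sym2.diag_isDiag c)
  have hcex : ex ≠ c := fun h => hJ0.1 (by rw [h]; exact Sym2.diag_isDiag c)
  -- the first moment of the run of {ex, c}
  obtain ⟨a, ha1, ha2, ha3⟩ := runFirst S t hJ0
  have haτ : a ≤ τ0 := by
    by_contra hn
    push Not at hn
    rcases ha3 with h | h
    · omega
    · exact h (r2 (a - 1) (by omega) (by omega))
  by_cases hLB : S.LBe k G g a s(ex, c)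
  · right
    obtain ⟨-, τ, q1, q2, q3, q4⟩ := hLB
    -- the runs in the outer band
    have hout : ∀ v ∈ s(ex, en), ∀ u, t0 ≤ u → u ≤ t + 1 → S.In k G u v :=
      fun v hv u h1 h2 => (hRn0 u h1 h2).2 v hv
    have hct1 : ∀ u, t0 ≤ u → u ≤ t + 1 → S.In k G u c := by
      intro u h1 h2
      rcases Nat.eq_or_lt_of_le h2 with h3 | h3
      · rw [h3]
        exact hc1.mono hgG'
      · exact hct0 u h1 (by omega)
    have hRxc : S.Rn k G t0 t s(ex, c) := S.rn_mk hcex
      (fun u h1 h2 => hout ex (Sym2.mem_mk_left _ _) u h1 (by omega)) hct0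
    have hRec : S.Rn k G t0 (t + 1) s(en, c) := S.rn_mk hcen
      (fun u h1 h2 => hout en (Sym2.mem_mk_right _ _) u h1 (by omega)) hct1
    have hτt : τ + 1 ≤ t := by
      by_contra hn
      push Not at hn
      exact b2 ((q2 (t + 1) (by omega) (by omega)).2 ex (Sym2.mem_mk_left _ _))
    -- the counts
    have hcen_0 : ∀ T, t0 ≤ T → T ≤ t + 1 → S.pc k G T s(en, c) = 0 := by
      intro T hT0 hT
      have h1 := S.pc_mono hT (hRec.sub hT0 le_rfl)
      have h2 := S.pc_mono l1 ((l2.sub le_rfl (by omega)).mono hgG')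
      omega
    have hcex_s : S.pc k G t s(ex, c) + 1 = s := by
      have h1 := S.pc_le hfx htM.le
      have h2 := S.pc_sw r3 r1 (r2.mono hgG')
      omega
    -- τ < t0
    have hlt : τ < t0 := by
      by_contra hn
      push Not at hn
      have hne : t0 ≠ τ := by
        rintro rfl
        have e1 : s(ex, en) = s(ex, c) := hsw0.2.2.symm.trans q3.2.2
        rw [Sym2.eq_iff] at e1
        rcases e1 with ⟨-, e1⟩ | ⟨e1, -⟩
        · exact hcen e1
        · exact hcex e1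
      have hτt0 : t0 + 1 ≤ τ := by omega
      have hcex_0 : S.pc k G (t0 + 1) s(ex, c) = 0 := by
        have := S.pc_mono hτt0 (hRxc.sub (by omega) (by omega))
        omega
      have hgap : S.gap t ≠ 0 := hBd.1
      have hswt : S.Sw t s(ex, en) := ⟨htM, hgap, b6.symm⟩
      have hcL0 : c ∈ S.L t := hc0.1
      have hcLt0 : c ∈ S.L t0 := (hct0 t0 le_rfl ht0.le).1
      have f1 := S.lt_iff_pc (show t0 + 1 ≤ t by omega) htM.le (Ne.symm hcex)
        (Sym2.eq_swap (a := c) (b := ex) ▸ hRxc.sub (by omega) le_rfl)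
      have f2 := S.lt_iff_pc (show t0 + 1 ≤ t by omega) htM.le (Ne.symm hcen)
        (Sym2.eq_swap (a := c) (b := en) ▸ hRec.sub (by omega) (by omega))
      rw [Sym2.eq_swap] at f1 f2
      have g3 := hcen_0 (t0 + 1) (by omega) (by omega)
      have g4 := hcen_0 t (by omega) (by omega)
      rw [Nat.even_iff] at f1 f2 hs
      have f1' : ¬ (S.Lt t c ex ↔ S.Lt (t0 + 1) c ex) := fun h => by
        have := f1.1 h
        omega
      have f2' : S.Lt t c en ↔ S.Lt (t0 + 1) c en := f2.2 (by omega)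
      have g1 := S.adj hswt hcL0 (Ne.symm hcex) (Ne.symm hcen)
      have g2 := S.adj hsw0 hcLt0 (Ne.symm hcex) (Ne.symm hcen)
      exact f1' (g1.1.trans (f2'.trans g2.2.1.symm))
    -- en is in the band at t0 and t0 + 1
    have hin0 : S.In k g t0 ex := (ha2 t0 (by omega) (by omega)).2 ex (Sym2.mem_mk_left _ _)
    have hin0' : S.In k g (t0 + 1) ex :=
      (ha2 (t0 + 1) (by omega) (by omega)).2 ex (Sym2.mem_mk_left _ _)
    have henin := (S.sw_in hg hsw0 hin0 hin0').2.1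
    obtain ⟨e, e1, e2, e3, e4⟩ := lastTrue (fun u => S.In k g u en) t
      (show t0 + 1 ≤ t by omega) henin b3
    have hcin : ∀ u, a ≤ u → u ≤ t → S.In k g u c := fun u h1 h2 =>
      (ha2 u h1 h2).2 c (Sym2.mem_mk_right _ _)
    exact ⟨e, e2, e4, hcin _ (by omega) (by omega), hcin _ (by omega) (by omega), e3,
      hcen_0 _ (by omega) (by omega)⟩
  · left
    refine ⟨a, ha1, ha2, ha3, ?_, hLB, ?_⟩
    · have := S.pc_mono haτ ((ha2.sub le_rfl (by omega)).mono hgG')
      omega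
    · rintro ⟨-, τ, q1, q2, q3, q4, q5, q6⟩
      have hp : s(S.x τ, S.y τ) = s(ex, c) := q3.2.2
      have e := q6 τ0 (by rw [hp]; exact r3) (by
        rw [hp]
        intro u h1 h2
        by_cases h4 : u ≤ τ + 1
        · exact q2 u (by omega) h4
        · exact ha2 u (by omega) (by omega))
      rw [← e] at q5
      omega

end LUB
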