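import Pool.Agent.LUB2.KeyFE
import Pool.Agent.LUB2.KeyBE

/-!
# Upper bounds for a level, even `s`: the charging
-/

open scoped Classical

namespace LUB

variable {V : Type} [DecidableEq V] [Fintype V] {s : ℕ}

theorem Sweep.not_LBe_of_LMse (S : Sweep V s) {k G g a : ℕ} {p : Sym2 V}
    (h : S.LMse k G g a p) : ¬ S.LBe k G g a p := by
  rintro ⟨-, τ', h1', h2', h3', h4'⟩
  obtain ⟨-, τ, h1, h2, h3, h4, h5, h6⟩ := h
  have hp : s(S.x τ, S.y τ) = p := h3.2.2
  have : τ' = τ := by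
    apply h6 τ'
    · rw [hp]
      exact h3'
    · rw [hp]
      intro u hu1 hu2
      by_cases h : u ≤ τ + 1
      · exact h2 u (by omega) h
      · exact h2' u (by omega) (by omega)
  subst this
  omega

theorem Sweep.not_RBe_of_LMee (S : Sweep V s) {k G g b : ℕ} {p : Sym2 V}
    (h : S.LMee k G g b p) : ¬ S.RBe k G g b p := by
  rintro ⟨-, τ', h1', h2', h3', h4'⟩
  obtain ⟨-, τ, h1, h2, h3, h4, h5, h6⟩ := h
  have hp : s(S.x τ, S.y τ) = p := h3.2.2
  have : τ' = τ := by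
    apply h6 τ'
    · rw [hp]
      exact h3'
    · rw [hp]
      intro u hu1 hu2
      by_cases h : τ ≤ u
      · exact h2 u h (by omega)
      · exact h2' u (by omega) (by omega)
  subst this
  omega

open Ch

theorem Sweep.charge_e (hs : Even s) (h4 : 4 ≤ s) (S : Sweep V s) (k G g : ℕ) (hg : 1 ≤ g)
    (hgG : g < G) :
    (S.NLe k G g).card + ((S.comps k g).filter fun q => S.LMse k G g q.1 q.2).card +
      ((S.compsE k g).filter fun q => S.LMee k G g q.1 q.2).card ≤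
      (S.QXe k G g).card + ((S.comps k g).filter fun q => ¬ S.LBe k G g q.1 q.2).card +
      ((S.compsE k g).filter fun q => ¬ S.RBe k G g q.1 q.2).card := by
  classical
  set DF1 := (S.compsE k g).filter fun q => ¬ S.RBe k G g q.1 q.2 ∧ ¬ S.LMee k G g q.1 q.2 ∧
    0 < S.pc k G q.1 q.2 with hDF1
  set DB2 := (S.compsE k g).filter fun q => ¬ S.RBe k G g q.1 q.2 ∧ ¬ S.LMee k G g q.1 q.2 ∧
    S.pc k G q.1 q.2 = 0 with hDB2
  set DF2 := (S.comps k g).filter fun q => ¬ S.LBe k G g q.1 q.2 ∧ ¬ S.LMse k G g q.1 q.2 ∧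
    S.pc k G q.1 q.2 + 1 = s with hDF2
  set DB1 := (S.comps k g).filter fun q => ¬ S.LBe k G g q.1 q.2 ∧ ¬ S.LMse k G g q.1 q.2 ∧
    S.pc k G q.1 q.2 + 1 < s with hDB1
  have hE : ((S.compsE k g).filter fun q => S.LMee k G g q.1 q.2).card + DF1.card + DB2.card ≤
      ((S.compsE k g).filter fun q => ¬ S.RBe k G g q.1 q.2).card := by
    apply three_card (S.compsE k g) (fun q => S.LMee k G g q.1 q.2)
      (fun q => ¬ S.RBe k G g q.1 q.2 ∧ ¬ S.LMee k G g q.1 q.2 ∧ 0 < S.pc k G q.1 q.2)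
      (fun q => ¬ S.RBe k G g q.1 q.2 ∧ ¬ S.LMee k G g q.1 q.2 ∧ S.pc k G q.1 q.2 = 0)
      (fun q => ¬ S.RBe k G g q.1 q.2)
    · exact fun q h => S.not_RBe_of_LMee h
    · exact fun q h => h.1
    · exact fun q h => h.1
    · exact fun q h h' => h'.2.1 h
    · exact fun q h h' => h'.2.1 h
    · rintro q h h'
      have h1 := h.2.2
      have h2 := h'.2.2
      omega
  have hS : ((S.comps k g).filter fun q => S.LMse k G g q.1 q.2).card + DF2.card + DB1.card ≤
      ((S.comps k g).filter fun q => ¬ S.LBe k G g q.1 q.2).card := by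
    apply three_card (S.comps k g) (fun q => S.LMse k G g q.1 q.2)
      (fun q => ¬ S.LBe k G g q.1 q.2 ∧ ¬ S.LMse k G g q.1 q.2 ∧ S.pc k G q.1 q.2 + 1 = s)
      (fun q => ¬ S.LBe k G g q.1 q.2 ∧ ¬ S.LMse k G g q.1 q.2 ∧ S.pc k G q.1 q.2 + 1 < s)
      (fun q => ¬ S.LBe k G g q.1 q.2)
    · exact fun q h => S.not_LBe_of_LMse h
    · exact fun q h => h.1
    · exact fun q h => h.1
    · exact fun q h h' => h'.2.1 h
    · exact fun q h h' => h'.2.1 h
    · rintro q h h'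
      have h1 := h.2.2
      have h2 := h'.2.2
      omega
  -- the four classes
  set F1 := (S.NLe k G g).filter fun q => ∃ b, q.1 + 1 ≤ b ∧ b ≤ S.M ∧
      S.Rn k g (q.1 + 1) b s(S.en k g q.1, q.2) ∧
      (b = S.M ∨ ¬ S.J k g (b + 1) s(S.en k g q.1, q.2)) ∧
      0 < S.pc k G b s(S.en k g q.1, q.2) ∧
      ¬ S.RBe k G g b s(S.en k g q.1, q.2) ∧ ¬ S.LMee k G g b s(S.en k g q.1, q.2) with hF1
  set F2 := (S.NLe k G g).filter fun q => ∃ e, q.1 < e ∧ e < S.M ∧
      (∀ u, q.1 < u → u ≤ e → ¬ S.In k g u (S.ex k g q.1)) ∧ S.In k g e q.2 ∧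
      S.In k g (e + 1) q.2 ∧ S.In k g (e + 1) (S.ex k g q.1) ∧
      S.pc k G (e + 1) s(S.ex k g q.1, q.2) + 1 = s with hF2
  set B1 := (S.NLe k G g).filter fun q => ∃ a, a ≤ q.1 ∧ S.Rn k g a q.1 s(S.ex k g q.1, q.2) ∧
      (a = 0 ∨ ¬ S.J k g (a - 1) s(S.ex k g q.1, q.2)) ∧
      S.pc k G a s(S.ex k g q.1, q.2) + 1 < s ∧
      ¬ S.LBe k G g a s(S.ex k g q.1, q.2) ∧ ¬ S.LMse k G g a s(S.ex k g q.1, q.2) with hB1
  set B2 := (S.NLe k G g).filter fun q => ∃ e, e < q.1 ∧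
      (∀ u, e < u → u ≤ q.1 → ¬ S.In k g u (S.en k g q.1)) ∧ S.In k g e q.2 ∧
      S.In k g (e + 1) q.2 ∧ S.In k g e (S.en k g q.1) ∧
      S.pc k G e s(S.en k g q.1, q.2) = 0 with hB2
  have hNLQ : S.NLe k G g ⊆ S.Q k g := by
    unfold Sweep.NLe
    exact Finset.filter_subset _ _
  have hcov : S.NLe k G g ⊆ S.QXe k G g ∪ ((F1 ∪ F2) ∪ (B1 ∪ B2)) := by
    rintro ⟨t, c⟩ hq
    by_cases hX : S.Exe k G t c
    · apply Finset.mem_union_left
      unfold Sweep.QXe
      rw [Finset.mem_filter]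
      exact ⟨hNLQ hq, hX⟩
    · apply Finset.mem_union_right
      unfold Sweep.Exe at hX
      push Not at hX
      obtain ⟨t', ht', hRn, hc, hne⟩ := hX
      rcases lt_or_gt_of_ne hne with hlt | hlt
      · apply Finset.mem_union_right
        rw [min_eq_right hlt.le, max_eq_left hlt.le] at hRn hc
        rcases S.key_be hs h4 hg hgG hq ⟨t', hlt, ht', hRn, hc⟩ with h | h
        · apply Finset.mem_union_left
          rw [hB1, Finset.mem_filter]
          exact ⟨hq, h⟩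
        · apply Finset.mem_union_right
          rw [hB2, Finset.mem_filter]
          exact ⟨hq, h⟩
      · apply Finset.mem_union_left
        rw [min_eq_left (le_of_lt hlt), max_eq_right (le_of_lt hlt)] at hRn hc
        rcases S.key_fe hs h4 hg hgG hq ⟨t', hlt, ht', hRn, hc⟩ with h | h
        · apply Finset.mem_union_left
          rw [hF1, Finset.mem_filter]
          exact ⟨hq, h⟩
        · apply Finset.mem_union_right
          rw [hF2, Finset.mem_filter]
          exact ⟨hq, h⟩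
  have c0 : (S.NLe k G g).card ≤ (S.QXe k G g).card + ((F1.card + F2.card) +
      (B1.card + B2.card)) := by
    refine (Finset.card_le_card hcov).trans ((Finset.card_union_le _ _).trans ?_)
    refine Nat.add_le_add_left ((Finset.card_union_le _ _).trans ?_) _
    exact Nat.add_le_add (Finset.card_union_le _ _) (Finset.card_union_le _ _)
  have c1 : F1.card ≤ DF1.card := by
    apply F1_card S hg F1 DF1 ((Finset.filter_subset _ _).trans hNLQ)
    rintro ⟨t, c⟩ hq
    rw [hF1, Finset.mem_filter] at hq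
    obtain ⟨hq, b, h1, h2, h3, h4, h5, h6, h7⟩ := hq
    refine ⟨b, h1, h3, ?_⟩
    rw [hDF1, Finset.mem_filter]
    exact ⟨mem_compsE S h2 (h3 b h1 le_rfl) h4, h6, h7, h5⟩
  have c2 : F2.card ≤ DF2.card := by
    apply F2_card S hg F2 DF2 ((Finset.filter_subset _ _).trans hNLQ)
    rintro ⟨t, c⟩ hq
    rw [hF2, Finset.mem_filter] at hq
    obtain ⟨hq, e, h1, h2, h3', h4, h5, h6, h7⟩ := hq
    simp only at h1 h3' h4 h5 h6 h7
    refine ⟨e, h1, h3', h4, ?_⟩
    rw [hDF2, Finset.mem_filter]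
    have hne : S.ex k g t ≠ c := fun h => h3' e h1 le_rfl (h ▸ h4)
    have hJ : S.J k g (e + 1) s(S.ex k g t, c) := (J_mk S).2 ⟨hne, h6, h5⟩
    refine ⟨mem_comps S (by omega) hJ (Or.inr ?_), ?_, ?_, h7⟩
    · rw [Nat.add_sub_cancel]
      exact fun h => h3' e h1 le_rfl ((J_mk S).1 h).2.1
    · rintro ⟨-, τ, g1, g2, -, g4⟩
      have := S.pc_mono g1 ((g2.sub le_rfl (by omega)).mono hgG.le)
      simp only at g4 this
      omega
    · rintro ⟨-, τ, g1, g2, -, -, g5, -⟩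
      have := S.pc_mono g1 ((g2.sub le_rfl (by omega)).mono hgG.le)
      simp only at g5 this
      omega
  have c3 : B1.card ≤ DB1.card := by
    apply B1_card S hg B1 DB1 ((Finset.filter_subset _ _).trans hNLQ)
    rintro ⟨t, c⟩ hq
    rw [hB1, Finset.mem_filter] at hq
    obtain ⟨hq, a, h1, h2, h3', h4, h5, h6⟩ := hq
    refine ⟨a, h1, h2, ?_⟩
    rw [hDB1, Finset.mem_filter]
    have hM := (mem_Q S (hNLQ hq)).1
    simp only at h1
    exact ⟨mem_comps S (by omega) (h2 a le_rfl h1) h3', h5, h6, h4⟩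
  have c4 : B2.card ≤ DB2.card := by
    apply B2_card S hg B2 DB2 ((Finset.filter_subset _ _).trans hNLQ)
    rintro ⟨t, c⟩ hq
    rw [hB2, Finset.mem_filter] at hq
    obtain ⟨hq, e, h1, h3', h4, h5, h6, h7⟩ := hq
    simp only at h1 h3' h4 h5 h6 h7
    refine ⟨e, h1, h3', h5, ?_⟩
    rw [hDB2, Finset.mem_filter]
    have hM := (mem_Q S (hNLQ hq)).1
    have hne : S.en k g t ≠ c := fun h => h3' (e + 1) (by omega) (by omega) (h ▸ h5)
    refine ⟨mem_compsE S (by omega) ((J_mk S).2 ⟨hne, h6, h4⟩) (Or.inr ?_), ?_, ?_, h7⟩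
    · exact fun h => h3' (e + 1) (by omega) (by omega) ((J_mk S).1 h).2.1
    · rintro ⟨-, τ, g1, g2, -, g4⟩
      have := S.pc_mono g1.le (g2.mono hgG.le)
      simp only at g4 this
      omega
    · rintro ⟨-, τ, g1, g2, -, g4, -, -⟩
      have := S.pc_mono g1.le (g2.mono hgG.le)
      simp only at g4 this
      omega
  omega

end LUB
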