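import Pool.Agent.LUB2.PcB

/-!
# Even `s`: the exchanges at the boundaries of the inner bands
-/

open scoped Classical

namespace LUB

variable {V : Type} [DecidableEq V] [Fintype V] {s : ℕ}

/-- the jumps and the exchanges at the boundary of the outer band -/
noncomputable def Sweep.Jm (S : Sweep V s) (k G : ℕ) : Finset ℕ :=
  (Finset.range S.M).filter fun u => S.gap u = 0 ∨ S.Bd k G u

theorem Sweep.Jm_card (S : Sweep V s) (k G : ℕ) (hG : 1 ≤ G) :
    (S.Jm k G).card + S.N k G ≤ 2 * Fintype.card V + S.N k (G + 1) := by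
  set B := (Finset.range S.M).filter fun t => S.Bd k G t with hB
  have hN : B.card + S.N k G ≤ S.N k (G + 1) := by
    unfold Sweep.N
    rw [← Finset.card_union_of_disjoint]
    · apply Finset.card_le_card
      intro t ht
      rw [Finset.mem_union, hB, Finset.mem_filter, Finset.mem_filter] at ht
      rw [Finset.mem_filter]
      rcases ht with ⟨h1, h2, h3⟩ | ⟨h1, h2, h3, h4⟩
      · refine ⟨h1, h2, ?_, ?_⟩ <;> omega
      · refine ⟨h1, h2, ?_, ?_⟩ <;> omega
    · rw [Finset.disjoint_left]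
      intro t ht ht'
      rw [hB, Finset.mem_filter] at ht
      rw [Finset.mem_filter] at ht'
      obtain ⟨-, h2, h3⟩ := ht
      obtain ⟨-, -, h4, h5⟩ := ht'
      omega
  have h1 : (S.Jm k G).card ≤ ((Finset.range S.M).filter fun t => S.gap t = 0).card + B.card := by
    refine (Finset.card_le_card ?_).trans (Finset.card_union_le _ _)
    intro t ht
    unfold Sweep.Jm at ht
    rw [Finset.mem_filter] at ht
    rw [Finset.mem_union, hB, Finset.mem_filter, Finset.mem_filter]
    rcases ht.2 with h | h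
    · exact Or.inl ⟨ht.1, h⟩
    · exact Or.inr ⟨ht.1, h⟩
  have h2 := S.jumps
  omega

theorem Sweep.exit_one (S : Sweep V s) {k G v : ℕ} (hG : 1 ≤ G) (hv : v < S.M) {c : V}
    (h1 : S.In k G v c) (h2 : ¬ S.In k G (v + 1) c) :
    v ∈ S.Jm k G ∧ ∀ c', S.In k G v c' → ¬ S.In k G (v + 1) c' → c = c' := by
  unfold Sweep.Jm
  rw [Finset.mem_filter, Finset.mem_range]
  by_cases h0 : S.gap v = 0
  · exact ⟨⟨hv, Or.inl h0⟩, fun c' h1' h2' => (S.in_jump hv h0).2 c c' h1 h2 h1' h2'⟩
  · have hb : S.Bd k G v := by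
      by_contra hb
      exact h2 ((S.in_swap hv h0 hb c).2 h1)
    have key : ∀ c, S.In k G v c → ¬ S.In k G (v + 1) c → c = S.ex k G v := by
      intro c h1 h2
      by_contra hne
      by_cases he : c = S.en k G v
      · exact (S.bd hG hv hb).2.2.1 (he ▸ h1)
      · exact h2 ((S.in_bd hv hb c hne he).2 h1)
    exact ⟨⟨hv, Or.inr hb⟩, fun c' h1' h2' => (key c h1 h2).trans (key c' h1' h2').symm⟩

theorem Sweep.entry_one (S : Sweep V s) {k G v : ℕ} (hG : 1 ≤ G) (hv : v < S.M) {c : V}
    (h1 : ¬ S.In k G v c) (h2 : S.In k G (v + 1) c) :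
    v ∈ S.Jm k G ∧ ∀ c', ¬ S.In k G v c' → S.In k G (v + 1) c' → c = c' := by
  unfold Sweep.Jm
  rw [Finset.mem_filter, Finset.mem_range]
  by_cases h0 : S.gap v = 0
  · exact ⟨⟨hv, Or.inl h0⟩, fun c' h1' h2' => (S.in_jump hv h0).1 c c' h2 h1 h2' h1'⟩
  · have hb : S.Bd k G v := by
      by_contra hb
      exact h1 ((S.in_swap hv h0 hb c).1 h2)
    have key : ∀ c, ¬ S.In k G v c → S.In k G (v + 1) c → c = S.en k G v := by
      intro c h1 h2
      by_contra hne
      by_cases he : c = S.ex k G v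
      · exact (S.bd hG hv hb).2.1 (he ▸ h2)
      · exact h1 ((S.in_bd hv hb c he hne).1 h2)
    exact ⟨⟨hv, Or.inr hb⟩, fun c' h1' h2' => (key c h1 h2).trans (key c' h1' h2').symm⟩

namespace Xe

open Xa

/-- the moments of `Jm` with the pair of step `t` in the band -/
noncomputable def K (S : Sweep V s) (k G h t : ℕ) : Finset ℕ :=
  (S.Jm k G).filter fun u => S.J k h u s(S.x t, S.y t)

theorem xi_le (S : Sweep V s) {k G h t t' : ℕ} (hG : 1 ≤ G) (C : Finset V) (p : Sym2 V)
    (ht : t < S.M) (ht' : t' < S.M) (hR : S.Rn k h (min t t') (max t t' + 1) p)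
    (hC1 : ∀ c ∈ C, S.In k G t c)
    (hC2 : ∀ c ∈ C, ∃ u, min t t' ≤ u ∧ u ≤ max t t' ∧ ¬ S.In k G u c) :
    C.card ≤ ((S.Jm k G).filter fun u => S.J k h u p).card := by
  rcases le_total t t' with h | h
  · rw [min_eq_left h, max_eq_right h] at hR hC2
    have hex : ∀ c ∈ C, ∃ u, t ≤ u ∧ u < t' ∧ S.In k G u c ∧ ¬ S.In k G (u + 1) c := by
      intro c hc
      obtain ⟨u, h1, h2, h3⟩ := hC2 c hc
      obtain ⟨v, g1, g2, g3, g4⟩ := change (P := fun u => S.In k G u c) h1 (hC1 c hc) h3
      exact ⟨v, g1, by omega, g3, g4⟩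
    choose! f hf using hex
    apply Finset.card_le_card_of_injOn f
    · intro c hc
      obtain ⟨h1, h2, h3, h4⟩ := hf c hc
      simp only [Finset.coe_filter, Set.mem_ofPred_eq]
      exact ⟨(S.exit_one hG (by omega) h3 h4).1, hR _ h1 (by omega)⟩
    · intro c hc c' hc' hcc
      obtain ⟨h1, h2, h3, h4⟩ := hf c hc
      obtain ⟨h1', h2', h3', h4'⟩ := hf c' hc'
      rw [← hcc] at h3' h4'
      exact (S.exit_one hG (by omega) h3 h4).2 c' h3' h4'
  · rw [min_eq_right h, max_eq_left h] at hR hC2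
    have hex : ∀ c ∈ C, ∃ u, t' ≤ u ∧ u < t ∧ ¬ S.In k G u c ∧ S.In k G (u + 1) c := by
      intro c hc
      obtain ⟨u, h1, h2, h3⟩ := hC2 c hc
      obtain ⟨v, g1, g2, g3, g4⟩ := change (P := fun u => ¬ S.In k G u c) h2 h3
        (not_not.2 (hC1 c hc))
      exact ⟨v, by omega, g2, g3, not_not.1 g4⟩
    choose! f hf using hex
    apply Finset.card_le_card_of_injOn f
    · intro c hc
      obtain ⟨h1, h2, h3, h4⟩ := hf c hc
      simp only [Finset.coe_filter, Set.mem_ofPred_eq]
      exact ⟨(S.entry_one hG (by omega) h3 h4).1, hR _ h1 (by omega)⟩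
    · intro c hc c' hc' hcc
      obtain ⟨h1, h2, h3, h4⟩ := hf c hc
      obtain ⟨h1', h2', h3', h4'⟩ := hf c' hc'
      rw [← hcc] at h3' h4'
      exact (S.entry_one hG (by omega) h3 h4).2 c' h3' h4'

theorem sum_K (S : Sweep V s) (k G h : ℕ) :
    ∑ t ∈ (Finset.range S.M).filter (fun t => S.gap t ≠ 0), (K S k G h t).card ≤
      (S.Jm k G).card * (2 * h ^ 2 * s) := by
  have h1 : ∑ t ∈ (Finset.range S.M).filter (fun t => S.gap t ≠ 0), (K S k G h t).card =
      ∑ u ∈ S.Jm k G,
        (((Finset.range S.M).filter (fun t => S.gap t ≠ 0)).filter fun t =>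
          S.J k h u s(S.x t, S.y t)).card := by
    have e1 : ∀ t, (K S k G h t).card =
        ∑ u ∈ S.Jm k G, if S.J k h u s(S.x t, S.y t) then 1 else 0 := by
      intro t
      rw [← Finset.card_filter]
      rfl
    simp only [e1]
    rw [Finset.sum_comm]
    refine Finset.sum_congr rfl fun u _ => ?_
    rw [← Finset.card_filter]
  rw [h1]
  have h2 : ∀ u, (((Finset.range S.M).filter (fun t => S.gap t ≠ 0)).filter fun t =>
      S.J k h u s(S.x t, S.y t)).card ≤ 2 * h ^ 2 * s := by
    intro u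
    have e2 := Finset.card_le_mul_card_image_of_maps_to
      (f := fun t => s(S.x t, S.y t))
      (s := ((Finset.range S.M).filter (fun t => S.gap t ≠ 0)).filter fun t =>
        S.J k h u s(S.x t, S.y t))
      (t := (Finset.univ : Finset (Sym2 V)).filter fun p => S.J k h u p)
      (fun t ht => by
        simp only [Finset.mem_filter, Finset.mem_univ, true_and] at ht ⊢
        exact ht.2) s
      (fun p hp => by
        simp only [Finset.mem_filter, Finset.mem_univ, true_and] at hp
        induction p using Sym2.ind with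
        | _ a b =>
          have hab : a ≠ b := by
            intro hcon
            exact hp.1 (Sym2.mk_isDiag_iff.2 hcon)
          refine le_trans (Finset.card_le_card ?_) (S.budget a b hab)
          intro t ht
          simp only [Finset.mem_filter, Finset.mem_range] at ht ⊢
          exact ⟨ht.1.1.1, ht.1.1.2, ht.2⟩)
    have e3 := Xa.pairs_card S k h u
    calc _ ≤ s * _ := e2
      _ ≤ s * (2 * h ^ 2) := Nat.mul_le_mul_left _ e3
      _ = _ := by ring
  calc _ ≤ ∑ u ∈ S.Jm k G, 2 * h ^ 2 * s := Finset.sum_le_sum fun u _ => h2 u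
    _ = (S.Jm k G).card * (2 * h ^ 2 * s) := by
        rw [Finset.sum_const, smul_eq_mul]

/-- one boundary exchange -/
theorem term_le (S : Sweep V s) {k G h g t : ℕ} (hhG : h ≤ G) (hg1 : 1 ≤ g) (hgh : g < h)
    (hg8 : h ≤ 8 * g) (ht : t < S.M) (hb : S.Bd k g t) :
    (((S.QXe k G g).filter fun q => q.1 = t).card : ℝ) / (2 * g) ≤
      (if t ∈ S.A k h then 1 else 0) + 4 / h * ((K S k G h t).card : ℝ) := by
  set F := (S.QXe k G g).filter fun q => q.1 = t with hF
  set C := F.image Prod.snd with hC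
  have hcard : C.card = F.card := by
    apply Finset.card_image_of_injOn
    rintro ⟨a, b⟩ ha ⟨a', b'⟩ ha' hab
    simp only [hF, Finset.coe_filter, Set.mem_ofPred_eq] at ha ha'
    simp only at hab
    rw [Prod.mk.injEq]
    exact ⟨ha.2.trans ha'.2.symm, hab⟩
  have hCp : ∀ c ∈ C, S.In k g t c ∧ S.Exe k G t c := by
    intro c hc
    rw [hC, Finset.mem_image] at hc
    obtain ⟨⟨a, b⟩, hq, rfl⟩ := hc
    simp only [hF, Finset.mem_filter, Sweep.QXe, Sweep.Q] at hq
    obtain ⟨⟨⟨-, h1⟩, h2⟩, h3⟩ := hq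
    subst h3
    exact ⟨h1.2.1, h2⟩
  have hg0 : (0 : ℝ) < 2 * g := by
    have : (0 : ℝ) < g := by exact_mod_cast hg1
    linarith
  have hh0 : (0 : ℝ) < h := by
    have : 0 < h := by omega
    exact_mod_cast this
  have hK0 : 0 ≤ 4 / (h : ℝ) * ((K S k G h t).card : ℝ) := by positivity
  rw [← hcard]
  have hgap : k < S.gap t + h ∧ S.gap t < k + h := by
    rcases hb.2 with h1 | h1
    · omega
    · omega
  by_cases hL : S.Ln k h t
  · have hA : t ∈ S.A k h := by
      simp only [Sweep.A, Finset.mem_filter, Finset.mem_range]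
      exact ⟨ht, hb.1, hgap.1, hgap.2, hL⟩
    have h1 : C.card ≤ 2 * g := by
      refine le_trans (Finset.card_le_card ?_) (S.in_card k g t)
      intro c hc
      simp only [Finset.mem_filter, Finset.mem_univ, true_and]
      exact (hCp c hc).1
    have h2 : (C.card : ℝ) ≤ 2 * g := by exact_mod_cast h1
    rw [if_pos hA]
    have h3 : (C.card : ℝ) / (2 * g) ≤ 1 := (div_le_one hg0).2 h2
    linarith
  · have h0 : (0 : ℝ) ≤ (if t ∈ S.A k h then 1 else 0) := by split_ifs <;> norm_num
    unfold Sweep.Ln at hL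
    push Not at hL
    obtain ⟨t', hS, hR, hne⟩ := hL
    have h1 : C.card ≤ (K S k G h t).card := by
      apply xi_le S (by omega) C s(S.x t, S.y t) ht hS.1 hR
      · intro c hc
        exact (hCp c hc).1.mono (by omega)
      · intro c hc
        by_contra hcon
        push Not at hcon
        exact hne ((hCp c hc).2 t' hS (hR.mono hhG) hcon)
    have h2 : (C.card : ℝ) ≤ (K S k G h t).card := by exact_mod_cast h1
    have h3 : 1 / (2 * (g : ℝ)) ≤ 4 / h := by
      rw [div_le_div_iff₀ hg0 hh0]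
      have : (h : ℝ) ≤ 8 * g := by exact_mod_cast hg8
      linarith
    calc (C.card : ℝ) / (2 * g) = 1 / (2 * g) * C.card := by ring
      _ ≤ 4 / h * (K S k G h t).card := mul_le_mul h3 h2 (by positivity) (by positivity)
      _ ≤ _ := by linarith

theorem col_le (S : Sweep V s) {k G h t : ℕ} (hhG : h ≤ G) (ht : t < S.M) :
    ∑ g ∈ (Finset.Ico 1 h).filter (fun g => h ≤ 8 * g),
      (((S.QXe k G g).filter fun q => q.1 = t).card : ℝ) / (2 * g) ≤
      (if t ∈ S.A k h then 1 else 0) +
        if S.gap t ≠ 0 then 4 / h * ((K S k G h t).card : ℝ) else 0 := by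
  have h0 : (0 : ℝ) ≤ (if t ∈ S.A k h then 1 else 0) := by split_ifs <;> norm_num
  have hz : ∀ g, ¬ S.Bd k g t →
      (((S.QXe k G g).filter fun q => q.1 = t).card : ℝ) / (2 * g) = 0 := by
    intro g hb
    have : (S.QXe k G g).filter (fun q => q.1 = t) = ∅ := by
      apply Finset.filter_eq_empty_iff.2
      rintro ⟨a, b⟩ hq hqt
      simp only [Sweep.QXe, Sweep.Q, Finset.mem_filter] at hq
      simp only at hqt
      subst hqt
      exact hb hq.1.2.1
    rw [this]
    simp
  by_cases hex : ∃ g ∈ (Finset.Ico 1 h).filter (fun g => h ≤ 8 * g), S.Bd k g t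
  · obtain ⟨g, hg, hb⟩ := hex
    rw [Finset.sum_eq_single_of_mem g hg]
    · rw [if_pos hb.1]
      simp only [Finset.mem_filter, Finset.mem_Ico] at hg
      exact term_le S hhG hg.1.1 hg.1.2 hg.2 ht hb
    · intro g' hg' hne
      apply hz
      intro hb'
      simp only [Finset.mem_filter, Finset.mem_Ico] at hg hg'
      have h1 := hb.2
      have h2 := hb'.2
      omega
  · push Not at hex
    rw [Finset.sum_eq_zero fun g hg => hz g (hex g hg)]
    have : (0 : ℝ) ≤ if S.gap t ≠ 0 then 4 / h * ((K S k G h t).card : ℝ) else 0 := by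
      split_ifs <;> positivity
    linarith

end Xe

open Xe in
theorem Sweep.xacc_e (S : Sweep V s) (k G h : ℕ) (hh : 1 ≤ h) (hhG : h ≤ G) :
    ∑ g ∈ (Finset.Ico 1 h).filter (fun g => h ≤ 8 * g), ((S.QXe k G g).card : ℝ) / (2 * g) ≤
      (S.A k h).card + 16 * s * Fintype.card V * h +
        8 * s * h * ((S.N k (G + 1) : ℝ) - S.N k G) := by
  have h1 : ∀ g, ((S.QXe k G g).card : ℝ) / (2 * g) =
      ∑ t ∈ Finset.range S.M, (((S.QXe k G g).filter fun q => q.1 = t).card : ℝ) / (2 * g) := by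
    intro g
    rw [Finset.card_eq_sum_card_fiberwise (f := Prod.fst) (t := Finset.range S.M)]
    · push_cast
      rw [Finset.sum_div]
    · rintro ⟨a, b⟩ hq
      simp only [Sweep.QXe, Sweep.Q, Finset.coe_filter, Finset.mem_filter, Finset.mem_product,
        Set.mem_ofPred_eq] at hq
      exact hq.1.1.1
  simp only [h1]
  rw [Finset.sum_comm]
  have hh0 : (0 : ℝ) < h := by
    have : 0 < h := by omega
    exact_mod_cast this
  have hA : (∑ t ∈ Finset.range S.M, (if t ∈ S.A k h then (1 : ℝ) else 0)) =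
      (S.A k h).card := by
    rw [← Finset.sum_filter, Finset.sum_const, nsmul_eq_mul, mul_one]
    congr 2
    ext t
    simp only [Finset.mem_filter, Finset.mem_range, Sweep.A]
    tauto
  have hJ : ((S.Jm k G).card : ℝ) ≤ 2 * Fintype.card V + ((S.N k (G + 1) : ℝ) - S.N k G) := by
    have h3 := S.Jm_card k G (by omega)
    have h4 : ((S.Jm k G).card : ℝ) + S.N k G ≤ 2 * Fintype.card V + S.N k (G + 1) := by
      exact_mod_cast h3
    linarith
  have hK : (∑ t ∈ Finset.range S.M,
      (if S.gap t ≠ 0 then 4 / h * ((K S k G h t).card : ℝ) else 0)) ≤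
      16 * s * Fintype.card V * h + 8 * s * h * ((S.N k (G + 1) : ℝ) - S.N k G) := by
    rw [← Finset.sum_filter, ← Finset.mul_sum]
    have h2 : (∑ t ∈ (Finset.range S.M).filter (fun t => S.gap t ≠ 0),
        ((K S k G h t).card : ℝ)) ≤ (S.Jm k G).card * (2 * h ^ 2 * s) := by
      exact_mod_cast sum_K S k G h
    calc _ ≤ 4 / (h : ℝ) * ((S.Jm k G).card * (2 * h ^ 2 * s)) :=
          mul_le_mul_of_nonneg_left h2 (by positivity)
      _ ≤ 4 / (h : ℝ) * ((2 * Fintype.card V + ((S.N k (G + 1) : ℝ) - S.N k G)) *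
            (2 * h ^ 2 * s)) :=
          mul_le_mul_of_nonneg_left (mul_le_mul_of_nonneg_right hJ (by positivity))
            (by positivity)
      _ = _ := by
          field_simp
          ring
  calc _ ≤ ∑ t ∈ Finset.range S.M, ((if t ∈ S.A k h then (1 : ℝ) else 0) +
        if S.gap t ≠ 0 then 4 / h * ((K S k G h t).card : ℝ) else 0) :=
        Finset.sum_le_sum fun t ht => col_le S hhG (Finset.mem_range.1 ht)
    _ = _ := Finset.sum_add_distrib
    _ ≤ _ := by rw [hA]; linarith

end LUB
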