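import Pool.Agent.LUB2.RunsE
import Pool.Agent.LUB2.XaccE
import Pool.Agent.LUB2.ChargeE

/-!
# Upper bounds for a level, even `s`: the recursion
-/

open scoped Classical

namespace LUB

variable {V : Type} [DecidableEq V] [Fintype V] {s : ℕ}

/-- inclusion and exclusion for the boundary exchanges -/
theorem Sweep.core_nle (S : Sweep V s) (k G g : ℕ) :
    ((S.Q k g).filter fun q => S.LBe k G g (q.1 + 1) s(S.en k g q.1, q.2)).card +
      ((S.Q k g).filter fun q => S.RBe k G g q.1 s(S.ex k g q.1, q.2)).card ≤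
      (S.Q k g).card + (S.NLe k G g).card := by
  have h := Finset.card_union_add_card_inter
    ((S.Q k g).filter fun q => S.LBe k G g (q.1 + 1) s(S.en k g q.1, q.2))
    ((S.Q k g).filter fun q => S.RBe k G g q.1 s(S.ex k g q.1, q.2))
  have h1 : (((S.Q k g).filter fun q => S.LBe k G g (q.1 + 1) s(S.en k g q.1, q.2)) ∪
      ((S.Q k g).filter fun q => S.RBe k G g q.1 s(S.ex k g q.1, q.2))).card ≤
      (S.Q k g).card :=
    Finset.card_le_card (Finset.union_subset (Finset.filter_subset _ _) (Finset.filter_subset _ _))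
  have h2 : (((S.Q k g).filter fun q => S.LBe k G g (q.1 + 1) s(S.en k g q.1, q.2)) ∩
      ((S.Q k g).filter fun q => S.RBe k G g q.1 s(S.ex k g q.1, q.2))) = S.NLe k G g := by
    ext q
    simp only [Sweep.NLe, Finset.mem_inter, Finset.mem_filter]
    tauto
  rw [h2] at h
  omega

/-- the main inequality in natural numbers -/
theorem Sweep.core_nate (hs : Even s) (h4 : 4 ≤ s) (S : Sweep V s) (k G g : ℕ) (hg : 1 ≤ g)
    (hgG : g < G) :
    2 * S.N k g + 2 * (S.A k g).card ≤ (2 * s - 3) * (S.Q k g).card + (S.QXe k G g).card +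
      2 * s * (2 * g ^ 2 + 4 * Fintype.card V * g) + 4 * s * (S.FuP k G).card := by
  have hr := S.runs_e h4 (k := k) hgG.le
  have hc := S.compsE_card k g
  have hm := S.LM_carde k G g
  have e1 := S.count_start k g hg (fun a p => S.LBe k G g a p)
  have e2 := S.count_end k g hg (fun a p => S.RBe k G g a p)
  have e3 : (S.comps k g).card ≤ (S.Q k g).card + (2 * g ^ 2 + 4 * Fintype.card V * g) := by
    have h := S.count_start k g hg (fun _ _ => True)
    simpa only [Finset.filter_true] using h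
  have hch := S.charge_e hs h4 k G g hg hgG
  have hnl := S.core_nle k G g
  have f1 := Finset.card_filter_add_card_filter_not (s := S.comps k g)
    (fun q => S.LBe k G g q.1 q.2)
  have f2 := Finset.card_filter_add_card_filter_not (s := S.compsE k g)
    (fun q => S.RBe k G g q.1 q.2)
  obtain ⟨m, rfl⟩ : ∃ m, s = m + 4 := ⟨s - 4, by omega⟩
  set E := 2 * g ^ 2 + 4 * Fintype.card V * g with hE
  set c := (S.comps k g).card
  set q := (S.Q k g).card
  set f := (S.FuP k G).card
  have g1 : m + 4 - 3 = m + 1 := by omega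
  have g2 : 2 * (m + 4) - 3 = 2 * m + 5 := by omega
  rw [g1] at hr
  rw [g2]
  have k1 : m * c ≤ m * q + m * E := by
    calc m * c ≤ m * (q + E) := Nat.mul_le_mul_left _ e3
      _ = m * q + m * E := by ring
  have k2 : (m + 1) * c = m * c + c := by ring
  have k3 : (2 * m + 5) * q = 2 * (m * q) + 5 * q := by ring
  have k4 : 2 * (m + 4) * E = 2 * (m * E) + 8 * E := by ring
  have k5 : 4 * (m + 4) * f = 2 * (2 * (m + 4) * f) := by ring
  rw [k2] at hr
  rw [k3, k4, k5]
  omega

/-- the recursion for even `s` -/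
theorem core_e {s : ℕ} (hs : Even s) (h4 : 4 ≤ s) : ∃ A : ℝ, 0 ≤ A ∧ ∀ (V : Type)
    [DecidableEq V] [Fintype V] (S : Sweep V s) (k G : ℕ), ∃ X : ℕ → ℝ,
      (∀ h, 1 ≤ h → 0 ≤ X h ∧ X h ≤ (S.N k (h + 1) : ℝ) - S.N k h) ∧
      (∀ h, 1 ≤ h → h < G →
        (S.N k h : ℝ) + ∑ g ∈ (Finset.Ico 1 h).filter (fun g => h ≤ 8 * g), X g ≤
        h * ((2 * s - 3) * ((S.N k (h + 1) : ℝ) - S.N k h) + X h) +
          A * (Fintype.card V * h + (h : ℝ) ^ 2 + h * ((S.N k (G + 1) : ℝ) - S.N k G) +
            (S.FuP k G).card)) := by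
  refine ⟨20 * s, by positivity, fun V _ _ S k G => ⟨fun g => ((S.QXe k G g).card : ℝ) / (2 * g),
    fun h hh => ⟨by positivity, ?_⟩, fun h hh hG => ?_⟩⟩
  · have hq : ((S.QXe k G h).card : ℝ) ≤ (S.Q k h).card := by
      exact_mod_cast Finset.card_le_card (Finset.filter_subset _ _)
    have hQ := S.Q_card k h hh
    have hQ' : ((S.Q k h).card : ℝ) + (2 * h - 1) * S.N k h ≤ (2 * h - 1) * S.N k (h + 1) := by
      have e : ((2 * h - 1 : ℕ) : ℝ) = 2 * h - 1 := by
        rw [Nat.cast_sub (by omega)]; push_cast; ring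
      have := (Nat.cast_le (α := ℝ)).2 hQ
      push_cast [e] at this
      exact this
    have hh' : (1 : ℝ) ≤ h := by exact_mod_cast hh
    have hd : 0 ≤ (S.N k (h + 1) : ℝ) - S.N k h := by
      have h0 : (0 : ℝ) ≤ (S.Q k h).card := by positivity
      have h1 : 0 ≤ (2 * (h : ℝ) - 1) * ((S.N k (h + 1) : ℝ) - S.N k h) := by nlinarith
      exact nonneg_of_mul_nonneg_right h1 (by linarith)
    simp only
    rw [div_le_iff₀ (by positivity)]
    nlinarith
  · have hx := S.xacc_e k G h hh hG.le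
    have hn := S.core_nate hs h4 k G h hh hG
    have hQ := S.Q_card k h hh
    have hQ' : ((S.Q k h).card : ℝ) + (2 * h - 1) * S.N k h ≤ (2 * h - 1) * S.N k (h + 1) := by
      have e : ((2 * h - 1 : ℕ) : ℝ) = 2 * h - 1 := by
        rw [Nat.cast_sub (by omega)]; push_cast; ring
      have := (Nat.cast_le (α := ℝ)).2 hQ
      push_cast [e] at this
      exact this
    have hn' : 2 * (S.N k h : ℝ) + 2 * (S.A k h).card ≤ (2 * s - 3) * (S.Q k h).card +
        (S.QXe k G h).card + 2 * s * (2 * h ^ 2 + 4 * Fintype.card V * h) +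
        4 * s * (S.FuP k G).card := by
      have e : ((2 * s - 3 : ℕ) : ℝ) = 2 * s - 3 := by
        rw [Nat.cast_sub (by omega)]; push_cast; ring
      have := (Nat.cast_le (α := ℝ)).2 hn
      push_cast [e] at this
      exact this
    have hh' : (1 : ℝ) ≤ h := by exact_mod_cast hh
    have hs' : (4 : ℝ) ≤ s := by exact_mod_cast h4
    have hX : (h : ℝ) * (((S.QXe k G h).card : ℝ) / (2 * h)) = (S.QXe k G h).card / 2 := by
      field_simp
    have hd : 0 ≤ (S.N k (h + 1) : ℝ) - S.N k h := by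
      have h0 : (0 : ℝ) ≤ (S.Q k h).card := by positivity
      have h1 : 0 ≤ (2 * (h : ℝ) - 1) * ((S.N k (h + 1) : ℝ) - S.N k h) := by nlinarith
      exact nonneg_of_mul_nonneg_right h1 (by linarith)
    have hdG : 0 ≤ (S.N k (G + 1) : ℝ) - S.N k G := by
      have hG1 : 1 ≤ G := by omega
      have hQG := S.Q_card k G hG1
      have hQG' : ((S.Q k G).card : ℝ) + (2 * G - 1) * S.N k G ≤
          (2 * G - 1) * S.N k (G + 1) := by
        have e : ((2 * G - 1 : ℕ) : ℝ) = 2 * G - 1 := by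
          rw [Nat.cast_sub (by omega)]; push_cast; ring
        have := (Nat.cast_le (α := ℝ)).2 hQG
        push_cast [e] at this
        exact this
      have hG' : (1 : ℝ) ≤ G := by exact_mod_cast hG1
      have h0 : (0 : ℝ) ≤ (S.Q k G).card := by positivity
      have h1 : 0 ≤ (2 * (G : ℝ) - 1) * ((S.N k (G + 1) : ℝ) - S.N k G) := by nlinarith
      exact nonneg_of_mul_nonneg_right h1 (by linarith)
    have hq : (S.Q k h).card ≤ (2 * (h : ℝ)) * ((S.N k (h + 1) : ℝ) - S.N k h) := by nlinarith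
    have hq2 : (2 * (s : ℝ) - 3) * (S.Q k h).card ≤
        (2 * s - 3) * ((2 * (h : ℝ)) * ((S.N k (h + 1) : ℝ) - S.N k h)) :=
      mul_le_mul_of_nonneg_left hq (by linarith)
    have hp : (0 : ℝ) ≤ s * (Fintype.card V * h) := by positivity
    have hp2 : (0 : ℝ) ≤ s * (h : ℝ) ^ 2 := by positivity
    have hp3 : (0 : ℝ) ≤ s * (h * ((S.N k (G + 1) : ℝ) - S.N k G)) := by positivity
    have hp4 : (0 : ℝ) ≤ s * (S.FuP k G).card := by positivity
    have hsum : ∑ g ∈ (Finset.Ico 1 h).filter (fun g => h ≤ 8 * g),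
        (fun g : ℕ => ((S.QXe k G g).card : ℝ) / (2 * g)) g ≤
        (S.A k h).card + 16 * s * Fintype.card V * h +
          8 * s * h * ((S.N k (G + 1) : ℝ) - S.N k G) := by
      convert hx using 3
    rw [mul_add, hX]
    nlinarith

end LUB
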