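import Pool.Agent.LUB.Core

/-!
# Upper bounds for a level, even `s`: definitions

An outer band of half width `G` around the gap `k`; the exchanges of a pair are counted inside its
joint presence in the outer band.
-/

open scoped Classical

namespace LUB

variable {V : Type} [DecidableEq V] [Fintype V] {s : ℕ}

/-- the number of exchanges of `p` before `t` in the joint presence (in the band of half width `G`)
which contains `t` -/
noncomputable def Sweep.pc (S : Sweep V s) (k G t : ℕ) (p : Sym2 V) : ℕ :=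
  ((Finset.range t).filter fun u => S.Sw u p ∧ S.Rn k G u t p).card

/-- all `s` exchanges of the pair are in one joint presence in the band of half width `G` -/
def Sweep.Fu (S : Sweep V s) (k G : ℕ) (p : Sym2 V) : Prop := ∃ t ≤ S.M, s ≤ S.pc k G t p

/-- the full pairs -/
noncomputable def Sweep.FuP (S : Sweep V s) (k G : ℕ) : Finset (Sym2 V) :=
  (Finset.univ : Finset (Sym2 V)).filter fun p => S.Fu k G p

/-- the run starting at `a` contains the first exchange of its pair in the outer presence -/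
def Sweep.LBe (S : Sweep V s) (k G g a : ℕ) (p : Sym2 V) : Prop :=
  ¬ S.Fu k G p ∧ ∃ τ, a ≤ τ ∧ S.Rn k g a (τ + 1) p ∧ S.Sw τ p ∧ S.pc k G τ p = 0

/-- the run ending at `b` contains the exchange number `s - 1` of the outer presence -/
def Sweep.RBe (S : Sweep V s) (k G g b : ℕ) (p : Sym2 V) : Prop :=
  ¬ S.Fu k G p ∧ ∃ τ, τ < b ∧ S.Rn k g τ b p ∧ S.Sw τ p ∧ S.pc k G τ p + 2 = s

/-- the run starting at `a` has only one exchange of its pair, neither the first nor the last
one of the outer presence -/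
def Sweep.LMse (S : Sweep V s) (k G g a : ℕ) (p : Sym2 V) : Prop :=
  ¬ S.Fu k G p ∧ ∃ τ, a ≤ τ ∧ S.Rn k g a (τ + 1) p ∧ S.Sw τ p ∧ 0 < S.pc k G τ p ∧
    S.pc k G τ p + 2 < s ∧ S.Ln k g τ

/-- the same for the run ending at `b` -/
def Sweep.LMee (S : Sweep V s) (k G g b : ℕ) (p : Sym2 V) : Prop :=
  ¬ S.Fu k G p ∧ ∃ τ, τ < b ∧ S.Rn k g τ b p ∧ S.Sw τ p ∧ 0 < S.pc k G τ p ∧
    S.pc k G τ p + 2 < s ∧ S.Ln k g τ

/-- the pair of step `t` is not exchanged again as long as this pair and `c` stay in the outer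
band -/
def Sweep.Exe (S : Sweep V s) (k G t : ℕ) (c : V) : Prop :=
  ∀ t', S.Sw t' s(S.x t, S.y t) → S.Rn k G (min t t') (max t t' + 1) s(S.x t, S.y t) →
    (∀ u, min t t' ≤ u → u ≤ max t t' → S.In k G u c) → t' = t

noncomputable def Sweep.QXe (S : Sweep V s) (k G g : ℕ) : Finset (ℕ × V) :=
  (S.Q k g).filter fun q => S.Exe k G q.1 q.2

noncomputable def Sweep.NLe (S : Sweep V s) (k G g : ℕ) : Finset (ℕ × V) :=
  (S.Q k g).filter fun q => S.LBe k G g (q.1 + 1) s(S.en k g q.1, q.2) ∧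
    S.RBe k G g q.1 s(S.ex k g q.1, q.2)

/-- `u` and `v` (with `u` below `v` before) are exchanged `s` times in the window from `a` to `b`,
and from the first of these exchanges to the last one no other curve of `R` is exchanged with `u`
or `v` -/
def Sweep.Ch (S : Sweep V s) (R : Finset V) (a b : ℕ) (u v : V) : Prop :=
  u ≠ v ∧ ∃ α β, a ≤ α ∧ α < β ∧ β ≤ b ∧ b ≤ S.M ∧ S.Lt α u v ∧ S.Sw α s(u, v) ∧
    S.cnt α s(u, v) = 0 ∧ S.cnt β s(u, v) = s ∧ S.Sw (β - 1) s(u, v) ∧
    ∀ t, α ≤ t → t < β → ∀ w ∈ R, w ≠ u → w ≠ v → ¬ S.Sw t s(u, w) ∧ ¬ S.Sw t s(v, w)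

/-- the chains of `R` in the window -/
noncomputable def Sweep.ChP (S : Sweep V s) (R : Finset V) (a b : ℕ) : Finset (V × V) :=
  (R ×ˢ R).filter fun x => S.Ch R a b x.1 x.2

/-- alive in the whole window -/
def Sweep.Tot (S : Sweep V s) (a b : ℕ) (v : V) : Prop := ∀ t, a ≤ t → t ≤ b → v ∈ S.L t

end LUB
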