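import Pool.Agent.LUB2.EDefs

/-!
# Full pairs with many or few bad curves
-/

open scoped Classical

namespace LUB

variable {V : Type} [DecidableEq V] [Fintype V] {s : ℕ}

/-- the curves exchanged with `u` or `v` between the first and the last exchange of `u` and `v` -/
noncomputable def Sweep.Bad (S : Sweep V s) (x : V × V) : Finset V :=
  (Finset.univ : Finset V).filter fun w => w ≠ x.1 ∧ w ≠ x.2 ∧ ∃ t, t < S.M ∧
    0 < S.cnt (t + 1) s(x.1, x.2) ∧ S.cnt t s(x.1, x.2) < s ∧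
    (S.Sw t s(x.1, w) ∨ S.Sw t s(x.2, w))

/-- the full pairs with their lower curve (before the first exchange) first -/
noncomputable def Sweep.FuO (S : Sweep V s) (k G : ℕ) : Finset (V × V) :=
  (Finset.univ : Finset (V × V)).filter fun x => S.Fu k G s(x.1, x.2) ∧
    ∃ α, S.Sw α s(x.1, x.2) ∧ S.cnt α s(x.1, x.2) = 0 ∧ S.Lt α x.1 x.2

/-- the first and the last exchange of a full pair -/
private theorem fu_data (h2 : 2 ≤ s) (S : Sweep V s) {k G : ℕ} {p : Sym2 V} (h : S.Fu k G p) :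
    ∃ α β t₀, α < β ∧ β ≤ t₀ ∧ t₀ ≤ S.M ∧ S.Sw α p ∧ S.cnt α p = 0 ∧ S.Sw (β - 1) p ∧
      S.cnt β p = s ∧ S.Rn k G α t₀ p ∧ (∀ t, α ≤ t → 0 < S.cnt (t + 1) p) ∧
      (∀ t, 0 < S.cnt (t + 1) p → α ≤ t) ∧ (∀ t, S.cnt t p < s → t < β) ∧
      ∀ t, t < β → S.cnt t p < s := by
  obtain ⟨t₀, ht₀, hpc⟩ := h
  have hsub : ((Finset.range t₀).filter fun u => S.Sw u p ∧ S.Rn k G u t₀ p) ⊆
      (Finset.range t₀).filter fun u => S.Sw u p := by
    intro u hu
    rw [Finset.mem_filter] at hu ⊢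
    exact ⟨hu.1, hu.2.1⟩
  have hle : ∀ t, S.cnt t p ≤ s := by
    have h1 : 0 < ((Finset.range t₀).filter fun u => S.Sw u p ∧ S.Rn k G u t₀ p).card :=
      lt_of_lt_of_le (by omega) hpc
    obtain ⟨u, hu⟩ := Finset.card_pos.1 h1
    rw [Finset.mem_filter] at hu
    obtain ⟨-, ⟨h3, h4, rfl⟩, -⟩ := hu
    exact S.cnt_le (S.xy h3 h4).1
  have heq : ((Finset.range t₀).filter fun u => S.Sw u p ∧ S.Rn k G u t₀ p) =
      (Finset.range t₀).filter fun u => S.Sw u p :=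
    Finset.eq_of_subset_of_card_le hsub ((hle t₀).trans hpc)
  have hcnt : S.cnt t₀ p = s := le_antisymm (hle t₀) (hpc.trans (Finset.card_le_card hsub))
  have hc0 : S.cnt 0 p = 0 := by
    unfold Sweep.cnt
    simp
  have hex1 : ∃ t, 0 < S.cnt (t + 1) p := by
    refine ⟨t₀, lt_of_lt_of_le ?_ (S.cnt_monoR (Nat.le_succ t₀) p)⟩
    omega
  have hex2 : ∃ t, s ≤ S.cnt t p := ⟨t₀, hcnt.ge⟩
  obtain ⟨α, hα1, hα2⟩ : ∃ α, 0 < S.cnt (α + 1) p ∧ ∀ t, t < α → ¬ 0 < S.cnt (t + 1) p :=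
    ⟨Nat.find hex1, Nat.find_spec hex1, fun t ht => Nat.find_min hex1 ht⟩
  obtain ⟨β, hβ1, hβ2⟩ : ∃ β, s ≤ S.cnt β p ∧ ∀ t, t < β → ¬ s ≤ S.cnt t p :=
    ⟨Nat.find hex2, Nat.find_spec hex2, fun t ht => Nat.find_min hex2 ht⟩
  have hα0 : S.cnt α p = 0 := by
    rcases Nat.eq_zero_or_pos α with h | h
    · rw [h, hc0]
    · have := hα2 (α - 1) (by omega)
      rw [Nat.sub_add_cancel h] at this
      omega
  have hαsw : S.Sw α p := by
    by_contra hn
    rw [S.cnt_succ, if_neg hn] at hα1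
    omega
  have hβ0 : 0 < β := by
    rcases Nat.eq_zero_or_pos β with h | h
    · rw [h, hc0] at hβ1
      omega
    · exact h
  have hβsw : S.Sw (β - 1) p := by
    by_contra hn
    have h1 := hβ2 (β - 1) (by omega)
    have h3 := S.cnt_succ (β - 1) p
    rw [Nat.sub_add_cancel hβ0, if_neg hn] at h3
    omega
  have hαβ : α < β := by
    by_contra hn
    have := S.cnt_monoR (not_lt.1 hn) p
    omega
  have hβt : β ≤ t₀ := by
    by_contra hn
    exact hβ2 t₀ (not_le.1 hn) hcnt.ge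
  have hrn : S.Rn k G α t₀ p := by
    have h1 : α ∈ (Finset.range t₀).filter fun u => S.Sw u p :=
      Finset.mem_filter.2 ⟨Finset.mem_range.2 (by omega), hαsw⟩
    rw [← heq, Finset.mem_filter] at h1
    exact h1.2.2
  refine ⟨α, β, t₀, hαβ, hβt, ht₀, hαsw, hα0, hβsw, le_antisymm (hle β) hβ1, hrn, ?_, ?_, ?_, ?_⟩
  · intro t ht
    exact lt_of_lt_of_le hα1 (S.cnt_monoR (by omega) p)
  · intro t ht
    by_contra hn
    exact hα2 t (not_le.1 hn) ht
  · intro t ht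
    by_contra hn
    have := S.cnt_monoR (not_lt.1 hn) p
    omega
  · intro t ht
    have := hβ2 t ht
    omega

theorem Sweep.fuO_card (h2 : 2 ≤ s) (S : Sweep V s) (k G : ℕ) :
    (S.FuP k G).card ≤ (S.FuO k G).card := by
  refine le_trans (Finset.card_le_card (t := (S.FuO k G).image fun x => s(x.1, x.2)) ?_)
    Finset.card_image_le
  intro p hp
  unfold Sweep.FuP at hp
  rw [Finset.mem_filter] at hp
  obtain ⟨α, β, t₀, -, -, -, hsw, hc, -⟩ := fu_data h2 S hp.2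
  rw [Finset.mem_image]
  refine ⟨(S.x α, S.y α), ?_, hsw.2.2⟩
  unfold Sweep.FuO
  rw [Finset.mem_filter]
  obtain ⟨h3, h4, h5⟩ := hsw
  refine ⟨Finset.mem_univ _, ?_, α, ⟨h3, h4, rfl⟩, ?_, ?_⟩
  · show S.Fu k G s(S.x α, S.y α)
    rw [h5]; exact hp.2
  · show S.cnt α s(S.x α, S.y α) = 0
    rw [h5]; exact hc
  · obtain ⟨-, -, -, -, p1, p2, -⟩ := S.pos_swap h3 h4
    show (S.L α).idxOf (S.x α) < (S.L α).idxOf (S.y α)
    omega

/-- a full pair whose bad curves are not in `R` is a chain of `R` -/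
theorem Sweep.fuO_ch (h2 : 2 ≤ s) (S : Sweep V s) (k G : ℕ) {R : Finset V} {x : V × V}
    (hx : x ∈ S.FuO k G) (h1 : x.1 ∈ R) (h2 : x.2 ∈ R) (hR : Disjoint R (S.Bad x)) :
    x ∈ S.ChP R 0 S.M := by
  rename_i hs2
  unfold Sweep.FuO at hx
  rw [Finset.mem_filter] at hx
  obtain ⟨-, hfu, α', hsw', hc', hlt⟩ := hx
  obtain ⟨α, β, t₀, h3, h4, h5, h6, h7, h8, h9, -, h11, h12, h13, h14⟩ := fu_data hs2 S hfu
  have hαα : α' = α := S.cnt_injR hsw' h6 (hc'.trans h7.symm)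
  subst hαα
  have hne : x.1 ≠ x.2 := by
    obtain ⟨k1, k2, k3⟩ := hsw'
    intro h
    rw [h] at k3
    exact (S.xy k1 k2).1 (by
      have := Sym2.eq_iff.1 k3
      rcases this with ⟨e1, e2⟩ | ⟨e1, e2⟩ <;> rw [e1, e2])
  unfold Sweep.ChP
  rw [Finset.mem_filter, Finset.mem_product]
  refine ⟨⟨h1, h2⟩, hne, α', β, Nat.zero_le _, h3, h4.trans h5, le_rfl, hlt, hsw', h7, h9, h8, ?_⟩
  intro t ht1 ht2 w hw hw1 hw2
  have hbad : ¬ (S.Sw t s(x.1, w) ∨ S.Sw t s(x.2, w)) := by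
    intro hbad
    refine Finset.disjoint_left.1 hR hw ?_
    unfold Sweep.Bad
    rw [Finset.mem_filter]
    exact ⟨Finset.mem_univ _, hw1, hw2, t, by omega, h11 t ht1, h14 t ht2, hbad⟩
  exact ⟨fun h => hbad (Or.inl h), fun h => hbad (Or.inr h)⟩

/-- all exchanges counted in `Bad` are in the band -/
theorem Sweep.heavy (h2 : 2 ≤ s) (S : Sweep V s) (k G : ℕ) (hG : 1 ≤ G) :
    ∑ x ∈ S.FuO k G, (S.Bad x).card ≤ 4 * G * S.N k G := by
  -- the data of a bad curve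
  have hdata : ∀ q : (V × V) × V, ∃ t : ℕ, ∃ b : Bool, ∃ c : V,
      q.1 ∈ S.FuO k G → q.2 ∈ S.Bad q.1 → (t < S.M ∧ S.gap t ≠ 0 ∧ k < S.gap t + G ∧
        S.gap t < k + G ∧ S.In k G t c ∧ q.2 = (if b then S.y t else S.x t) ∧
        s(q.1.1, q.1.2) = s((if b then S.x t else S.y t), c)) := by
    rintro ⟨x, w⟩
    by_cases hx : x ∈ S.FuO k G
    swap
    · exact ⟨0, false, w, fun h => absurd h hx⟩
    by_cases hw : w ∈ S.Bad x
    swap
    · exact ⟨0, false, w, fun _ h => absurd h hw⟩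
    have hx' := hx
    unfold Sweep.FuO at hx'
    rw [Finset.mem_filter] at hx'
    obtain ⟨-, hfu, -⟩ := hx'
    obtain ⟨α, β, t₀, h3, h4, h5, h6, h7, h8, h9, h10, h11, h12, h13, h14⟩ := fu_data h2 S hfu
    have hw' := hw
    unfold Sweep.Bad at hw'
    rw [Finset.mem_filter] at hw'
    obtain ⟨-, -, -, t, ht, hc1, hc2, hor⟩ := hw'
    have ha := h12 t hc1
    have hb := h13 t hc2
    have hJ := h10 t ha (by omega)
    have hJ' := h10 (t + 1) (by omega) (by omega)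
    have i1 := hJ.2 x.1 (Sym2.mem_mk_left _ _)
    have i2 := hJ.2 x.2 (Sym2.mem_mk_right _ _)
    have j1 := hJ'.2 x.1 (Sym2.mem_mk_left _ _)
    have j2 := hJ'.2 x.2 (Sym2.mem_mk_right _ _)
    -- one of the two curves, `u`, is exchanged with `w`, the other one is `c`
    have key : ∀ u c : V, S.In k G t u → S.In k G (t + 1) u → S.In k G t c →
        s(x.1, x.2) = s(u, c) → S.Sw t s(u, w) →
        ∃ t : ℕ, ∃ b : Bool, ∃ c : V, (t < S.M ∧ S.gap t ≠ 0 ∧ k < S.gap t + G ∧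
        S.gap t < k + G ∧ S.In k G t c ∧ w = (if b then S.y t else S.x t) ∧
        s(x.1, x.2) = s((if b then S.x t else S.y t), c)) := by
      intro u c k1 k2 k3 k4 k5
      obtain ⟨-, -, k6, k7⟩ := S.sw_in hG k5 k1 k2
      rcases Sym2.eq_iff.1 k5.2.2 with ⟨e1, e2⟩ | ⟨e1, e2⟩
      · refine ⟨t, true, c, k5.1, k5.2.1, k6, k7, k3, ?_, ?_⟩
        · simp [e2]
        · simp [e1, k4]
      · refine ⟨t, false, c, k5.1, k5.2.1, k6, k7, k3, ?_, ?_⟩
        · simp [e1]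
        · simp [e2, k4]
    rcases hor with hsw | hsw
    · obtain ⟨t', b, c, hh⟩ := key x.1 x.2 i1 j1 i2 rfl hsw
      exact ⟨t', b, c, fun _ _ => hh⟩
    · obtain ⟨t', b, c, hh⟩ := key x.2 x.1 i2 j2 i1 Sym2.eq_swap hsw
      exact ⟨t', b, c, fun _ _ => hh⟩
  choose T Bo C hTBC using hdata
  set I : Finset ℕ := (Finset.range S.M).filter fun t => S.gap t ≠ 0 ∧ k < S.gap t + G ∧
    S.gap t < k + G with hI
  set D : Finset (ℕ × Bool × V) := (I ×ˢ (Finset.univ : Finset (Bool × V))).filter fun z =>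
    S.In k G z.1 z.2.2 with hD
  have hDcard : D.card ≤ 4 * G * S.N k G := by
    have h1 : D.card = ∑ t ∈ I, ∑ b : Bool,
        ((Finset.univ : Finset V).filter fun v => S.In k G t v).card := by
      rw [hD, Finset.card_filter, Finset.sum_product]
      refine Finset.sum_congr rfl fun t _ => ?_
      rw [Fintype.sum_prod_type]
      refine Finset.sum_congr rfl fun b _ => ?_
      rw [Finset.card_filter]
    rw [h1]
    calc ∑ t ∈ I, ∑ _b : Bool, ((Finset.univ : Finset V).filter fun v => S.In k G t v).card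
        ≤ ∑ _t ∈ I, ∑ _b : Bool, 2 * G :=
          Finset.sum_le_sum fun t _ => Finset.sum_le_sum fun b _ => S.in_card k G t
      _ = 4 * G * S.N k G := by
          rw [Finset.sum_const, Finset.sum_const, Finset.card_univ, Fintype.card_bool]
          unfold Sweep.N
          rw [hI, smul_eq_mul, smul_eq_mul]
          ring
  rw [← Finset.card_sigma]
  refine le_trans ?_ hDcard
  refine Finset.card_le_card_of_injOn
    (fun z => (T (z.1, z.2), Bo (z.1, z.2), C (z.1, z.2))) ?_ ?_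
  · rintro ⟨x, w⟩ hz
    rw [Finset.mem_coe, Finset.mem_sigma] at hz
    obtain ⟨k1, k2, k3, k4, k5, -, -⟩ := hTBC (x, w) hz.1 hz.2
    rw [Finset.mem_coe, hD, Finset.mem_filter, Finset.mem_product]
    refine ⟨⟨?_, Finset.mem_univ _⟩, k5⟩
    rw [hI, Finset.mem_filter, Finset.mem_range]
    exact ⟨k1, k2, k3, k4⟩
  · rintro ⟨x, w⟩ hz ⟨x', w'⟩ hz' he
    rw [Finset.mem_coe, Finset.mem_sigma] at hz hz'
    obtain ⟨-, -, -, -, -, k6, k7⟩ := hTBC (x, w) hz.1 hz.2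
    obtain ⟨-, -, -, -, -, l6, l7⟩ := hTBC (x', w') hz'.1 hz'.2
    simp only [Prod.mk.injEq] at he
    obtain ⟨e1, e2, e3⟩ := he
    rw [← e1, ← e2] at l6
    rw [← e1, ← e2, ← e3] at l7
    have hww : w = w' := k6.trans l6.symm
    have hpp : s(x.1, x.2) = s(x'.1, x'.2) := k7.trans l7.symm
    have hxx : x = x' := by
      have m1 := hz.1
      have m2 := hz'.1
      unfold Sweep.FuO at m1 m2
      rw [Finset.mem_filter] at m1 m2
      obtain ⟨-, -, α, n1, n2, n3⟩ := m1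
      obtain ⟨-, -, α', o1, o2, o3⟩ := m2
      simp only at n1 n2 n3 o1 o2 o3 hpp
      rw [← hpp] at o1 o2
      have hαα : α = α' := S.cnt_injR n1 o1 (n2.trans o2.symm)
      subst hαα
      rcases Sym2.eq_iff.1 hpp with ⟨q1, q2⟩ | ⟨q1, q2⟩
      · exact Prod.ext q1 q2
      · exfalso
        rw [← q1, ← q2] at o3
        unfold Sweep.Lt at n3 o3
        omega
    subst hxx hww
    rfl

end LUB
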