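import Pool.Agent.LUB2.Kst
import Pool.Agent.LUB2.Chain

/-!
# Chains: windows
-/

open scoped Classical

namespace LUB

section

variable {V : Type} [DecidableEq V] [Fintype V] {s : ℕ}

/-- the step inserts or deletes the curve -/
private def Sweep.Jp (S : Sweep V s) (t : ℕ) (v : V) : Prop :=
  ¬ (v ∈ S.L t ↔ v ∈ S.L (t + 1))

/-- the number of insertions and deletions of a curve in the window -/
private noncomputable def Sweep.jp (S : Sweep V s) (a b : ℕ) (v : V) : ℕ :=
  ((Finset.Ico a b).filter fun t => S.Jp t v).card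

/-- the same for a set of curves -/
private noncomputable def Sweep.jps (S : Sweep V s) (R : Finset V) (a b : ℕ) : ℕ :=
  ∑ v ∈ R, S.jp a b v

/-- the curves of `R` which are alive in the window, but not always -/
private noncomputable def Sweep.NT (S : Sweep V s) (R : Finset V) (a b : ℕ) : Finset V :=
  R.filter fun v => (∃ t, a ≤ t ∧ t ≤ b ∧ v ∈ S.L t) ∧ ¬ S.Tot a b v

/-- only one curve is inserted or deleted at each step -/
private theorem jp_unique (S : Sweep V s) {t : ℕ} (ht : t < S.M) {u v : V} (hu : S.Jp t u)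
    (hv : S.Jp t v) : u = v := by
  unfold Sweep.Jp at hu hv
  by_cases hg : S.gap t = 0
  · obtain ⟨a, b, w, ⟨h1, h2⟩ | ⟨h1, h2⟩⟩ := S.jump t ht hg
    · rw [h1, h2] at hu hv
      simp only [List.mem_append, List.mem_cons] at hu hv
      have e1 : u = w := by tauto
      have e2 : v = w := by tauto
      rw [e1, e2]
    · rw [h1, h2] at hu hv
      simp only [List.mem_append, List.mem_cons] at hu hv
      have e1 : u = w := by tauto
      have e2 : v = w := by tauto
      rw [e1, e2]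
  · exfalso
    obtain ⟨a, b, -, h1, h2⟩ := S.swap t ht hg
    rw [h1, h2] at hu
    simp only [List.mem_append, List.mem_cons] at hu
    tauto

private theorem jp_two (S : Sweep V s) (v : V) : S.jp 0 S.M v ≤ 2 := by
  have h : (Finset.Ico 0 S.M).filter (fun t => S.Jp t v) ⊆
      ((Finset.range S.M).filter fun t => v ∉ S.L t ∧ v ∈ S.L (t + 1)) ∪
        ((Finset.range S.M).filter fun t => v ∈ S.L t ∧ v ∉ S.L (t + 1)) := by
    intro t ht
    rw [Finset.mem_filter, Finset.mem_Ico] at ht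
    obtain ⟨⟨-, h1⟩, h2⟩ := ht
    unfold Sweep.Jp at h2
    rw [Finset.mem_union, Finset.mem_filter, Finset.mem_filter, Finset.mem_range]
    tauto
  have h1 : ((Finset.range S.M).filter fun t => v ∉ S.L t ∧ v ∈ S.L (t + 1)).card ≤ 1 := by
    rw [Finset.card_le_one]
    have key : ∀ t t', t < S.M → t' < S.M → v ∉ S.L t ∧ v ∈ S.L (t + 1) →
        v ∉ S.L t' ∧ v ∈ S.L (t' + 1) → ¬ t < t' := by
      intro t t' h1 h2 h3 h4 h5
      exact h4.1 (S.life v (t + 1) t' (t' + 1) h5 (Nat.le_succ _) h2 h3.2 h4.2)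
    intro t ht t' ht'
    rw [Finset.mem_filter, Finset.mem_range] at ht ht'
    have k1 := key t t' ht.1 ht'.1 ht.2 ht'.2
    have k2 := key t' t ht'.1 ht.1 ht'.2 ht.2
    omega
  have h2 : ((Finset.range S.M).filter fun t => v ∈ S.L t ∧ v ∉ S.L (t + 1)).card ≤ 1 := by
    rw [Finset.card_le_one]
    have key : ∀ t t', t < S.M → t' < S.M → v ∈ S.L t ∧ v ∉ S.L (t + 1) →
        v ∈ S.L t' ∧ v ∉ S.L (t' + 1) → ¬ t < t' := by
      intro t t' h1 h2 h3 h4 h5
      exact h3.2 (S.life v t (t + 1) t' (Nat.le_succ _) h5 h2.le h3.1 h4.1)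
    intro t ht t' ht'
    rw [Finset.mem_filter, Finset.mem_range] at ht ht'
    have k1 := key t t' ht.1 ht'.1 ht.2 ht'.2
    have k2 := key t' t ht'.1 ht.1 ht'.2 ht.2
    omega
  calc S.jp 0 S.M v ≤ _ := Finset.card_le_card h
    _ ≤ _ := Finset.card_union_le _ _
    _ ≤ 2 := by omega

private theorem jps_two (S : Sweep V s) (R : Finset V) : S.jps R 0 S.M ≤ 2 * R.card := by
  unfold Sweep.jps
  calc ∑ v ∈ R, S.jp 0 S.M v ≤ ∑ _v ∈ R, 2 := Finset.sum_le_sum fun v _ => jp_two S v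
    _ = 2 * R.card := by rw [Finset.sum_const, smul_eq_mul, mul_comm]

private theorem jps_self (S : Sweep V s) (R : Finset V) (a : ℕ) : S.jps R a a = 0 := by
  unfold Sweep.jps Sweep.jp
  simp

private theorem jps_mono (S : Sweep V s) {R R' : Finset V} (h : R' ⊆ R) (a b : ℕ) :
    S.jps R' a b ≤ S.jps R a b :=
  Finset.sum_le_sum_of_subset h

private theorem jps_add (S : Sweep V s) (R : Finset V) {a c b : ℕ} (hac : a ≤ c) (hcb : c ≤ b) :
    S.jps R a b = S.jps R a c + S.jps R c b := by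
  unfold Sweep.jps
  rw [← Finset.sum_add_distrib]
  refine Finset.sum_congr rfl fun v _ => ?_
  unfold Sweep.jp
  rw [← Finset.Ico_union_Ico_eq_Ico hac hcb, Finset.filter_union]
  refine Finset.card_union_of_disjoint ?_
  refine Finset.disjoint_filter_filter ?_
  exact Finset.Ico_disjoint_Ico_consecutive a c b

private theorem jps_succ (S : Sweep V s) (R : Finset V) {c : ℕ} (hc : c < S.M) :
    S.jps R c (c + 1) ≤ 1 := by
  unfold Sweep.jps Sweep.jp
  have h : ∀ v ∈ R, ((Finset.Ico c (c + 1)).filter fun t => S.Jp t v).card =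
      if S.Jp c v then 1 else 0 := by
    intro v _
    rw [Nat.Ico_succ_singleton, Finset.filter_singleton]
    split_ifs <;> simp
  rw [Finset.sum_congr rfl h, ← Finset.card_filter, Finset.card_le_one]
  intro u hu v hv
  rw [Finset.mem_filter] at hu hv
  exact jp_unique S hc hu.2 hv.2

/-- halving a window -/
private theorem halve (S : Sweep V s) (R : Finset V) {a : ℕ} (N : ℕ) : ∀ b, a ≤ b → b ≤ S.M →
    ∃ c, a ≤ c ∧ c ≤ b ∧ S.jps R a c ≤ N ∧ (c = b ∨ S.jps R a c = N) := by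
  refine Nat.le_induction ?_ ?_
  · intro _
    exact ⟨a, le_rfl, le_rfl, by rw [jps_self]; exact Nat.zero_le _, Or.inl rfl⟩
  · intro b hab ih hb
    obtain ⟨c, h1, h2, h3, h4⟩ := ih (by omega)
    by_cases h5 : S.jps R a c = N
    · exact ⟨c, h1, by omega, h3, Or.inr h5⟩
    · have h6 : c = b := h4.resolve_right h5
      rw [h6] at h3 h5
      have h7 : S.jps R a (b + 1) = S.jps R a b + S.jps R b (b + 1) :=
        jps_add S R hab (Nat.le_succ b)
      have h8 : S.jps R b (b + 1) ≤ 1 := jps_succ S R (show b < S.M by omega)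
      have h9 : S.jps R a b < N := lt_of_le_of_ne h3 h5
      refine ⟨b + 1, hab.trans (Nat.le_succ b), le_rfl, ?_, Or.inl rfl⟩
      rw [h7]
      exact (Nat.add_le_add_left h8 _).trans h9

private theorem nt_card (S : Sweep V s) (R : Finset V) {a b : ℕ} (hb : b ≤ S.M) :
    (S.NT R a b).card ≤ S.jps R a b := by
  have h1 : ∀ v ∈ S.NT R a b, 1 ≤ S.jp a b v := by
    intro v hv
    unfold Sweep.NT at hv
    rw [Finset.mem_filter] at hv
    obtain ⟨-, ⟨t, h1, h2, h3⟩, h4⟩ := hv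
    unfold Sweep.jp
    rw [Nat.one_le_iff_ne_zero, Ne, Finset.card_eq_zero, Finset.filter_eq_empty_iff]
    intro h5
    refine h4 fun t' h6 h7 => ?_
    -- the status does not change
    have h8 : ∀ d, ∀ e, a ≤ e → e + d ≤ b → (v ∈ S.L e ↔ v ∈ S.L (e + d)) := by
      intro d
      induction d with
      | zero => intro e _ _; rfl
      | succ d ih =>
        intro e he he'
        rw [ih e he (by omega)]
        have := h5 (x := e + d) (Finset.mem_Ico.2 ⟨by omega, by omega⟩)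
        unfold Sweep.Jp at this
        rw [not_not] at this
        exact this
    rcases le_total t t' with h9 | h9
    · obtain ⟨d, rfl⟩ := Nat.exists_eq_add_of_le h9
      exact (h8 d t h1 h7).1 h3
    · obtain ⟨d, rfl⟩ := Nat.exists_eq_add_of_le h9
      exact (h8 d t' h6 h2).2 h3
  have h2 : S.NT R a b ⊆ R := Finset.filter_subset _ _
  calc (S.NT R a b).card = ∑ _v ∈ S.NT R a b, 1 := by simp
    _ ≤ ∑ v ∈ S.NT R a b, S.jp a b v := Finset.sum_le_sum h1
    _ ≤ S.jps R a b := Finset.sum_le_sum_of_subset h2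

private theorem ch_mono (S : Sweep V s) {R R' : Finset V} (h : R' ⊆ R) {a b : ℕ} {u v : V}
    (hc : S.Ch R a b u v) : S.Ch R' a b u v := by
  obtain ⟨h1, α, β, e1, e2, e3, e4, e5, e6, e7, e8, e9, e10⟩ := hc
  exact ⟨h1, α, β, e1, e2, e3, e4, e5, e6, e7, e8, e9, fun t ht ht' w hw => e10 t ht ht' w (h hw)⟩

/-- the chains with two curves which are not alive in the whole window -/
private theorem ch_split (S : Sweep V s) (R : Finset V) (a b : ℕ) :
    (S.ChP R a b).card ≤
      ((R ×ˢ (R.filter fun w => S.Tot a b w)).filter fun x => S.Ch R a b x.1 x.2).card +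
      ((R ×ˢ (R.filter fun w => S.Tot a b w)).filter fun x => S.Ch R a b x.2 x.1).card +
      (S.ChP (S.NT R a b) a b).card := by
  set W := R.filter fun w => S.Tot a b w with hW
  have h1 : S.ChP R a b ⊆ ((R ×ˢ W).filter fun x => S.Ch R a b x.1 x.2) ∪
      ((((R ×ˢ W).filter fun x => S.Ch R a b x.2 x.1).image Prod.swap) ∪
        S.ChP (S.NT R a b) a b) := by
    intro x hx
    unfold Sweep.ChP at hx
    rw [Finset.mem_filter, Finset.mem_product] at hx
    obtain ⟨⟨h1, h2⟩, h3⟩ := hx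
    by_cases h4 : S.Tot a b x.2
    · refine Finset.mem_union_left _ ?_
      rw [Finset.mem_filter, Finset.mem_product]
      exact ⟨⟨h1, Finset.mem_filter.2 ⟨h2, h4⟩⟩, h3⟩
    refine Finset.mem_union_right _ ?_
    by_cases h5 : S.Tot a b x.1
    · refine Finset.mem_union_left _ ?_
      rw [Finset.mem_image]
      refine ⟨(x.2, x.1), ?_, rfl⟩
      rw [Finset.mem_filter, Finset.mem_product]
      exact ⟨⟨h2, Finset.mem_filter.2 ⟨h1, h5⟩⟩, h3⟩
    refine Finset.mem_union_right _ ?_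
    have h6 := h3
    obtain ⟨-, α, β, e1, e2, e3, -, -, e6, -⟩ := h6
    obtain ⟨m1, m2⟩ := S.sw_mem e6
    unfold Sweep.ChP
    rw [Finset.mem_filter, Finset.mem_product]
    refine ⟨⟨?_, ?_⟩, ch_mono S (Finset.filter_subset _ _) h3⟩
    · exact Finset.mem_filter.2 ⟨h1, ⟨α, e1, by omega, m1⟩, h5⟩
    · exact Finset.mem_filter.2 ⟨h2, ⟨α, e1, by omega, m2⟩, h4⟩
  calc (S.ChP R a b).card ≤ _ := Finset.card_le_card h1
    _ ≤ _ := Finset.card_union_le _ _
    _ ≤ _ := Nat.add_le_add_left (Finset.card_union_le _ _) _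
    _ ≤ _ := by
      have := Finset.card_image_le (s := (R ×ˢ W).filter fun x => S.Ch R a b x.2 x.1)
        (f := Prod.swap)
      omega

end

private theorem ch_kst {s : ℕ} (hs : Even s) (h2 : 2 ≤ s) : ∃ C : ℝ, 0 ≤ C ∧
    ∀ (V : Type) [DecidableEq V] [Fintype V] (S : Sweep V s) (R : Finset V) (q : ℕ), 1 ≤ q →
      ∀ a b m : ℕ, b ≤ S.M → R.card ≤ m → ((S.ChP R a b).card : ℝ) ≤
        2 * ((m : ℝ) ^ 2 / q + C * (q : ℝ) ^ s * m) + (S.ChP (S.NT R a b) a b).card := by
  obtain ⟨C, hC, h⟩ := kst (s + 1) ((3 * (s + 1)) ^ ((s + 1) ^ 2)) (by omega)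
  refine ⟨C, hC, fun V _ _ S R q hq a b m hb hm => ?_⟩
  have h3 : (R.filter fun w => S.Tot a b w).card ≤ m :=
    (Finset.card_le_card (Finset.filter_subset _ _)).trans hm
  have k1 := h V R (R.filter fun w => S.Tot a b w) (fun u w => S.Ch R a b u w) (by
    intro A hA hAc
    refine S.kab_up hs h2 R (a := a) (b := b) hb A _ hA hAc ?_ ?_ ?_
    · intro w hw
      simp only [Finset.mem_filter] at hw
      exact hw.1.1
    · intro w hw
      simp only [Finset.mem_filter] at hw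
      exact hw.1.2
    · intro w hw
      simp only [Finset.mem_filter] at hw
      exact hw.2) q hq m hm h3
  have k2 := h V R (R.filter fun w => S.Tot a b w) (fun u w => S.Ch R a b w u) (by
    intro A hA hAc
    refine S.kab_down hs h2 R (a := a) (b := b) hb A _ hA hAc ?_ ?_ ?_
    · intro w hw
      simp only [Finset.mem_filter] at hw
      exact hw.1.1
    · intro w hw
      simp only [Finset.mem_filter] at hw
      exact hw.1.2
    · intro w hw
      simp only [Finset.mem_filter] at hw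
      exact hw.2) q hq m hm h3
  rw [Nat.add_sub_cancel] at k1 k2
  have k3 : ((S.ChP R a b).card : ℝ) ≤
      (((R ×ˢ (R.filter fun w => S.Tot a b w)).filter fun x => S.Ch R a b x.1 x.2).card : ℝ) +
      ((R ×ˢ (R.filter fun w => S.Tot a b w)).filter fun x => S.Ch R a b x.2 x.1).card +
      (S.ChP (S.NT R a b) a b).card := by exact_mod_cast ch_split S R a b
  linarith

private theorem dwin {s : ℕ} (hs : Even s) (h2 : 2 ≤ s) : ∃ C : ℝ, 0 ≤ C ∧
    ∀ (V : Type) [DecidableEq V] [Fintype V] (S : Sweep V s) (q : ℕ), 1 ≤ q →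
      (∀ (R : Finset V) (a b m : ℕ), b ≤ S.M → R.card ≤ m → ((S.ChP R a b).card : ℝ) ≤
        2 * ((m : ℝ) ^ 2 / q + C * (q : ℝ) ^ s * m) + (S.ChP (S.NT R a b) a b).card) ∧
      ∀ (i : ℕ) (R : Finset V) (a b : ℕ), a ≤ b → b ≤ S.M → S.jps R a b ≤ 2 ^ i →
        ((S.ChP (S.NT R a b) a b).card : ℝ) ≤
          2 ^ i * (i + 8 * 2 ^ i / q + 4 * C * (q : ℝ) ^ s * i) := by
  obtain ⟨C, hC, h⟩ := ch_kst hs h2
  refine ⟨C, hC, fun V _ _ S q hq => ⟨fun R a b m => h V S R q hq a b m, fun i => ?_⟩⟩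
  have hq' : (0 : ℝ) < q := by exact_mod_cast hq
  induction i with
  | zero =>
    intro R a b hab hb hj
    have h1 := (nt_card S R hb (a := a)).trans hj
    rw [pow_zero, Finset.card_le_one] at h1
    have h3 : S.ChP (S.NT R a b) a b = ∅ := by
      unfold Sweep.ChP
      rw [Finset.filter_eq_empty_iff]
      intro x hx hc
      rw [Finset.mem_product] at hx
      exact hc.1 (h1 _ hx.1 _ hx.2)
    rw [h3, Finset.card_empty]
    push_cast
    positivity
  | succ i ih =>
    intro R a b hab hb hj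
    set R' := S.NT R a b with hR'
    have h1 : R'.card ≤ 2 ^ (i + 1) := (nt_card S R hb).trans hj
    have h3 : S.jps R' a b ≤ 2 ^ (i + 1) := (jps_mono S (Finset.filter_subset _ _) a b).trans hj
    obtain ⟨c, c1, c2, c3, c4⟩ := halve S R' (2 ^ i) b hab hb
    have c5 : S.jps R' c b ≤ 2 ^ i := by
      rcases c4 with c4 | c4
      · rw [c4, jps_self]; exact Nat.zero_le _
      · have := jps_add S R' c1 c2
        rw [pow_succ] at h3
        omega
    have k1 := h V S R' q hq a c (2 ^ (i + 1)) (c2.trans hb) h1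
    have k2 := h V S R' q hq c b (2 ^ (i + 1)) hb h1
    have k3 := ih R' a c c1 (c2.trans hb) c3
    have k4 := ih R' c b c2 hb c5
    have k5 : ((S.ChP R' a b).card : ℝ) ≤ R'.card + (S.ChP R' a c).card + (S.ChP R' c b).card := by
      exact_mod_cast S.ch_cut hs R' c1 c2 hb
    have k6 : (R'.card : ℝ) ≤ 2 ^ (i + 1) := by exact_mod_cast h1
    push_cast at k1 k2 k3 k4 ⊢
    have e : (2 : ℝ) ^ (i + 1) * ((i + 1) + 8 * 2 ^ (i + 1) / q + 4 * C * (q : ℝ) ^ s * (i + 1)) =
        2 ^ (i + 1) + 4 * ((2 ^ (i + 1)) ^ 2 / q + C * (q : ℝ) ^ s * 2 ^ (i + 1)) +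
          2 * (2 ^ i * (i + 8 * 2 ^ i / q + 4 * C * (q : ℝ) ^ s * i)) := by
      field_simp
      ring
    rw [e]
    linarith

/-- the number of chains of a set of curves. Proof: `kst` with `kab_up`, `kab_down` for the chains
with one curve alive in the whole window; for the others halve the window by the number of the jumps
of `R` in it (`D (i + 1) ≤ 2 ^ (i + 1) + 2 (2 KST (2 ^ (i + 1)) + D i)`). -/
theorem win {s : ℕ} (hs : Even s) (h2 : 2 ≤ s) : ∃ C : ℝ, 0 ≤ C ∧ ∀ (V : Type) [DecidableEq V]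
    [Fintype V] (S : Sweep V s) (R : Finset V) (q : ℕ), 1 ≤ q →
      ((S.ChP R 0 S.M).card : ℝ) ≤ C * ((R.card : ℝ) ^ 2 / q +
        (q : ℝ) ^ s * R.card * (Nat.log 2 (Fintype.card V) + 1)) := by
  obtain ⟨C, hC, h⟩ := dwin hs h2
  refine ⟨138 + 34 * C, by positivity, fun V _ _ S R q hq => ?_⟩
  have hq' : (0 : ℝ) < q := by exact_mod_cast hq
  have hq1 : (1 : ℝ) ≤ q := by exact_mod_cast hq
  obtain ⟨h3, h4⟩ := h V S q hq
  rcases Finset.eq_empty_or_nonempty R with hR | hR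
  · have : S.ChP R 0 S.M = ∅ := by
      unfold Sweep.ChP
      rw [hR]
      simp
    rw [this, hR]
    simp
  have hr : 1 ≤ R.card := hR.card_pos
  set r := R.card with hrdef
  set l := Nat.log 2 r with hl
  have hl1 : 2 ^ l ≤ r := Nat.pow_log_le_self 2 (by omega)
  have hl2 : r < 2 ^ (l + 1) := Nat.lt_pow_succ_log_self (by norm_num) r
  have hl3 : l ≤ Nat.log 2 (Fintype.card V) := Nat.log_mono_right (Finset.card_le_univ R)
  have k1 := h3 R 0 S.M r le_rfl le_rfl
  have k2 := h4 (l + 2) R 0 S.M (Nat.zero_le _) le_rfl (by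
    refine (jps_two S R).trans ?_
    rw [pow_succ, ← hrdef]
    omega)
  set Λ : ℝ := (Nat.log 2 (Fintype.card V) : ℝ) + 1 with hΛ
  have hΛ1 : (1 : ℝ) ≤ Λ := by
    rw [hΛ]
    have : (0 : ℝ) ≤ (Nat.log 2 (Fintype.card V) : ℝ) := Nat.cast_nonneg _
    linarith
  have hi : ((l + 2 : ℕ) : ℝ) ≤ 2 * Λ := by
    have : (l : ℝ) ≤ (Nat.log 2 (Fintype.card V) : ℝ) := by exact_mod_cast hl3
    push_cast
    rw [hΛ]
    have h5 : (0 : ℝ) ≤ (l : ℝ) := Nat.cast_nonneg _
    linarith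
  have hp : (2 : ℝ) ^ (l + 2) ≤ 4 * r := by
    have : ((2 ^ l : ℕ) : ℝ) ≤ r := by exact_mod_cast hl1
    push_cast at this
    rw [pow_add]
    linarith
  have hr1 : (1 : ℝ) ≤ r := by exact_mod_cast hr
  have hQ : (1 : ℝ) ≤ (q : ℝ) ^ s := one_le_pow₀ hq1
  have k3 : (2 : ℝ) ^ (l + 2) * ((l + 2 : ℕ) + 8 * 2 ^ (l + 2) / q +
      4 * C * (q : ℝ) ^ s * (l + 2 : ℕ)) ≤
      4 * r * (2 * Λ + 8 * (4 * r) / q + 4 * C * (q : ℝ) ^ s * (2 * Λ)) := by
    gcongr
  have k4 : ((S.ChP R 0 S.M).card : ℝ) ≤ 2 * ((r : ℝ) ^ 2 / q + C * (q : ℝ) ^ s * r) +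
      4 * r * (2 * Λ + 8 * (4 * r) / q + 4 * C * (q : ℝ) ^ s * (2 * Λ)) :=
    k1.trans (by linarith [k2.trans k3])
  refine k4.trans ?_
  have e1 : (r : ℝ) * Λ ≤ (q : ℝ) ^ s * r * Λ := by
    have : 0 ≤ (r : ℝ) * Λ := by positivity
    nlinarith [mul_le_mul_of_nonneg_right hQ this]
  have e2 : C * (q : ℝ) ^ s * r ≤ C * ((q : ℝ) ^ s * r * Λ) := by
    have : 0 ≤ C * ((q : ℝ) ^ s * r) := by positivity
    nlinarith [mul_le_mul_of_nonneg_left hΛ1 this]
  have e3 : 0 ≤ (q : ℝ) ^ s * r * Λ := by positivity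
  have e4 : 0 ≤ (r : ℝ) ^ 2 / q := by positivity
  have e5 : 0 ≤ C * ((r : ℝ) ^ 2 / q) := by positivity
  have e6 : 4 * (r : ℝ) * (2 * Λ + 8 * (4 * r) / q + 4 * C * (q : ℝ) ^ s * (2 * Λ)) =
      8 * (r * Λ) + 128 * ((r : ℝ) ^ 2 / q) + 32 * (C * ((q : ℝ) ^ s * r * Λ)) := by
    field_simp
    ring
  rw [e6]
  nlinarith

end LUB
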