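import Pool.Agent.LUB2.Samp
import Pool.Agent.LUB2.Win
import Pool.Agent.LUB2.Heavy

/-!
# The number of full pairs
-/

open scoped Classical

namespace LUB

theorem full_card {s : ℕ} (hs : Even s) (h2 : 2 ≤ s) : ∃ A : ℝ, 0 ≤ A ∧ ∀ (V : Type)
    [DecidableEq V] [Fintype V] (S : Sweep V s) (k G q K : ℕ), 1 ≤ G → 1 ≤ q → 1 ≤ K →
      ((S.FuP k G).card : ℝ) ≤ 3 ^ K * A * ((Fintype.card V : ℝ) ^ 2 / q +
        (q : ℝ) ^ s * (G + 1) * Fintype.card V * (Nat.log 2 (Fintype.card V) + 1)) +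
        4 / K * S.N k G := by
  obtain ⟨C, hC, hwin⟩ := win hs h2
  refine ⟨2 * C, by positivity, fun V _ _ S k G q K hG hq hK => ?_⟩
  have hq0 : (1 : ℝ) ≤ q := by exact_mod_cast hq
  have hK0 : (1 : ℝ) ≤ K := by exact_mod_cast hK
  have hG0 : (1 : ℝ) ≤ G := by exact_mod_cast hG
  set ℓ : ℝ := (Nat.log 2 (Fintype.card V) : ℝ) + 1 with hℓ
  have hℓ1 : (1 : ℝ) ≤ ℓ := by
    have : (0 : ℝ) ≤ (Nat.log 2 (Fintype.card V) : ℝ) := by positivity
    linarith
  -- the light pairs
  have hlight := samp ((S.FuO k G).filter fun x => (S.Bad x).card ≤ K * G) S.Bad G K hG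
    (by
      intro p hp
      rw [Finset.mem_filter] at hp
      obtain ⟨hp1, hp2⟩ := hp
      unfold Sweep.FuO at hp1
      rw [Finset.mem_filter] at hp1
      obtain ⟨-, -, α, -, -, hlt⟩ := hp1
      refine ⟨?_, ?_, ?_, hp2⟩
      · intro he
        unfold Sweep.Lt at hlt
        rw [he] at hlt
        exact lt_irrefl _ hlt
      · unfold Sweep.Bad
        rw [Finset.mem_filter]
        exact fun h => h.2.1 rfl
      · unfold Sweep.Bad
        rw [Finset.mem_filter]
        exact fun h => h.2.2.1 rfl)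
    (C * (q : ℝ) ^ s * ℓ) (C / q) (by positivity) (by positivity) (by
      intro R
      have h1 : (((S.FuO k G).filter fun x => (S.Bad x).card ≤ K * G).filter fun p =>
          p.1 ∈ R ∧ p.2 ∈ R ∧ Disjoint R (S.Bad p)) ⊆ S.ChP R 0 S.M := by
        intro x hx
        rw [Finset.mem_filter, Finset.mem_filter] at hx
        exact S.fuO_ch h2 k G hx.1.1 hx.2.1 hx.2.2.1 hx.2.2.2
      have h3 : ((((S.FuO k G).filter fun x => (S.Bad x).card ≤ K * G).filter fun p =>
          p.1 ∈ R ∧ p.2 ∈ R ∧ Disjoint R (S.Bad p)).card : ℝ) ≤ (S.ChP R 0 S.M).card := by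
        exact_mod_cast Finset.card_le_card h1
      refine h3.trans ((hwin V S R q hq).trans (le_of_eq ?_))
      ring)
  -- the heavy pairs
  have hheavy : ((((S.FuO k G).filter fun x => ¬ (S.Bad x).card ≤ K * G).card : ℕ) : ℝ) ≤
      4 / K * S.N k G := by
    have h1 : ((S.FuO k G).filter fun x => ¬ (S.Bad x).card ≤ K * G).card * (K * G) ≤
        4 * G * S.N k G := by
      refine le_trans ?_ (S.heavy h2 k G hG)
      rw [← smul_eq_mul, ← Finset.sum_const]
      refine (Finset.sum_le_sum (g := fun x => (S.Bad x).card) ?_).trans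
        (Finset.sum_le_sum_of_subset (Finset.filter_subset _ _))
      intro x hx
      rw [Finset.mem_filter] at hx
      have := hx.2
      omega
    have h3 : ((((S.FuO k G).filter fun x => ¬ (S.Bad x).card ≤ K * G).card : ℕ) : ℝ) *
        (K * G) ≤ 4 * G * S.N k G := by exact_mod_cast h1
    rw [div_mul_eq_mul_div, le_div_iff₀ (by linarith)]
    have h4 : (((((S.FuO k G).filter fun x => ¬ (S.Bad x).card ≤ K * G).card : ℕ) : ℝ) * K) *
        G ≤ (4 * S.N k G) * G := by linarith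
    exact le_of_mul_le_mul_right h4 (by linarith)
  have hsum : (S.FuO k G).card = ((S.FuO k G).filter fun x => (S.Bad x).card ≤ K * G).card +
      ((S.FuO k G).filter fun x => ¬ (S.Bad x).card ≤ K * G).card :=
    (Finset.card_filter_add_card_filter_not _).symm
  have h5 : ((S.FuP k G).card : ℝ) ≤ (S.FuO k G).card := by
    exact_mod_cast S.fuO_card h2 k G
  have h6 : ((S.FuO k G).card : ℝ) =
      (((S.FuO k G).filter fun x => (S.Bad x).card ≤ K * G).card : ℝ) +
        (((S.FuO k G).filter fun x => ¬ (S.Bad x).card ≤ K * G).card : ℝ) := by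
    exact_mod_cast hsum
  have h7 : (3 : ℝ) ^ K * (C / q * (Fintype.card V : ℝ) ^ 2 +
      (C * (q : ℝ) ^ s * ℓ + C / q) * (G + 1) * Fintype.card V) ≤
      3 ^ K * (2 * C) * ((Fintype.card V : ℝ) ^ 2 / q +
        (q : ℝ) ^ s * (G + 1) * Fintype.card V * ℓ) := by
    have e0 : ∀ x : ℝ, (3 : ℝ) ^ K * (2 * C) * x = 3 ^ K * (2 * C * x) := fun x => mul_assoc _ _ _
    rw [e0]
    apply mul_le_mul_of_nonneg_left _ (by positivity)
    have hqs : (1 : ℝ) ≤ (q : ℝ) ^ s := one_le_pow₀ hq0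
    have h8 : C / q ≤ C * (q : ℝ) ^ s * ℓ := by
      rw [div_le_iff₀ (by linarith)]
      have e1 : C * 1 ≤ C * ((q : ℝ) ^ s * ℓ * q) := by
        apply mul_le_mul_of_nonneg_left _ hC
        have : (1 : ℝ) * 1 * 1 ≤ (q : ℝ) ^ s * ℓ * q := by gcongr
        linarith
      linarith
    have h9 : 0 ≤ C / q * (Fintype.card V : ℝ) ^ 2 := by positivity
    have h10 : (C * (q : ℝ) ^ s * ℓ + C / q) * (G + 1) * Fintype.card V ≤
        (C * (q : ℝ) ^ s * ℓ + C * (q : ℝ) ^ s * ℓ) * (G + 1) * Fintype.card V := by gcongr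
    have h11 : 2 * C * ((Fintype.card V : ℝ) ^ 2 / q +
        (q : ℝ) ^ s * (G + 1) * Fintype.card V * ℓ) =
        C / q * (Fintype.card V : ℝ) ^ 2 + C / q * (Fintype.card V : ℝ) ^ 2 +
        (C * (q : ℝ) ^ s * ℓ + C * (q : ℝ) ^ s * ℓ) * (G + 1) * Fintype.card V := by ring
    rw [h11]
    linarith
  linarith

end LUB
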