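import Pool.Agent.LUB.Final
import Pool.Agent.LUB2.AnaE
import Pool.Agent.LUB2.CoreE
import Pool.Agent.LUB2.Full

/-!
# Upper bounds for a level, even `s`: assembly
-/

namespace LUB

open LevelLower

theorem Sweep.N_succ {V : Type} [DecidableEq V] [Fintype V] {s : ℕ} (S : Sweep V s) (k h : ℕ) :
    S.N k h ≤ S.N k (h + 1) := by
  unfold Sweep.N
  apply Finset.card_le_card
  intro t ht
  rw [Finset.mem_filter] at ht ⊢
  exact ⟨ht.1, ht.2.1, by omega, by omega⟩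

theorem Sweep.N_le {V : Type} [DecidableEq V] [Fintype V] {s : ℕ} (S : Sweep V s) (k g : ℕ) :
    S.N k g ≤ s * Fintype.card V ^ 2 := by
  have h := Finset.card_le_mul_card_image_of_maps_to
    (s := (Finset.range S.M).filter fun t => S.gap t ≠ 0 ∧ k < S.gap t + g ∧ S.gap t < k + g)
    (t := (Finset.univ : Finset (V × V))) (f := fun t => (S.x t, S.y t))
    (fun _ _ => Finset.mem_univ _) s ?_
  · rw [Finset.card_univ, Fintype.card_prod, ← sq] at h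
    exact h
  · rintro ⟨u, v⟩ -
    by_cases huv : u = v
    · subst huv
      rw [Finset.card_eq_zero.2]
      · exact Nat.zero_le _
      · rw [Finset.filter_eq_empty_iff]
        intro t ht hxy
        rw [Finset.mem_filter, Finset.mem_range] at ht
        have := (S.xy ht.1 ht.2.1).1
        rw [Prod.mk.injEq] at hxy
        exact this (hxy.1.trans hxy.2.symm)
    · refine le_trans (Finset.card_le_card ?_) (S.budget u v huv)
      intro t ht
      rw [Finset.mem_filter, Finset.mem_filter, Prod.mk.injEq] at ht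
      rw [Finset.mem_filter]
      exact ⟨ht.1.1, ht.1.2.1, by rw [ht.2.1, ht.2.2]⟩

/-- the number of exchanges at the gap, for even `s` -/
theorem sweep_even (s : ℕ) (hs : Even s) (h4 : 4 ≤ s) (ε : ℝ) (hε : 0 < ε) :
    ∃ C : ℝ, 0 ≤ C ∧ ∀ n : ℕ, 1 ≤ n → ∀ (S : Sweep (Fin n) s) (k : ℕ),
      (S.N k 2 : ℝ) ≤ C * (n : ℝ) ^ (2 - 1 / (2 * (s : ℝ) - 3) + ε) := by
  obtain ⟨A₁, hA₁, hcore⟩ := core_e hs h4
  obtain ⟨A₂, hA₂, hfull⟩ := full_card hs (by omega)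
  obtain ⟨C, hC, hana⟩ := ana_e s h4 (A₁ + A₂ + s) (by positivity) ε hε
  refine ⟨C, hC, fun n hn S k => ?_⟩
  refine hana n hn (fun h => (S.N k h : ℝ)) (fun G => ((S.FuP k G).card : ℝ)) ?_ ?_ ?_
  · intro h
    refine ⟨Nat.cast_nonneg _, by exact_mod_cast S.N_succ k h, ?_⟩
    have h1 := S.N_le k h
    rw [Fintype.card_fin] at h1
    have h2 : (S.N k h : ℝ) ≤ s * (n : ℝ) ^ 2 := by exact_mod_cast h1
    refine h2.trans (mul_le_mul_of_nonneg_right (by linarith) (by positivity))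
  · intro G q K hG hq hK
    have h1 := hfull (Fin n) S k G q K hG hq hK
    rw [Fintype.card_fin] at h1
    refine h1.trans (add_le_add_left ?_ _)
    have h2 : (0 : ℝ) ≤ s := by positivity
    gcongr
    linarith
  · intro G
    obtain ⟨X, hX1, hX2⟩ := hcore (Fin n) S k G
    refine ⟨X, hX1, fun h hh hG => ?_⟩
    have h1 := hX2 h hh hG
    rw [Fintype.card_fin] at h1
    refine h1.trans (add_le_add_right ?_ _)
    have h2 : (0 : ℝ) ≤ s := by positivity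
    have h3 : (S.N k G : ℝ) ≤ S.N k (G + 1) := by exact_mod_cast S.N_succ k G
    have h4 : (0 : ℝ) ≤ (S.N k (G + 1) : ℝ) - S.N k G := by linarith
    have h5 : (0 : ℝ) ≤ n * h + (h : ℝ) ^ 2 + h * ((S.N k (G + 1) : ℝ) - S.N k G) +
        (S.FuP k G).card := by positivity
    exact mul_le_mul_of_nonneg_right (by linarith) h5

/-- the upper bound, for every even `s ≥ 4`, for every single family and for the maximum -/
theorem main_even (s : ℕ) (hs : Even s) (h4 : 4 ≤ s) (ε : ℝ) (hε : 0 < ε) :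
    ∃ C : ℝ, ∀ n : ℕ, 1 ≤ n →
      (∀ Γ : Fin n → XArc, Intersecting s Γ → ∀ k,
        (psi Γ k : ℝ) ≤ C * (n : ℝ) ^ (2 - 1 / (2 * (s : ℝ) - 3) + ε)) ∧
      (Psi s n : ℝ) ≤ C * (n : ℝ) ^ (2 - 1 / (2 * (s : ℝ) - 3) + ε) := by
  classical
  have h4' : (4 : ℝ) ≤ s := by exact_mod_cast h4
  obtain ⟨C, hC, hsweep⟩ := sweep_even s hs h4 ε hε
  refine ⟨6 + 2 * (s * (3 + C)), fun n hn => ?_⟩
  have hn' : (1 : ℝ) ≤ n := by exact_mod_cast hn
  have hexp : (1 : ℝ) ≤ 2 - 1 / (2 * (s : ℝ) - 3) + ε := by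
    have : 1 / (2 * (s : ℝ) - 3) ≤ 1 := by
      rw [div_le_one (by linarith)]; linarith
    linarith
  have hpow : (n : ℝ) ≤ (n : ℝ) ^ (2 - 1 / (2 * (s : ℝ) - 3) + ε) := by
    calc (n : ℝ) = (n : ℝ) ^ (1 : ℝ) := (Real.rpow_one _).symm
      _ ≤ _ := Real.rpow_le_rpow_of_exponent_le hn' hexp
  set Y : ℝ := (n : ℝ) ^ (2 - 1 / (2 * (s : ℝ) - 3) + ε) with hY
  have hY0 : 0 ≤ Y := by linarith
  -- the bound for one sweep
  have hN : ∀ (κ : ℕ) (S : Sweep (Fin n) s), S.N κ 2 ≤ ⌊C * Y⌋₊ := by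
    intro κ S
    exact Nat.le_floor (hsweep n hn S κ)
  -- one family
  have hpsi : ∀ (Γ : Fin n → XArc), Intersecting s Γ → ∀ k, psi Γ k ≤
      6 * n + 2 * (s * (1 + 2 * n + ⌊C * Y⌋₊)) := by
    intro Γ hΓ k
    obtain ⟨P⟩ := exists_samp hΓ
    have h1 := P.psi_le hΓ k
    have h2 := card_meet hn hΓ P k _ (hN k)
    have h4 := card_meet hn hΓ P (k + 1) _ (hN (k + 1))
    calc psi Γ k ≤ _ := h1
      _ ≤ 6 * n + s * (1 + 2 * n + ⌊C * Y⌋₊) + s * (1 + 2 * n + ⌊C * Y⌋₊) := by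
          gcongr
      _ = _ := by ring
  have hPsi : Psi s n ≤ 6 * n + 2 * (s * (1 + 2 * n + ⌊C * Y⌋₊)) := by
    apply csSup_le'
    rintro m ⟨Γ, hΓ, k, _, rfl⟩
    exact hpsi Γ hΓ k
  have hfl : ((⌊C * Y⌋₊ : ℕ) : ℝ) ≤ C * Y := Nat.floor_le (mul_nonneg hC hY0)
  have key : ∀ m : ℕ, m ≤ 6 * n + 2 * (s * (1 + 2 * n + ⌊C * Y⌋₊)) →
      (m : ℝ) ≤ (6 + 2 * (s * (3 + C))) * Y := by
    intro m hm
    calc (m : ℝ) ≤ ((6 * n + 2 * (s * (1 + 2 * n + ⌊C * Y⌋₊)) : ℕ) : ℝ) := by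
          exact_mod_cast hm
      _ = 6 * (n : ℝ) + 2 * (s * (1 + 2 * n + ((⌊C * Y⌋₊ : ℕ) : ℝ))) := by push_cast; ring
      _ ≤ 6 * Y + 2 * (s * (Y + 2 * Y + C * Y)) := by
          gcongr
          linarith
      _ = (6 + 2 * (s * (3 + C))) * Y := by ring
  exact ⟨fun Γ hΓ k => key _ (hpsi Γ hΓ k), key _ hPsi⟩

end LUB
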