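import Pool.Agent.LUB2.PcB

/-!
# Upper bounds for a level, even `s`: the forward part of the key lemma
-/

open scoped Classical

namespace LUB

variable {V : Type} [DecidableEq V] [Fintype V] {s : ℕ}

open KeyF in
theorem Sweep.key_fe (hs : Even s) (h4 : 4 ≤ s) (S : Sweep V s) {k G g : ℕ} (hg : 1 ≤ g)
    (hgG : g < G) {t : ℕ} {c : V} (hq : (t, c) ∈ S.NLe k G g)
    (hx : ∃ t', t < t' ∧ S.Sw t' s(S.x t, S.y t) ∧ S.Rn k G t (t' + 1) s(S.x t, S.y t) ∧
      ∀ u, t ≤ u → u ≤ t' → S.In k G u c) :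
    (∃ b, t + 1 ≤ b ∧ b ≤ S.M ∧ S.Rn k g (t + 1) b s(S.en k g t, c) ∧
      (b = S.M ∨ ¬ S.J k g (b + 1) s(S.en k g t, c)) ∧ 0 < S.pc k G b s(S.en k g t, c) ∧
      ¬ S.RBe k G g b s(S.en k g t, c) ∧ ¬ S.LMee k G g b s(S.en k g t, c)) ∨
    (∃ e, t < e ∧ e < S.M ∧ (∀ u, t < u → u ≤ e → ¬ S.In k g u (S.ex k g t)) ∧ S.In k g e c ∧
      S.In k g (e + 1) c ∧ S.In k g (e + 1) (S.ex k g t) ∧
      S.pc k G (e + 1) s(S.ex k g t, c) + 1 = s) := by
  simp only [Sweep.NLe, Finset.mem_filter, Sweep.Q, Finset.mem_product, Finset.mem_range,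
    Finset.mem_univ, and_true] at hq
  obtain ⟨⟨htM, hBd, hc0, hc1⟩, ⟨hfe, τ1, l1, l2, l3, l4⟩, ⟨hfx, τ0, r1, r2, r3, r4⟩⟩ := hq
  obtain ⟨b1, b2, b3, b4, b5, b6⟩ := S.bd hg htM hBd
  obtain ⟨t2, ht2, hsw2, hRn2, hct2⟩ := hx
  rw [← b6] at hsw2 hRn2
  generalize hen : S.en k g t = en at *
  generalize hex : S.ex k g t = ex at *
  have hτ1M : τ1 < S.M := l3.1
  have ht2M : t2 < S.M := hsw2.1
  have hgG' : g ≤ G := hgG.le
  -- the curves are different
  have hJ1 : S.J k g (t + 1) s(en, c) := l2 (t + 1) le_rfl (by omega)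
  have hJ0 : S.J k g t s(ex, c) := r2 t r1.le le_rfl
  have hcen : en ≠ c := fun h => hJ1.1 (by rw [h]; exact Sym2.diag_isDiag c)
  have hcex : ex ≠ c := fun h => hJ0.1 (by rw [h]; exact Sym2.diag_isDiag c)
  -- the last moment of the run of {en, c}
  obtain ⟨b, hb1, hb2, hb3, hb4⟩ := runLast S (S.M - (t + 1)) (t + 1) (by omega) hJ1
  have hτb : τ1 + 1 ≤ b := by
    by_contra hn
    push Not at hn
    rcases hb4 with h | h
    · omega
    · exact h (l2 (b + 1) (by omega) (by omega))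
  by_cases hRB : S.RBe k G g b s(en, c)
  · right
    obtain ⟨-, τ, q1, q2, q3, q4⟩ := hRB
    -- the runs in the outer band
    have hout : ∀ v ∈ s(ex, en), ∀ u, t ≤ u → u ≤ t2 + 1 → S.In k G u v :=
      fun v hv u h1 h2 => (hRn2 u h1 h2).2 v hv
    have hRxc : S.Rn k G t t2 s(ex, c) := S.rn_mk hcex
      (fun u h1 h2 => hout ex (Sym2.mem_mk_left _ _) u h1 (by omega)) hct2
    have hRec : S.Rn k G t t2 s(en, c) := S.rn_mk hcen
      (fun u h1 h2 => hout en (Sym2.mem_mk_right _ _) u h1 (by omega)) hct2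
    have hτt : t + 1 ≤ τ := by
      by_contra hn
      push Not at hn
      exact b3 ((q2 t (by omega) (by omega)).2 en (Sym2.mem_mk_left _ _))
    -- the counts
    have hcex_s : ∀ T, t ≤ T → T ≤ t2 → S.pc k G T s(ex, c) + 1 = s := by
      intro T hT hT2
      have h1 := S.pc_le hfx (show T ≤ S.M by omega)
      have h2 := S.pc_sw r3 r1 (r2.mono hgG')
      have h3 := S.pc_mono hT (hRxc.sub le_rfl hT2)
      omega
    have hcen_0 : S.pc k G (t + 1) s(en, c) = 0 := by
      have := S.pc_mono l1 ((l2.sub le_rfl (by omega)).mono hgG')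
      omega
    have hττ : τ1 < τ := by
      by_contra hn
      push Not at hn
      have := S.pc_mono hn (((l2.sub hτt (by omega)) : S.Rn k g τ τ1 s(en, c)).mono hgG')
      omega
    -- t2 < τ
    have hlt : t2 < τ := by
      by_contra hn
      push Not at hn
      have hne : t2 ≠ τ := by
        rintro rfl
        have e1 : s(ex, en) = s(en, c) := hsw2.2.2.symm.trans q3.2.2
        rw [Sym2.eq_iff] at e1
        rcases e1 with ⟨e1, -⟩ | ⟨e1, -⟩
        · exact b5 e1
        · exact hcex e1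
      have hτt2 : τ < t2 := by omega
      have hcen_s : S.pc k G t2 s(en, c) + 1 = s := by
        have h1 := S.pc_le hfe ht2M.le
        have h2 := S.pc_sw q3 hτt2 (hRec.sub (by omega) le_rfl)
        omega
      have hgap : S.gap t ≠ 0 := hBd.1
      have hswt : S.Sw t s(ex, en) := ⟨htM, hgap, b6.symm⟩
      have hcL0 : c ∈ S.L t := hc0.1
      have f1 := S.lt_iff_pc (show t + 1 ≤ t2 by omega) ht2M.le (Ne.symm hcex)
        (Sym2.eq_swap (a := c) (b := ex) ▸ hRxc.sub (by omega) le_rfl)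
      have f2 := S.lt_iff_pc (show t + 1 ≤ t2 by omega) ht2M.le (Ne.symm hcen)
        (Sym2.eq_swap (a := c) (b := en) ▸ hRec.sub (by omega) le_rfl)
      rw [Sym2.eq_swap] at f1 f2
      have g3 := hcex_s (t + 1) (by omega) (by omega)
      have g4 := hcex_s t2 (by omega) le_rfl
      rw [Nat.even_iff] at f1 f2 hs
      have f1' : S.Lt t2 c ex ↔ S.Lt (t + 1) c ex := f1.2 (by omega)
      have f2' : ¬ (S.Lt t2 c en ↔ S.Lt (t + 1) c en) := fun h => by
        have := f2.1 h
        omega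
      have g1 := S.adj hswt hcL0 (Ne.symm hcex) (Ne.symm hcen)
      have g2 := S.adj hsw2 (hct2 t2 (by omega) le_rfl).1 (Ne.symm hcex) (Ne.symm hcen)
      exact f2' (g2.1.symm.trans (f1'.trans g1.2.1))
    -- ex is in the band at t2
    have hin2 : S.In k g t2 en := (hb3 t2 (by omega) (by omega)).2 en (Sym2.mem_mk_left _ _)
    have hin2' : S.In k g (t2 + 1) en := (hb3 (t2 + 1) (by omega) (by omega)).2 en
      (Sym2.mem_mk_left _ _)
    have hsw2' : S.Sw t2 s(en, ex) := by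
      rw [Sym2.eq_swap]
      exact hsw2
    have hexin := (S.sw_in hg hsw2' hin2 hin2').1
    -- the first moment
    have hfind : ∃ u, t < u ∧ S.In k g u ex := ⟨t2, ht2, hexin⟩
    have hw := Nat.find_spec hfind
    have hwmin : ∀ u, t < u → u < Nat.find hfind → ¬ S.In k g u ex := fun u hu hu2 hin =>
      Nat.find_min hfind hu2 ⟨hu, hin⟩
    have hwle : Nat.find hfind ≤ t2 := Nat.find_min' hfind ⟨ht2, hexin⟩
    generalize Nat.find hfind = w at *
    have hw1 : w ≠ t + 1 := by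
      rintro rfl
      exact b2 hw.2
    have hcin : ∀ u, t + 1 ≤ u → u ≤ b → S.In k g u c := fun u h1 h2 =>
      (hb3 u h1 h2).2 c (Sym2.mem_mk_right _ _)
    have hwe : w - 1 + 1 = w := by omega
    refine ⟨w - 1, by omega, by omega, fun u h1 h2 => hwmin u h1 (by omega),
      hcin _ (by omega) (by omega), ?_, ?_, ?_⟩
    · rw [hwe]
      exact hcin _ (by omega) (by omega)
    · rw [hwe]
      exact hw.2
    · exact hcex_s _ (by omega) (by omega)
  · left
    refine ⟨b, hb1, hb2, hb3, hb4, ?_, hRB, ?_⟩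
    · have := S.pc_sw l3 (show τ1 < b by omega) ((hb3.sub l1 le_rfl).mono hgG')
      omega
    · rintro ⟨-, τ, q1, q2, q3, q4, q5, q6⟩
      have hp : s(S.x τ, S.y τ) = s(en, c) := q3.2.2
      have e := q6 τ1 (by rw [hp]; exact l3) (by
        rw [hp]
        intro u h1 h2
        by_cases h4 : τ ≤ u
        · exact q2 u h4 (by omega)
        · exact hb3 u (by omega) (by omega))
      rw [← e] at q4
      omega

end LUB
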