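import Mathlib

/-!
# The theorem of Kővári, Sós and Turán, as a bound linear in `m ^ 2 / q`
-/

open scoped Classical

namespace LUB

/-- The degree of `w` in the bipartite graph. -/
private noncomputable def kdeg {V : Type} (R : Finset V) (P : V → V → Prop) (w : V) : ℕ :=
  (R.filter fun u => P u w).card

/-- Double counting of the pairs (`a`-subset of `R`, common neighbour). -/
private theorem kst_double {V : Type} [DecidableEq V] (R W : Finset V) (P : V → V → Prop)
    (a B : ℕ)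
    (h : ∀ A ⊆ R, A.card = a → (W.filter fun w => ∀ u ∈ A, P u w).card ≤ B) :
    ∑ w ∈ W, (kdeg R P w).choose a ≤ B * R.card.choose a := by
  have h1 : ∀ w ∈ W, (kdeg R P w).choose a =
      ((R.powersetCard a).filter fun A => ∀ u ∈ A, P u w).card := by
    intro w _
    unfold kdeg
    rw [← Finset.card_powersetCard]
    congr 1
    ext A
    simp only [Finset.mem_powersetCard, Finset.mem_filter]
    constructor
    · rintro ⟨h1, h2⟩
      exact ⟨⟨fun u hu => (Finset.mem_filter.1 (h1 hu)).1, h2⟩,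
        fun u hu => (Finset.mem_filter.1 (h1 hu)).2⟩
    · rintro ⟨⟨h1, h2⟩, h3⟩
      exact ⟨fun u hu => Finset.mem_filter.2 ⟨h1 hu, h3 u hu⟩, h2⟩
  rw [Finset.sum_congr rfl h1]
  have h2 := Finset.sum_card_bipartiteAbove_eq_sum_card_bipartiteBelow
    (s := W) (t := R.powersetCard a) (fun w A => ∀ u ∈ A, P u w)
  simp only [Finset.bipartiteAbove, Finset.bipartiteBelow] at h2
  rw [h2]
  calc ∑ A ∈ R.powersetCard a, (W.filter fun w => ∀ u ∈ A, P u w).card
      ≤ ∑ _A ∈ R.powersetCard a, B := by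
        refine Finset.sum_le_sum fun A hA => ?_
        rw [Finset.mem_powersetCard] at hA
        exact h A hA.1 hA.2
    _ = B * R.card.choose a := by
        rw [Finset.sum_const, Finset.card_powersetCard, smul_eq_mul, mul_comm]

/-- The number of edges is the sum of the degrees. -/
private theorem kst_edges {V : Type} [DecidableEq V] (R W : Finset V) (P : V → V → Prop) :
    ((R ×ˢ W).filter fun x => P x.1 x.2).card = ∑ w ∈ W, kdeg R P w := by
  unfold kdeg
  simp only [Finset.card_filter]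
  rw [Finset.sum_product_right]

/-- A degree is at most `m / q + 2 a + (q / m) ^ (a - 1) 2 ^ a a! C(d, a)`. -/
private theorem kst_deg (a d q m : ℕ) (ha : 1 ≤ a) (hq : 1 ≤ q) (hm : 1 ≤ m) :
    (d : ℝ) ≤ (m : ℝ) / q + 2 * a +
      ((q : ℝ) / m) ^ (a - 1) * (2 ^ a * (a.factorial * d.choose a : ℕ)) := by
  have hq' : (0 : ℝ) < q := by exact_mod_cast hq
  have hm' : (0 : ℝ) < m := by exact_mod_cast hm
  have h0 : 0 ≤ ((q : ℝ) / m) ^ (a - 1) * (2 ^ a * (a.factorial * d.choose a : ℕ)) := by positivity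
  have h1 : 0 ≤ (m : ℝ) / q := by positivity
  by_cases hd : d < 2 * a
  · have : (d : ℝ) ≤ 2 * a := by exact_mod_cast hd.le
    linarith
  push Not at hd
  by_cases hd2 : (d : ℝ) ≤ (m : ℝ) / q
  · have : (0 : ℝ) ≤ 2 * a := by positivity
    linarith
  push Not at hd2
  have hd0 : (0 : ℝ) < d := lt_of_le_of_lt h1 hd2
  -- `(d / 2) ^ a ≤ a! C(d, a)`
  have h3 : ((d : ℝ)) ^ a ≤ 2 ^ a * (a.factorial * d.choose a : ℕ) := by
    rw [← Nat.descFactorial_eq_factorial_mul_choose]
    have h4 : (d + 1 - a) ^ a ≤ d.descFactorial a := Nat.pow_sub_le_descFactorial d a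
    have h5 : (d : ℝ) ≤ 2 * ((d + 1 - a : ℕ) : ℝ) := by
      have : d ≤ 2 * (d + 1 - a) := by omega
      exact_mod_cast this
    calc (d : ℝ) ^ a ≤ (2 * ((d + 1 - a : ℕ) : ℝ)) ^ a := pow_le_pow_left₀ hd0.le h5 a
      _ = 2 ^ a * (((d + 1 - a) ^ a : ℕ) : ℝ) := by push_cast; rw [mul_pow]
      _ ≤ 2 ^ a * (d.descFactorial a : ℝ) := by
          refine mul_le_mul_of_nonneg_left ?_ (by positivity)
          exact_mod_cast h4
  -- `1 ≤ d q / m`
  have h6 : 1 ≤ (q : ℝ) / m * d := by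
    rw [div_lt_iff₀ hq'] at hd2
    rw [div_mul_eq_mul_div, le_div_iff₀ hm']
    linarith
  have h7 : (1 : ℝ) ≤ ((q : ℝ) / m * d) ^ (a - 1) := one_le_pow₀ h6
  have h8 : (d : ℝ) ≤ ((q : ℝ) / m) ^ (a - 1) * (d : ℝ) ^ a := by
    calc (d : ℝ) = 1 * d := (one_mul _).symm
      _ ≤ ((q : ℝ) / m * d) ^ (a - 1) * d := mul_le_mul_of_nonneg_right h7 hd0.le
      _ = ((q : ℝ) / m) ^ (a - 1) * (d : ℝ) ^ a := by
          rw [mul_pow, mul_assoc, ← pow_succ, Nat.sub_add_cancel ha]
  have h9 : ((q : ℝ) / m) ^ (a - 1) * (d : ℝ) ^ a ≤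
      ((q : ℝ) / m) ^ (a - 1) * (2 ^ a * (a.factorial * d.choose a : ℕ)) :=
    mul_le_mul_of_nonneg_left h3 (by positivity)
  have : (0 : ℝ) ≤ 2 * a := by positivity
  linarith

/-- A bipartite graph between `R` and `W` (at most `m` vertices each) in which every `a` vertices of
`R` have at most `B` common neighbours has at most `m ^ 2 / q + C q ^ (a - 1) m` edges. -/
theorem kst (a B : ℕ) (ha : 1 ≤ a) : ∃ C : ℝ, 0 ≤ C ∧ ∀ (V : Type) [DecidableEq V]
    (R W : Finset V) (P : V → V → Prop),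
    (∀ A ⊆ R, A.card = a → (W.filter fun w => ∀ u ∈ A, P u w).card ≤ B) →
    ∀ q : ℕ, 1 ≤ q → ∀ m : ℕ, R.card ≤ m → W.card ≤ m →
      (((R ×ˢ W).filter fun x => P x.1 x.2).card : ℝ) ≤
        (m : ℝ) ^ 2 / q + C * (q : ℝ) ^ (a - 1) * m := by
  refine ⟨2 * a + 2 ^ a * B, by positivity, ?_⟩
  intro V _ R W P h q hq m hR hW
  have hq' : (0 : ℝ) < q := by exact_mod_cast hq
  have hq1 : (1 : ℝ) ≤ q := by exact_mod_cast hq
  rcases Nat.eq_zero_or_pos m with hm | hm
  · subst hm
    have hW0 : W = ∅ := Finset.card_eq_zero.1 (Nat.le_zero.1 hW)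
    subst hW0
    simp
  have hm' : (0 : ℝ) < m := by exact_mod_cast hm
  have hdc := kst_double R W P a B h
  rw [kst_edges R W P]
  push_cast
  calc ∑ w ∈ W, (kdeg R P w : ℝ)
      ≤ ∑ w ∈ W, ((m : ℝ) / q + 2 * a + ((q : ℝ) / m) ^ (a - 1) *
          (2 ^ a * (a.factorial * (kdeg R P w).choose a : ℕ))) :=
        Finset.sum_le_sum fun w _ => kst_deg a (kdeg R P w) q m ha hq hm
    _ = (W.card : ℝ) * ((m : ℝ) / q + 2 * a) + ((q : ℝ) / m) ^ (a - 1) * (2 ^ a *
          ((a.factorial * ∑ w ∈ W, (kdeg R P w).choose a : ℕ) : ℝ)) := by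
        rw [Finset.sum_add_distrib, Finset.sum_const, nsmul_eq_mul, ← Finset.mul_sum,
          ← Finset.mul_sum, Finset.mul_sum (f := fun w => (kdeg R P w).choose a)]
        push_cast
        ring
    _ ≤ (m : ℝ) * ((m : ℝ) / q + 2 * a) + ((q : ℝ) / m) ^ (a - 1) * (2 ^ a *
          ((B * m ^ a : ℕ) : ℝ)) := by
        have e1 : (W.card : ℝ) ≤ m := by exact_mod_cast hW
        have e2 : (0 : ℝ) ≤ (m : ℝ) / q + 2 * a := by positivity
        have e3 : a.factorial * ∑ w ∈ W, (kdeg R P w).choose a ≤ B * m ^ a := by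
          calc a.factorial * ∑ w ∈ W, (kdeg R P w).choose a
              ≤ a.factorial * (B * R.card.choose a) := Nat.mul_le_mul_left _ hdc
            _ = B * (a.factorial * R.card.choose a) := by ring
            _ = B * R.card.descFactorial a := by
                rw [Nat.descFactorial_eq_factorial_mul_choose]
            _ ≤ B * R.card ^ a := Nat.mul_le_mul_left _ (Nat.descFactorial_le_pow _ _)
            _ ≤ B * m ^ a := Nat.mul_le_mul_left _ (Nat.pow_le_pow_left hR a)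
        have e4 : ((a.factorial * ∑ w ∈ W, (kdeg R P w).choose a : ℕ) : ℝ) ≤
            ((B * m ^ a : ℕ) : ℝ) := by exact_mod_cast e3
        refine add_le_add (mul_le_mul_of_nonneg_right e1 e2) ?_
        refine mul_le_mul_of_nonneg_left ?_ (by positivity)
        exact mul_le_mul_of_nonneg_left e4 (by positivity)
    _ = (m : ℝ) ^ 2 / q + 2 * a * m + 2 ^ a * B * (q : ℝ) ^ (a - 1) * m := by
        push_cast
        obtain ⟨b, rfl⟩ : ∃ b, a = b + 1 := ⟨a - 1, (Nat.sub_add_cancel ha).symm⟩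
        rw [Nat.add_sub_cancel, div_pow]
        have : (m : ℝ) ^ b ≠ 0 := by positivity
        field_simp
        ring
    _ ≤ (m : ℝ) ^ 2 / q + (2 * a + 2 ^ a * B) * (q : ℝ) ^ (a - 1) * m := by
        have e1 : (1 : ℝ) ≤ (q : ℝ) ^ (a - 1) := one_le_pow₀ hq1
        have e2 : (0 : ℝ) ≤ 2 * a * m := by positivity
        nlinarith [mul_le_mul_of_nonneg_left e1 e2]

end LUB
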