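import Pool.Agent.LUB2.EDefs

/-!
# Upper bounds for a level, even `s`: the number of exchanges in the outer presence
-/

open scoped Classical

namespace LUB

variable {V : Type} [DecidableEq V] [Fintype V] {s : ℕ}

theorem Sweep.In.mono {S : Sweep V s} {k g G t : ℕ} {v : V} (h : S.In k g t v) (hg : g ≤ G) :
    S.In k G t v := by
  obtain ⟨h1, h2, h3⟩ := h
  exact ⟨h1, by omega, by omega⟩

theorem Sweep.J.mono {S : Sweep V s} {k g G t : ℕ} {p : Sym2 V} (h : S.J k g t p) (hg : g ≤ G) :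
    S.J k G t p := ⟨h.1, fun v hv => (h.2 v hv).mono hg⟩

theorem Sweep.Rn.mono {S : Sweep V s} {k g G a b : ℕ} {p : Sym2 V} (h : S.Rn k g a b p)
    (hg : g ≤ G) : S.Rn k G a b p := fun u h1 h2 => (h u h1 h2).mono hg

theorem Sweep.Rn.sub {S : Sweep V s} {k g a b a' b' : ℕ} {p : Sym2 V} (h : S.Rn k g a b p)
    (ha : a ≤ a') (hb : b' ≤ b) : S.Rn k g a' b' p := fun u h1 h2 => h u (by omega) (by omega)

theorem Sweep.Rn.trans {S : Sweep V s} {k g a b c : ℕ} {p : Sym2 V} (h : S.Rn k g a b p)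
    (h' : S.Rn k g b c p) : S.Rn k g a c p := by
  intro u h1 h2
  rcases le_total u b with h3 | h3
  · exact h u h1 h3
  · exact h' u h3 h2

theorem Sweep.rn_mk (S : Sweep V s) {k g a b : ℕ} {u v : V} (huv : u ≠ v)
    (hu : ∀ t, a ≤ t → t ≤ b → S.In k g t u) (hv : ∀ t, a ≤ t → t ≤ b → S.In k g t v) :
    S.Rn k g a b s(u, v) := by
  intro t h1 h2
  refine ⟨fun h => huv (by simpa using h), ?_⟩
  intro w hw
  rcases Sym2.mem_iff.1 hw with rfl | rfl
  · exact hu t h1 h2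
  · exact hv t h1 h2

theorem Sweep.pc_mono (S : Sweep V s) {k G a b : ℕ} {p : Sym2 V} (hab : a ≤ b)
    (h : S.Rn k G a b p) : S.pc k G a p ≤ S.pc k G b p := by
  unfold Sweep.pc
  apply Finset.card_le_card
  intro u hu
  rw [Finset.mem_filter, Finset.mem_range] at hu ⊢
  exact ⟨lt_of_lt_of_le hu.1 hab, hu.2.1, hu.2.2.trans h⟩

theorem Sweep.pc_succ (S : Sweep V s) {k G t : ℕ} {p : Sym2 V} (h : S.Rn k G t (t + 1) p) :
    S.pc k G (t + 1) p = S.pc k G t p + if S.Sw t p then 1 else 0 := by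
  unfold Sweep.pc
  have h1 : ∀ u ∈ Finset.range t, (S.Sw u p ∧ S.Rn k G u (t + 1) p ↔ S.Sw u p ∧ S.Rn k G u t p) := by
    intro u hu
    rw [Finset.mem_range] at hu
    constructor
    · rintro ⟨h1, h2⟩
      exact ⟨h1, h2.sub le_rfl (by omega)⟩
    · rintro ⟨h1, h2⟩
      exact ⟨h1, h2.trans h⟩
  rw [Finset.range_add_one, Finset.filter_insert, Finset.filter_congr h1]
  by_cases hs : S.Sw t p
  · rw [if_pos ⟨hs, h⟩, if_pos hs, Finset.card_insert_of_notMem (by simp)]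
  · rw [if_neg (fun h => hs h.1), if_neg hs, Nat.add_zero]

theorem Sweep.pc_cnt (S : Sweep V s) {k G a b : ℕ} {p : Sym2 V} (hab : a ≤ b)
    (h : S.Rn k G a b p) : S.pc k G b p + S.cnt a p = S.pc k G a p + S.cnt b p := by
  induction b, hab using Nat.le_induction with
  | base => rfl
  | succ b hb ih =>
    have i := ih (h.sub le_rfl (by omega))
    rw [S.pc_succ (h.sub hb le_rfl), S.cnt_succ]
    omega

theorem Sweep.pc_sw (S : Sweep V s) {k G a b : ℕ} {p : Sym2 V} (hs : S.Sw a p) (hab : a < b)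
    (h : S.Rn k G a b p) : S.pc k G a p + 1 ≤ S.pc k G b p := by
  have h1 := S.pc_succ (h.sub le_rfl hab)
  rw [if_pos hs] at h1
  rw [← h1]
  exact S.pc_mono hab (h.sub (by omega) le_rfl)

theorem Sweep.pc_le (S : Sweep V s) {k G t : ℕ} {p : Sym2 V} (hp : ¬ S.Fu k G p) (ht : t ≤ S.M) :
    S.pc k G t p + 1 ≤ s := by
  by_contra h
  exact hp ⟨t, ht, by omega⟩

theorem Sweep.lt_iff_pc (S : Sweep V s) {k G a b : ℕ} (hab : a ≤ b) (hb : b ≤ S.M) {u v : V}
    (huv : u ≠ v) (h : S.Rn k G a b s(u, v)) :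
    (S.Lt b u v ↔ S.Lt a u v) ↔ Even (S.pc k G a s(u, v) + S.pc k G b s(u, v)) := by
  have h1 := h a le_rfl hab
  have h2 := h b hab le_rfl
  rw [S.lt_iff hab hb huv (h1.2 u (Sym2.mem_mk_left _ _)).1 (h1.2 v (Sym2.mem_mk_right _ _)).1
    (h2.2 u (Sym2.mem_mk_left _ _)).1 (h2.2 v (Sym2.mem_mk_right _ _)).1]
  have h3 := S.pc_cnt hab h
  rw [Nat.even_iff, Nat.even_iff]
  omega

/-- the exchanges in the band -/
theorem Sweep.band_pc (S : Sweep V s) {k G g t : ℕ} (hg : g ≤ G) (h : t ∈ S.bandR k g) :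
    S.pc k G (t + 1) (S.prR t) = S.pc k G t (S.prR t) + 1 := by
  have hJ := S.band_JR h
  have h1 : S.Rn k G t (t + 1) (S.prR t) := by
    intro u h1 h2
    rcases Nat.eq_or_lt_of_le h2 with h3 | h3
    · rw [h3]
      exact hJ.2.mono hg
    · have : u = t := by omega
      rw [this]
      exact hJ.1.mono hg
  rw [S.pc_succ h1, if_pos (S.band_swR h)]

end LUB
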