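import Pool.Agent.LUB2.PcB

/-!
# Upper bounds for a level, even `s`: counting the exchanges in the band by runs
-/

open scoped Classical

namespace LUB

variable {V : Type} [DecidableEq V] [Fintype V] {s : ℕ}

/-- the exchanges in the band of pairs which are not full -/
noncomputable def Sweep.bandN (S : Sweep V s) (k G g : ℕ) : Finset ℕ :=
  (S.bandR k g).filter fun t => ¬ S.Fu k G (S.prR t)

theorem Sweep.bandN_sub (S : Sweep V s) {k G g t : ℕ} (h : t ∈ S.bandN k G g) :
    t ∈ S.bandR k g ∧ ¬ S.Fu k G (S.prR t) := by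
  unfold Sweep.bandN at h
  exact Finset.mem_filter.1 h

/-- the number of exchanges of full pairs -/
theorem Sweep.bandF_card (S : Sweep V s) (k G g : ℕ) :
    ((S.bandR k g).filter fun t => S.Fu k G (S.prR t)).card ≤ s * (S.FuP k G).card := by
  refine Finset.card_le_mul_card_image_of_maps_to (f := S.prR) ?_ s ?_
  · intro t ht
    rw [Finset.mem_filter] at ht
    unfold Sweep.FuP
    rw [Finset.mem_filter]
    exact ⟨Finset.mem_univ _, ht.2⟩
  · intro p _
    induction p using Sym2.ind with
    | _ u v =>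
      by_cases huv : u = v
      · subst huv
        rw [Finset.card_eq_zero.2]
        · exact Nat.zero_le _
        · rw [Finset.filter_eq_empty_iff]
          intro t ht hp
          have hJ := S.band_JR (Finset.mem_filter.1 ht).1
          rw [hp] at hJ
          exact hJ.1.1 (by simp)
      · refine le_trans (Finset.card_le_card ?_) (S.budget u v huv)
        intro t ht
        rw [Finset.mem_filter, Finset.mem_filter] at ht
        have h1 := S.band_swR ht.1.1
        rw [ht.2] at h1
        rw [Finset.mem_filter, Finset.mem_range]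
        exact ⟨h1.1, h1.2.1, h1.2.2⟩

/-- two exchanges of one run with the same number -/
theorem Sweep.pc_injR (S : Sweep V s) {k G g a t t' : ℕ} {p : Sym2 V} (hgG : g ≤ G)
    (h : S.Sw t p) (h' : S.Sw t' p) (ha : a ≤ t) (ha' : a ≤ t') (hr : S.Rn k g a (t + 1) p)
    (hr' : S.Rn k g a (t' + 1) p) (he : S.pc k G t p = S.pc k G t' p) : t = t' := by
  rcases lt_trichotomy t t' with h1 | h1 | h1
  · have := S.pc_sw h h1 ((hr'.sub ha (by omega)).mono hgG)
    omega
  · exact h1
  · have := S.pc_sw h' h1 ((hr.sub ha' (by omega)).mono hgG)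
    omega

theorem Sweep.first_carde (S : Sweep V s) {k G g : ℕ} (hgG : g ≤ G) :
    ((S.bandN k G g).filter fun t => S.pc k G t (S.prR t) = 0).card ≤
      ((S.comps k g).filter fun q => S.LBe k G g q.1 q.2).card := by
  refine Finset.card_le_card_of_injOn (S.runR k g) ?_ ?_
  · intro t ht
    simp only [Finset.coe_filter, Set.mem_ofPred_eq] at ht ⊢
    obtain ⟨h1, h2⟩ := S.bandN_sub ht.1
    exact ⟨S.run_memR h1, h2, t, S.run_leR h1, S.run_rnR k g t, S.band_swR h1, ht.2⟩
  · intro t ht t' ht' he
    simp only [Finset.coe_filter, Set.mem_ofPred_eq] at ht ht'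
    have hb := (S.bandN_sub ht.1).1
    have hb' := (S.bandN_sub ht'.1).1
    have hp : S.prR t = S.prR t' := congrArg Prod.snd he
    have hf : (S.runR k g t).1 = (S.runR k g t').1 := congrArg Prod.fst he
    have h1 := S.band_swR hb'
    have h2 := ht'.2
    have h3 := S.run_rnR k g t'
    have h4 : (S.runR k g t').2 = S.prR t := hp.symm
    rw [← hp] at h1 h2
    rw [h4, ← hf] at h3
    exact S.pc_injR hgG (S.band_swR hb) h1 (S.run_leR hb) (by rw [hf]; exact S.run_leR hb')
      (S.run_rnR k g t) h3 (by omega)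

theorem Sweep.last_carde (S : Sweep V s) {k G g : ℕ} (hgG : g ≤ G) :
    ((S.bandN k G g).filter fun t => S.pc k G t (S.prR t) + 2 = s).card ≤
      ((S.compsE k g).filter fun q => S.RBe k G g q.1 q.2).card := by
  have key : ∀ t ∈ S.bandR k g, t + 1 ≤ S.renR k g t (S.prR t) := by
    intro t ht
    have hJ := S.band_JR ht
    exact S.ren_maxR (S.band_ltR ht) fun u h1 h2 => by
      rcases Nat.eq_or_lt_of_le h2 with h4 | h4
      · rw [h4]; exact hJ.2
      · have : u = t := by omega
        rw [this]; exact hJ.1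
  refine Finset.card_le_card_of_injOn (fun t => (S.renR k g t (S.prR t), S.prR t)) ?_ ?_
  · intro t ht
    simp only [Finset.coe_filter, Set.mem_ofPred_eq] at ht ⊢
    obtain ⟨hb, hf⟩ := S.bandN_sub ht.1
    have hJ := S.band_JR hb
    have hl := S.band_ltR hb
    have h1 := key t hb
    refine ⟨S.mem_compsER.2 ⟨S.ren_leR _ _ _ _, S.ren_rnR hl.le hJ.1 _ (by omega) le_rfl,
      S.ren_endR hl.le hJ.1⟩, hf, t, h1, S.ren_rnR hl.le hJ.1, S.band_swR hb, ht.2⟩
  · intro t ht t' ht' he
    simp only [Finset.coe_filter, Set.mem_ofPred_eq] at ht ht'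
    have hb := (S.bandN_sub ht.1).1
    have hb' := (S.bandN_sub ht'.1).1
    have hp : S.prR t = S.prR t' := congrArg Prod.snd he
    have hf : S.renR k g t (S.prR t) = S.renR k g t' (S.prR t') := congrArg Prod.fst he
    have k1 := key t hb
    have k2 := key t' hb'
    have r1 := S.ren_rnR (S.band_ltR hb).le (S.band_JR hb).1
    have r2 := S.ren_rnR (S.band_ltR hb').le (S.band_JR hb').1
    have h1 := S.band_swR hb'
    have h2 := ht'.2
    rw [← hf] at k2 r2
    rw [← hp] at h1 h2 r2
    have hs := S.band_swR hb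
    rcases lt_trichotomy t t' with h5 | h5 | h5
    · have := S.pc_sw hs h5 ((r1.sub le_rfl (by omega)).mono hgG)
      omega
    · exact h5
    · have := S.pc_sw h1 h5 ((r2.sub le_rfl (by omega)).mono hgG)
      omega

/-- the middle exchanges and the lonely exchanges of one run -/
theorem Sweep.one_rune (h4 : 4 ≤ s) (S : Sweep V s) {k G g : ℕ} (hgG : g ≤ G) (q : ℕ × Sym2 V) :
    ((S.bandN k G g).filter fun t => (0 < S.pc k G t (S.prR t) ∧
        S.pc k G t (S.prR t) + 2 < s) ∧ S.runR k g t = q).card +
      ((S.bandN k G g).filter fun t => S.Ln k g t ∧ S.runR k g t = q).card ≤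
      (s - 3) + if S.LMse k G g q.1 q.2 then 1 else 0 := by
  by_cases hl : ∃ τ ∈ S.bandN k G g, S.Ln k g τ ∧ S.runR k g τ = q
  · obtain ⟨τ, hτN, hL, rfl⟩ := hl
    obtain ⟨hτ, hτF⟩ := S.bandN_sub hτN
    have key : ∀ t ∈ S.bandN k G g, S.runR k g t = S.runR k g τ → t = τ := by
      intro t htN he
      have ht := (S.bandN_sub htN).1
      have hp : S.prR t = S.prR τ := congrArg Prod.snd he
      have h1 : (S.runR k g t).1 = (S.runR k g τ).1 := congrArg Prod.fst he
      have hs : S.Sw t s(S.x τ, S.y τ) := by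
        have := S.band_swR ht
        rw [hp] at this
        exact this
      refine hL t hs fun u h2 h4 => ?_
      have h5 := S.run_leR hτ
      have h6 := S.run_leR ht
      rcases le_total t τ with h7 | h7
      · rw [min_eq_right h7] at h2
        rw [max_eq_left h7] at h4
        exact S.run_rnR k g τ u (by omega) h4
      · rw [min_eq_left h7] at h2
        rw [max_eq_right h7] at h4
        have := S.run_rnR k g t u (by omega) h4
        rw [he] at this
        exact this
    have hA : ((S.bandN k G g).filter fun t => S.Ln k g t ∧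
        S.runR k g t = S.runR k g τ).card ≤ 1 := by
      rw [Finset.card_le_one]
      intro a ha b hb
      rw [Finset.mem_filter] at ha hb
      rw [key a ha.1 ha.2.2, key b hb.1 hb.2.2]
    by_cases hm : 0 < S.pc k G τ (S.prR τ) ∧ S.pc k G τ (S.prR τ) + 2 < s
    · have hLM : S.LMse k G g (S.runR k g τ).1 (S.runR k g τ).2 :=
        ⟨hτF, τ, S.run_leR hτ, S.run_rnR k g τ, S.band_swR hτ, hm.1, hm.2, hL⟩
      rw [if_pos hLM]
      have hM : ((S.bandN k G g).filter fun t => (0 < S.pc k G t (S.prR t) ∧
          S.pc k G t (S.prR t) + 2 < s) ∧ S.runR k g t = S.runR k g τ).card ≤ 1 := by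
        rw [Finset.card_le_one]
        intro a ha b hb
        rw [Finset.mem_filter] at ha hb
        rw [key a ha.1 ha.2.2, key b hb.1 hb.2.2]
      omega
    · have hM : ((S.bandN k G g).filter fun t => (0 < S.pc k G t (S.prR t) ∧
          S.pc k G t (S.prR t) + 2 < s) ∧ S.runR k g t = S.runR k g τ).card = 0 := by
        rw [Finset.card_eq_zero, Finset.filter_eq_empty_iff]
        rintro t ht ⟨h1, h2⟩
        rw [key t ht h2] at h1
        exact hm h1
      omega
  · have hA : ((S.bandN k G g).filter fun t => S.Ln k g t ∧ S.runR k g t = q).card = 0 := by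
      rw [Finset.card_eq_zero, Finset.filter_eq_empty_iff]
      intro t ht h1
      exact hl ⟨t, ht, h1⟩
    have hM : ((S.bandN k G g).filter fun t => (0 < S.pc k G t (S.prR t) ∧
          S.pc k G t (S.prR t) + 2 < s) ∧ S.runR k g t = q).card ≤
        (Finset.Icc 1 (s - 3)).card := by
      refine Finset.card_le_card_of_injOn (fun t => S.pc k G t q.2) ?_ ?_
      · intro t ht
        simp only [Finset.coe_filter, Set.mem_ofPred_eq] at ht
        obtain ⟨h1, ⟨h2, h4⟩, h5⟩ := ht
        have hp : S.prR t = q.2 := congrArg Prod.snd h5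
        rw [hp] at h2 h4
        simp only [Finset.coe_Icc, Set.mem_Icc]
        omega
      · intro t ht t' ht' he
        simp only [Finset.coe_filter, Set.mem_ofPred_eq] at ht ht'
        have hb := (S.bandN_sub ht.1).1
        have hb' := (S.bandN_sub ht'.1).1
        have hp : S.prR t = q.2 := congrArg Prod.snd ht.2.2
        have hp' : S.prR t' = q.2 := congrArg Prod.snd ht'.2.2
        have e1 := S.run_leR hb
        have e2 := S.run_leR hb'
        have e3 := S.run_rnR k g t
        have e4 := S.run_rnR k g t'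
        rw [ht.2.2] at e1 e3
        rw [ht'.2.2] at e2 e4
        exact S.pc_injR hgG (hp ▸ S.band_swR hb) (hp' ▸ S.band_swR hb') e1 e2 e3 e4 he
    rw [Nat.card_Icc] at hM
    omega

theorem Sweep.runs_e (h4 : 4 ≤ s) (S : Sweep V s) {k G g : ℕ} (hgG : g ≤ G) :
    S.N k g + (S.A k g).card ≤ (s - 3) * (S.comps k g).card +
      ((S.comps k g).filter fun q => S.LMse k G g q.1 q.2).card +
      ((S.comps k g).filter fun q => S.LBe k G g q.1 q.2).card +
      ((S.compsE k g).filter fun q => S.RBe k G g q.1 q.2).card +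
      2 * s * (S.FuP k G).card := by
  have h1 := S.first_carde (k := k) hgG
  have h2 := S.last_carde (k := k) hgG
  have hF := S.bandF_card k G g
  have hN : S.N k g = (S.bandR k g).card := rfl
  have hN2 : (S.bandR k g).card = ((S.bandR k g).filter fun t => S.Fu k G (S.prR t)).card +
      (S.bandN k G g).card :=
    (Finset.card_filter_add_card_filter_not _).symm
  have hA : (S.A k g).card ≤ ((S.bandN k G g).filter fun t => S.Ln k g t).card +
      ((S.bandR k g).filter fun t => S.Fu k G (S.prR t)).card := by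
    refine (Finset.card_le_card ?_).trans (Finset.card_union_le _ _)
    intro t ht
    have ht2 : t ∈ S.bandR k g ∧ S.Ln k g t := by
      simp only [Sweep.A, Finset.mem_filter, Finset.mem_range] at ht
      simp only [Sweep.bandR, Finset.mem_filter, Finset.mem_range]
      exact ⟨⟨ht.1, ht.2.1, ht.2.2.1, ht.2.2.2.1⟩, ht.2.2.2.2⟩
    rw [Finset.mem_union]
    by_cases hf : S.Fu k G (S.prR t)
    · exact Or.inr (Finset.mem_filter.2 ⟨ht2.1, hf⟩)
    · exact Or.inl (Finset.mem_filter.2 ⟨Finset.mem_filter.2 ⟨ht2.1, hf⟩, ht2.2⟩)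
  have hsplit : (S.bandN k G g).card ≤
      ((S.bandN k G g).filter fun t => S.pc k G t (S.prR t) = 0).card +
      ((S.bandN k G g).filter fun t => S.pc k G t (S.prR t) + 2 = s).card +
      ((S.bandN k G g).filter fun t => 0 < S.pc k G t (S.prR t) ∧
        S.pc k G t (S.prR t) + 2 < s).card := by
    refine (Finset.card_le_card ?_).trans (Finset.card_union_le _ _ |>.trans
      (Nat.add_le_add_right (Finset.card_union_le _ _) _))
    intro t ht
    obtain ⟨hb, hf⟩ := S.bandN_sub ht
    have e1 := S.band_pc hgG hb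
    have e2 := S.pc_le hf (t := t + 1) (S.band_ltR hb)
    simp only [Finset.mem_union, Finset.mem_filter]
    by_cases h5 : S.pc k G t (S.prR t) = 0
    · exact Or.inl (Or.inl ⟨ht, h5⟩)
    · by_cases h6 : S.pc k G t (S.prR t) + 2 = s
      · exact Or.inl (Or.inr ⟨ht, h6⟩)
      · exact Or.inr ⟨ht, by omega, by omega⟩
  have hM : ((S.bandN k G g).filter fun t => 0 < S.pc k G t (S.prR t) ∧
      S.pc k G t (S.prR t) + 2 < s).card = ∑ q ∈ S.comps k g,
      ((S.bandN k G g).filter fun t => (0 < S.pc k G t (S.prR t) ∧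
        S.pc k G t (S.prR t) + 2 < s) ∧ S.runR k g t = q).card := by
    rw [Finset.card_eq_sum_card_fiberwise (f := S.runR k g) (t := S.comps k g)]
    · refine Finset.sum_congr rfl fun q _ => ?_
      rw [Finset.filter_filter]
    · intro t ht
      exact S.run_memR (S.bandN_sub (Finset.mem_filter.1 ht).1).1
  have hL : ((S.bandN k G g).filter fun t => S.Ln k g t).card = ∑ q ∈ S.comps k g,
      ((S.bandN k G g).filter fun t => S.Ln k g t ∧ S.runR k g t = q).card := by
    rw [Finset.card_eq_sum_card_fiberwise (f := S.runR k g) (t := S.comps k g)]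
    · refine Finset.sum_congr rfl fun q _ => ?_
      rw [Finset.filter_filter]
    · intro t ht
      exact S.run_memR (S.bandN_sub (Finset.mem_filter.1 ht).1).1
  have hsum : ((S.bandN k G g).filter fun t => 0 < S.pc k G t (S.prR t) ∧
      S.pc k G t (S.prR t) + 2 < s).card + ((S.bandN k G g).filter fun t => S.Ln k g t).card ≤
      (s - 3) * (S.comps k g).card +
        ((S.comps k g).filter fun q => S.LMse k G g q.1 q.2).card := by
    rw [hM, hL, ← Finset.sum_add_distrib]
    refine (Finset.sum_le_sum fun q _ => S.one_rune h4 hgG q).trans ?_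
    rw [Finset.sum_add_distrib, Finset.sum_const, smul_eq_mul, Finset.card_filter, mul_comm]
  have e : 2 * s * (S.FuP k G).card = s * (S.FuP k G).card + s * (S.FuP k G).card := by ring
  rw [hN, e]
  omega

/-- the runs of one kind -/
theorem Sweep.lms_lmee (S : Sweep V s) {k G g : ℕ} {q : ℕ × Sym2 V} (hq : q ∈ S.comps k g) :
    S.LMse k G g q.1 q.2 ↔ S.LMee k G g (S.renR k g q.1 q.2) q.2 := by
  have h := S.mem_compsR.1 hq
  have hr := S.ren_rnR h.1 h.2.1
  constructor
  · rintro ⟨h0, τ, h1, h2, h3, h4, h5, h6⟩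
    have h7 : τ + 1 ≤ S.renR k g q.1 q.2 := S.ren_maxR h3.1 h2
    exact ⟨h0, τ, h7, fun u h8 h9 => hr u (h1.trans h8) h9, h3, h4, h5, h6⟩
  · rintro ⟨h0, τ, h1, h2, h3, h4, h5, h6⟩
    have h7 : q.1 ≤ τ := by
      have := S.rst_renR hq
      rw [← this]
      exact S.rst_minR h2
    exact ⟨h0, τ, h7, fun u h8 h9 => hr u h8 (by omega), h3, h4, h5, h6⟩

theorem Sweep.LM_carde (S : Sweep V s) (k G g : ℕ) :
    ((S.compsE k g).filter fun q => S.LMee k G g q.1 q.2).card =
      ((S.comps k g).filter fun q => S.LMse k G g q.1 q.2).card := by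
  refine Finset.card_bij' (fun q _ => (S.rstR k g q.1 q.2, q.2))
    (fun q _ => (S.renR k g q.1 q.2, q.2)) ?_ ?_ ?_ ?_
  · intro q hq
    rw [Finset.mem_filter] at hq ⊢
    have := S.mem_compsER.1 hq.1
    have h1 := S.rst_memR this.1 this.2.1
    refine ⟨h1, ?_⟩
    rw [S.lms_lmee h1]
    simp only
    rw [S.ren_rstR hq.1]
    exact hq.2
  · intro q hq
    rw [Finset.mem_filter] at hq ⊢
    exact ⟨S.ren_memR hq.1, (S.lms_lmee hq.1).1 hq.2⟩
  · intro q hq
    exact Prod.ext (S.ren_rstR (Finset.mem_filter.1 hq).1) rfl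
  · intro q hq
    exact Prod.ext (S.rst_renR (Finset.mem_filter.1 hq).1) rfl

end LUB
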