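import Mathlib

/-!
# Random samples
-/

open scoped Classical

namespace LUB

/-- The number of colourings which are `0` on `S` and not `0` on `B`. -/
theorem samp_cnt {V : Type} [DecidableEq V] [Fintype V] (m : ℕ) (S B : Finset V)
    (hd : Disjoint S B) :
    (((Finset.univ : Finset (V → Fin (m + 1))).filter
      fun f => (∀ v ∈ S, f v = 0) ∧ ∀ w ∈ B, f w ≠ 0).card : ℝ) =
      ((m : ℝ) + 1) ^ Fintype.card V *
        ((1 / ((m : ℝ) + 1)) ^ S.card * ((m : ℝ) / ((m : ℝ) + 1)) ^ B.card) := by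
  have hm : (0 : ℝ) < (m : ℝ) + 1 := by positivity
  set t : V → Finset (Fin (m + 1)) := fun v =>
    if v ∈ S then {0} else if v ∈ B then Finset.univ.erase 0 else Finset.univ with ht
  have h1 : ((Finset.univ : Finset (V → Fin (m + 1))).filter
      fun f => (∀ v ∈ S, f v = 0) ∧ ∀ w ∈ B, f w ≠ 0) = Fintype.piFinset t := by
    ext f
    simp only [Finset.mem_filter, Finset.mem_univ, true_and, Fintype.mem_piFinset]
    constructor
    · rintro ⟨h1, h2⟩ v
      by_cases hv : v ∈ S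
      · simp [ht, hv, h1 v hv]
      · by_cases hw : v ∈ B
        · simp [ht, hv, hw, h2 v hw]
        · simp [ht, hv, hw]
    · intro h
      refine ⟨fun v hv => ?_, fun w hw => ?_⟩
      · have := h v
        simpa [ht, hv] using this
      · have hS : w ∉ S := fun hS => (Finset.disjoint_left.mp hd) hS hw
        have := h w
        simpa [ht, hS, hw] using this
  rw [h1, Fintype.card_piFinset]
  push_cast
  have h2 : ∀ v : V, ((t v).card : ℝ) = ((m : ℝ) + 1) *
      ((if v ∈ S then 1 / ((m : ℝ) + 1) else 1) * (if v ∈ B then (m : ℝ) / ((m : ℝ) + 1) else 1)) := by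
    intro v
    by_cases hv : v ∈ S
    · have hB : v ∉ B := (Finset.disjoint_left.mp hd) hv
      simp only [ht, hv, hB, if_true, if_false, Finset.card_singleton, Nat.cast_one, mul_one]
      field_simp
    · by_cases hw : v ∈ B
      · have hc : ((Finset.univ : Finset (Fin (m + 1))).erase 0).card = m := by
          rw [Finset.card_erase_of_mem (Finset.mem_univ _), Finset.card_univ, Fintype.card_fin]
          rfl
        simp only [ht, hv, hw, if_true, if_false, hc, one_mul]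
        field_simp
      · simp only [ht, hv, hw, if_false, Finset.card_univ, Fintype.card_fin, mul_one]
        push_cast
        ring
  rw [Finset.prod_congr rfl fun v _ => h2 v, Finset.prod_mul_distrib, Finset.prod_mul_distrib,
    Finset.prod_const, Finset.card_univ]
  congr 2
  · rw [Finset.prod_ite_mem, Finset.univ_inter, Finset.prod_const]
  · rw [Finset.prod_ite_mem, Finset.univ_inter, Finset.prod_const]

/-- `(m / (m + 1)) ^ (K m) ≥ 3 ^ (-K)`. -/
theorem samp_exp (m K b : ℕ) (hb : b ≤ K * m) :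
    1 ≤ (3 : ℝ) ^ K * ((m : ℝ) / ((m : ℝ) + 1)) ^ b := by
  rcases Nat.eq_zero_or_pos m with h0 | h0
  · subst h0
    have : b = 0 := by simpa using hb
    subst this
    simpa using one_le_pow₀ (by norm_num : (1 : ℝ) ≤ 3)
  have hm : (0 : ℝ) < m := by exact_mod_cast h0
  have h1 : (0 : ℝ) ≤ (m : ℝ) / ((m : ℝ) + 1) := by positivity
  have h2 : (m : ℝ) / ((m : ℝ) + 1) ≤ 1 := by
    rw [div_le_one (by positivity)]
    linarith
  have h3 : 1 ≤ 3 * ((m : ℝ) / ((m : ℝ) + 1)) ^ m := by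
    have h4 : (1 + 1 / (m : ℝ)) ^ m ≤ 3 := by
      have h5 : (1 + 1 / (m : ℝ)) ≤ Real.exp (1 / (m : ℝ)) := by
        have := Real.add_one_le_exp (1 / (m : ℝ))
        linarith
      calc (1 + 1 / (m : ℝ)) ^ m ≤ (Real.exp (1 / (m : ℝ))) ^ m :=
            pow_le_pow_left₀ (by positivity) h5 m
        _ = Real.exp 1 := by
            rw [← Real.exp_nat_mul]
            congr 1
            field_simp
        _ ≤ 3 := by
            have := Real.exp_one_lt_d9
            linarith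
    have h6 : (1 + 1 / (m : ℝ)) ^ m * ((m : ℝ) / ((m : ℝ) + 1)) ^ m = 1 := by
      rw [← mul_pow]
      have : (1 + 1 / (m : ℝ)) * ((m : ℝ) / ((m : ℝ) + 1)) = 1 := by
        field_simp
      rw [this, one_pow]
    calc (1 : ℝ) = (1 + 1 / (m : ℝ)) ^ m * ((m : ℝ) / ((m : ℝ) + 1)) ^ m := h6.symm
      _ ≤ 3 * ((m : ℝ) / ((m : ℝ) + 1)) ^ m :=
          mul_le_mul_of_nonneg_right h4 (pow_nonneg h1 m)
  calc (1 : ℝ) ≤ (3 * ((m : ℝ) / ((m : ℝ) + 1)) ^ m) ^ K := one_le_pow₀ h3
    _ = 3 ^ K * ((m : ℝ) / ((m : ℝ) + 1)) ^ (K * m) := by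
        rw [mul_pow, ← pow_mul, mul_comm m K]
    _ ≤ 3 ^ K * ((m : ℝ) / ((m : ℝ) + 1)) ^ b :=
        mul_le_mul_of_nonneg_left (pow_le_pow_of_le_one h1 h2 hb) (by positivity)

/-- If every set `R` contains at most `c₂ |R| ^ 2 + c₁ |R|` of the pairs in `P` whose bad set is
disjoint from `R`, and all bad sets have at most `K m` elements, then `P` is small. (Colour the
elements at random with `m + 1` colours and take for `R` the colour class of `0`.) -/
theorem samp {V : Type} [DecidableEq V] [Fintype V] (P : Finset (V × V)) (Bad : V × V → Finset V)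
    (m K : ℕ) (hm : 1 ≤ m) (hP : ∀ p ∈ P, p.1 ≠ p.2 ∧ p.1 ∉ Bad p ∧ p.2 ∉ Bad p ∧
      (Bad p).card ≤ K * m) (c₁ c₂ : ℝ) (h₁ : 0 ≤ c₁) (h₂ : 0 ≤ c₂)
    (hR : ∀ R : Finset V, ((P.filter fun p => p.1 ∈ R ∧ p.2 ∈ R ∧ Disjoint R (Bad p)).card : ℝ) ≤
      c₂ * (R.card : ℝ) ^ 2 + c₁ * R.card) :
    (P.card : ℝ) ≤ 3 ^ K * (c₂ * (Fintype.card V : ℝ) ^ 2 +
      (c₁ + c₂) * (m + 1) * Fintype.card V) := by
  have _ := hm
  have hm0 : (0 : ℝ) < (m : ℝ) + 1 := by positivity
  set n : ℕ := Fintype.card V with hn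
  set T : ℝ := ((m : ℝ) + 1) ^ n with hT
  have hT0 : 0 < T := by positivity
  set R : (V → Fin (m + 1)) → Finset V := fun f => Finset.univ.filter fun v => f v = 0 with hRd
  have hRm : ∀ f v, v ∈ R f ↔ f v = 0 := fun f v => by simp [hRd]
  -- the sum over all colourings
  have hsum : ∑ f : V → Fin (m + 1),
      ((P.filter fun p => p.1 ∈ R f ∧ p.2 ∈ R f ∧ Disjoint (R f) (Bad p)).card : ℝ) ≤
      ∑ f : V → Fin (m + 1), (c₂ * ((R f).card : ℝ) ^ 2 + c₁ * (R f).card) :=
    Finset.sum_le_sum fun f _ => hR (R f)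
  -- left hand side
  have hleft : (P.card : ℝ) * (T * (1 / ((m : ℝ) + 1)) ^ 2) ≤ 3 ^ K * ∑ f : V → Fin (m + 1),
      ((P.filter fun p => p.1 ∈ R f ∧ p.2 ∈ R f ∧ Disjoint (R f) (Bad p)).card : ℝ) := by
    have h1 : ∑ f : V → Fin (m + 1),
        ((P.filter fun p => p.1 ∈ R f ∧ p.2 ∈ R f ∧ Disjoint (R f) (Bad p)).card : ℝ) =
        ∑ p ∈ P, (((Finset.univ : Finset (V → Fin (m + 1))).filter fun f =>
          p.1 ∈ R f ∧ p.2 ∈ R f ∧ Disjoint (R f) (Bad p)).card : ℝ) := by
      simp only [Finset.card_filter, Nat.cast_sum]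
      rw [Finset.sum_comm]
    rw [h1, Finset.mul_sum, ← nsmul_eq_mul, ← Finset.sum_const]
    refine Finset.sum_le_sum fun p hp => ?_
    obtain ⟨hne, hb1, hb2, hbc⟩ := hP p hp
    have hset : ((Finset.univ : Finset (V → Fin (m + 1))).filter fun f =>
          p.1 ∈ R f ∧ p.2 ∈ R f ∧ Disjoint (R f) (Bad p)) =
        ((Finset.univ : Finset (V → Fin (m + 1))).filter
          fun f => (∀ v ∈ ({p.1, p.2} : Finset V), f v = 0) ∧ ∀ w ∈ Bad p, f w ≠ 0) := by
      ext f
      simp only [Finset.mem_filter, Finset.mem_univ, true_and, hRm, Finset.disjoint_left,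
        Finset.mem_insert, Finset.mem_singleton]
      constructor
      · rintro ⟨h1, h2, h3⟩
        refine ⟨?_, fun w hw h0 => h3 h0 hw⟩
        rintro v (rfl | rfl)
        · exact h1
        · exact h2
      · rintro ⟨h1, h2⟩
        exact ⟨h1 _ (Or.inl rfl), h1 _ (Or.inr rfl), fun v hv hvb => h2 v hvb hv⟩
    have hdis : Disjoint ({p.1, p.2} : Finset V) (Bad p) := by
      rw [Finset.disjoint_left]
      intro v hv
      simp only [Finset.mem_insert, Finset.mem_singleton] at hv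
      rcases hv with rfl | rfl
      · exact hb1
      · exact hb2
    rw [hset, samp_cnt m _ _ hdis, Finset.card_pair hne, ← hn, ← hT]
    have h3 := samp_exp m K _ hbc
    have h4 : 0 ≤ T * (1 / ((m : ℝ) + 1)) ^ 2 := by positivity
    calc T * (1 / ((m : ℝ) + 1)) ^ 2 = T * (1 / ((m : ℝ) + 1)) ^ 2 * 1 := by ring
      _ ≤ T * (1 / ((m : ℝ) + 1)) ^ 2 *
          (3 ^ K * ((m : ℝ) / ((m : ℝ) + 1)) ^ (Bad p).card) :=
          mul_le_mul_of_nonneg_left h3 h4
      _ = 3 ^ K * (T * ((1 / ((m : ℝ) + 1)) ^ 2 *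
          ((m : ℝ) / ((m : ℝ) + 1)) ^ (Bad p).card)) := by ring
  -- the number of colourings with `f v = 0`
  have hone : ∀ v : V, (((Finset.univ : Finset (V → Fin (m + 1))).filter
      fun f => f v = 0).card : ℝ) = T * (1 / ((m : ℝ) + 1)) := by
    intro v
    have := samp_cnt m ({v} : Finset V) ∅ (Finset.disjoint_empty_right _)
    simpa [← hn, ← hT] using this
  have htwo : ∀ v w : V, (((Finset.univ : Finset (V → Fin (m + 1))).filter
      fun f => f v = 0 ∧ f w = 0).card : ℝ) ≤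
        T * ((1 / ((m : ℝ) + 1)) ^ 2 + if v = w then 1 / ((m : ℝ) + 1) else 0) := by
    intro v w
    by_cases hvw : v = w
    · subst hvw
      simp only [and_self, if_true]
      rw [hone v]
      have : 0 ≤ T * (1 / ((m : ℝ) + 1)) ^ 2 := by positivity
      nlinarith
    · simp only [hvw, if_false, add_zero]
      have := samp_cnt m ({v, w} : Finset V) ∅ (Finset.disjoint_empty_right _)
      rw [Finset.card_pair hvw, ← hn, ← hT, Finset.card_empty, pow_zero, mul_one] at this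
      refine le_of_eq ?_
      rw [← this]
      congr 2
      ext f
      simp
  -- right hand side
  have hs1 : ∑ f : V → Fin (m + 1), ((R f).card : ℝ) = n * (T * (1 / ((m : ℝ) + 1))) := by
    have h1 : ∑ f : V → Fin (m + 1), ((R f).card : ℝ) = ∑ v : V,
        (((Finset.univ : Finset (V → Fin (m + 1))).filter fun f => f v = 0).card : ℝ) := by
      simp only [hRd, Finset.card_filter, Nat.cast_sum]
      rw [Finset.sum_comm]
    rw [h1, Finset.sum_congr rfl fun v _ => hone v, Finset.sum_const, Finset.card_univ,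
      nsmul_eq_mul]
  have hs2 : ∑ f : V → Fin (m + 1), ((R f).card : ℝ) ^ 2 ≤
      T * ((n : ℝ) ^ 2 * (1 / ((m : ℝ) + 1)) ^ 2 + n * (1 / ((m : ℝ) + 1))) := by
    have h1 : ∑ f : V → Fin (m + 1), ((R f).card : ℝ) ^ 2 = ∑ v : V, ∑ w : V,
        (((Finset.univ : Finset (V → Fin (m + 1))).filter
          fun f => f v = 0 ∧ f w = 0).card : ℝ) := by
      have h2 : ∀ f : V → Fin (m + 1), ((R f).card : ℝ) ^ 2 =
          ∑ v : V, ∑ w : V, (if f v = 0 ∧ f w = 0 then (1 : ℝ) else 0) := by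
        intro f
        have h3 : ((R f).card : ℝ) = ∑ v : V, (if f v = 0 then (1 : ℝ) else 0) := by
          simp only [hRd, Finset.card_filter, Nat.cast_sum, Nat.cast_ite, Nat.cast_one,
            Nat.cast_zero]
        rw [sq, h3, Finset.sum_mul_sum]
        refine Finset.sum_congr rfl fun v _ => Finset.sum_congr rfl fun w _ => ?_
        by_cases h4 : f v = 0 <;> by_cases h5 : f w = 0 <;> simp [h4, h5]
      rw [Finset.sum_congr rfl fun f _ => h2 f, Finset.sum_comm]
      refine Finset.sum_congr rfl fun v _ => ?_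
      rw [Finset.sum_comm]
      refine Finset.sum_congr rfl fun w _ => ?_
      simp only [Finset.card_filter, Nat.cast_sum, Nat.cast_ite, Nat.cast_one, Nat.cast_zero]
    rw [h1]
    calc ∑ v : V, ∑ w : V, (((Finset.univ : Finset (V → Fin (m + 1))).filter
          fun f => f v = 0 ∧ f w = 0).card : ℝ) ≤
        ∑ v : V, ∑ w : V, T * ((1 / ((m : ℝ) + 1)) ^ 2 +
          if v = w then 1 / ((m : ℝ) + 1) else 0) :=
          Finset.sum_le_sum fun v _ => Finset.sum_le_sum fun w _ => htwo v w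
      _ = T * ((n : ℝ) ^ 2 * (1 / ((m : ℝ) + 1)) ^ 2 + n * (1 / ((m : ℝ) + 1))) := by
          simp only [← Finset.mul_sum, Finset.sum_add_distrib, Finset.sum_const,
            Finset.card_univ, nsmul_eq_mul, Finset.sum_ite_eq, Finset.mem_univ, if_true, ← hn]
          ring
  have hright : ∑ f : V → Fin (m + 1), (c₂ * ((R f).card : ℝ) ^ 2 + c₁ * (R f).card) ≤
      T * (1 / ((m : ℝ) + 1)) ^ 2 * (c₂ * (n : ℝ) ^ 2 + (c₁ + c₂) * (m + 1) * n) := by
    rw [Finset.sum_add_distrib, ← Finset.mul_sum, ← Finset.mul_sum, hs1]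
    have h1 := mul_le_mul_of_nonneg_left hs2 h₂
    have h2 : T * (1 / ((m : ℝ) + 1)) ^ 2 * (c₂ * (n : ℝ) ^ 2 + (c₁ + c₂) * (m + 1) * n) =
        c₂ * (T * ((n : ℝ) ^ 2 * (1 / ((m : ℝ) + 1)) ^ 2 + n * (1 / ((m : ℝ) + 1)))) +
          c₁ * (n * (T * (1 / ((m : ℝ) + 1)))) := by
      field_simp
      ring
    rw [h2]
    linarith
  -- conclusion
  have h3K : (0 : ℝ) < 3 ^ K := by positivity
  have hfin := hleft.trans (mul_le_mul_of_nonneg_left (hsum.trans hright) h3K.le)
  have hpos : 0 < T * (1 / ((m : ℝ) + 1)) ^ 2 := by positivity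
  have hfin2 : (P.card : ℝ) * (T * (1 / ((m : ℝ) + 1)) ^ 2) ≤
      (3 ^ K * (c₂ * (n : ℝ) ^ 2 + (c₁ + c₂) * (m + 1) * n)) * (T * (1 / ((m : ℝ) + 1)) ^ 2) := by
    calc (P.card : ℝ) * (T * (1 / ((m : ℝ) + 1)) ^ 2) ≤ _ := hfin
      _ = _ := by ring
  exact le_of_mul_le_mul_right hfin2 hpos

end LUB
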